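import Pool.Agent.H795Z.GM.Defs

/-! Nested triangles with a dominating vertex. -/

set_option autoImplicit false

namespace Pool.Agent.H795Z.GM

/-- adjacency of the nested triangles with centre `1` and dominating vertex `0`; the vertex `v ≥ 2`
is the corner `(v + 1) % 3` of the triangle `(v + 1) / 3` -/
def AAdj (v w : ℕ) : Prop := v ≠ w ∧ (v = 0 ∨ w = 0 ∨ (v + 1) / 3 = (w + 1) / 3 ∨
  ((v + 1) / 3 + 1 = (w + 1) / 3 ∧ (v = 1 ∨ (v + 1) % 3 = (w + 1) % 3)) ∨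
  ((w + 1) / 3 + 1 = (v + 1) / 3 ∧ (w = 1 ∨ (v + 1) % 3 = (w + 1) % 3)))

/-- the apex graph used for the lower bounds -/
def apexA (t : ℕ) : SimpleGraph (Fin t) where
  Adj v w := AAdj v w
  symm := ⟨fun v w h => by unfold AAdj at *; omega⟩
  loopless := ⟨fun v h => h.1 rfl⟩

/-- three directions -/
def dv (j : ℕ) : ℝ × ℝ := if j = 0 then (1, 0) else if j = 1 then (0, 1) else (-1, -1)

theorem dv1 {g g' : ℝ} (h : 0 ≤ g) (h' : 0 ≤ g') {j k : ℕ} (hj : j < 3) (hk : k < 3)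
    (e : g • dv j = g' • dv k) : g = g' ∧ (j = k ∨ g = 0) := by
  interval_cases j <;> interval_cases k <;>
    simp only [dv, Prod.ext_iff, Prod.smul_fst, Prod.smul_snd, smul_eq_mul] at e <;>
    norm_num at e ⊢ <;> first | exact e | (constructor <;> linarith [e.1, e.2])

theorem dv2 {a b g : ℝ} (ha : 0 < a) (hb : 0 < b) (h : 0 ≤ g) {i j k : ℕ} (hi : i < 3) (hj : j < 3)
    (hk : k < 3) (hij : i ≠ j) (e : a • dv i + b • dv j = g • dv k) : False := by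
  interval_cases i <;> interval_cases j <;> interval_cases k <;>
    simp only [dv, Prod.ext_iff, Prod.smul_fst, Prod.smul_snd, smul_eq_mul, Prod.fst_add,
      Prod.snd_add] at e <;>
    norm_num at e hij <;> linarith [e.1, e.2]

theorem dv3 {a b c d : ℝ} (ha : 0 < a) (hb : 0 < b) (hc : 0 < c) (hd : 0 < d) {i j k l : ℕ}
    (hi : i < 3) (hj : j < 3) (hk : k < 3) (hl : l < 3) (hij : i ≠ j) (hkl : k ≠ l)
    (e : a • dv i + b • dv j = c • dv k + d • dv l) :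
    a + b = c + d ∧ ((i = k ∧ j = l) ∨ (i = l ∧ j = k)) := by
  interval_cases i <;> interval_cases j <;> interval_cases k <;> interval_cases l <;>
    first
    | exact absurd rfl hij
    | exact absurd rfl hkl
    | (simp only [dv, Prod.ext_iff, Prod.smul_fst, Prod.smul_snd, smul_eq_mul, Prod.fst_add,
        Prod.snd_add] at e
       norm_num at e
       first
       | exact ⟨by linarith [e.1, e.2], by decide⟩
       | (exfalso; linarith [e.1, e.2]))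

/-- the position of a vertex -/
noncomputable def ps (v : ℕ) : ℝ × ℝ := (((v + 1) / 3 : ℕ) : ℝ) • dv ((v + 1) % 3)

theorem ps_inj {v w : ℕ} (hv : v ≠ 0) (hw : w ≠ 0) (e : ps v = ps w) : v = w := by
  obtain ⟨h1, h2⟩ := dv1 (Nat.cast_nonneg _) (Nat.cast_nonneg _) (Nat.mod_lt _ (by norm_num))
    (Nat.mod_lt _ (by norm_num)) e
  have h1' : (v + 1) / 3 = (w + 1) / 3 := by exact_mod_cast h1
  rcases h2 with h2 | h2
  · omega
  · have : (v + 1) / 3 = 0 := by exact_mod_cast h2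
    omega

/-- interior points of the edge `uv` -/
def Inner (u v : ℕ) (q : ℝ × ℝ) : Prop :=
  (∃ a b : ℝ, 0 < a ∧ 0 < b ∧ a + b = ((u + 1) / 3 : ℕ) ∧ (u + 1) / 3 = (v + 1) / 3 ∧
    (u + 1) % 3 ≠ (v + 1) % 3 ∧ q = a • dv ((u + 1) % 3) + b • dv ((v + 1) % 3)) ∨
  ∃ (g : ℝ) (x y : ℕ), ((x = u ∧ y = v) ∨ (x = v ∧ y = u)) ∧ (((x + 1) / 3 : ℕ) : ℝ) < g ∧
    g < ((x + 1) / 3 : ℕ) + 1 ∧ (x + 1) / 3 + 1 = (y + 1) / 3 ∧
    (x = 1 ∨ (x + 1) % 3 = (y + 1) % 3) ∧ q = g • dv ((y + 1) % 3)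

theorem radial {x y : ℕ} (h1 : (x + 1) / 3 + 1 = (y + 1) / 3)
    (h2 : x = 1 ∨ (x + 1) % 3 = (y + 1) % 3) (s t : ℝ) (hst : s + t = 1) :
    s • ps x + t • ps y = ((((x + 1) / 3 : ℕ) : ℝ) + t) • dv ((y + 1) % 3) := by
  have e : ps x = (((x + 1) / 3 : ℕ) : ℝ) • dv ((y + 1) % 3) := by
    rcases h2 with rfl | h2
    · simp [ps]
    · rw [ps, h2]
  rw [e, ps, ← h1, smul_smul, smul_smul, ← add_smul]
  congr 1
  push_cast
  linear_combination (((x + 1) / 3 : ℕ) : ℝ) * hst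

theorem on_edge {u v : ℕ} (hu : u ≠ 0) (hv : v ≠ 0) (h : AAdj u v) {q : ℝ × ℝ}
    (hq : q ∈ segment ℝ (ps u) (ps v)) : q = ps u ∨ q = ps v ∨ Inner u v q := by
  obtain ⟨s, t, hs, ht, hst, rfl⟩ := hq
  rcases ht.eq_or_lt with rfl | ht
  · left; rw [add_zero] at hst; simp [hst]
  rcases hs.eq_or_lt with rfl | hs
  · right; left; rw [zero_add] at hst; simp [hst]
  right; right
  obtain ⟨h0, h | h | h | h | h⟩ := h
  · exact absurd h hu
  · exact absurd h hv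
  · have hl : (0 : ℝ) < ((u + 1) / 3 : ℕ) := by
      have : 0 < (u + 1) / 3 := by omega
      exact_mod_cast this
    refine Or.inl ⟨s * ((u + 1) / 3 : ℕ), t * ((u + 1) / 3 : ℕ), by positivity, by positivity,
      by rw [← add_mul, hst, one_mul], h, by omega, ?_⟩
    rw [ps, ps, ← h, smul_smul, smul_smul]
  · exact Or.inr ⟨(((u + 1) / 3 : ℕ) : ℝ) + t, u, v, Or.inl ⟨rfl, rfl⟩, by linarith, by linarith, h.1, h.2,
      radial h.1 h.2 s t hst⟩
  · refine Or.inr ⟨(((v + 1) / 3 : ℕ) : ℝ) + s, v, u, Or.inr ⟨rfl, rfl⟩, by linarith, by linarith, h.1,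
      h.2.imp id Eq.symm, ?_⟩
    rw [add_comm]
    exact radial h.1 (h.2.imp id Eq.symm) t s (by linarith)

theorem inner_ne {u v w : ℕ} (h : Inner u v (ps w)) : False := by
  rcases h with ⟨a, b, ha, hb, _, _, h, e⟩ | ⟨g, x, y, _, g1, g2, _, _, e⟩
  · exact dv2 ha hb (Nat.cast_nonneg _) (Nat.mod_lt _ (by norm_num)) (Nat.mod_lt _ (by norm_num))
      (Nat.mod_lt _ (by norm_num)) h e.symm
  · have g0 : 0 ≤ g := (Nat.cast_nonneg _).trans g1.le
    obtain ⟨h1, _⟩ := dv1 (Nat.cast_nonneg _) g0 (Nat.mod_lt _ (by norm_num))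
      (Nat.mod_lt _ (by norm_num)) e
    rw [← h1] at g1 g2
    have a1 : (x + 1) / 3 < (w + 1) / 3 := by exact_mod_cast g1
    have a2 : (w + 1) / 3 < (x + 1) / 3 + 1 := by exact_mod_cast g2
    omega

theorem inner_eq {u v x y : ℕ} (hu : u ≠ 0) (hv : v ≠ 0) (hx : x ≠ 0) (hy : y ≠ 0) {q : ℝ × ℝ}
    (h : Inner u v q) (h' : Inner x y q) : (u = x ∧ v = y) ∨ (u = y ∧ v = x) := by
  have m3 : ∀ n : ℕ, n % 3 < 3 := fun n => Nat.mod_lt _ (by norm_num)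
  rcases h with ⟨a, b, ha, hb, h1, h2, h3, e⟩ | ⟨g, x1, y1, g0, g1, g2, g3, g4, e⟩ <;>
    rcases h' with ⟨c, d, hc, hd, k1, k2, k3, e'⟩ | ⟨f, x2, y2, f0, f1, f2, f3, f4, e'⟩
  · obtain ⟨m1, m2⟩ := dv3 ha hb hc hd (m3 _) (m3 _) (m3 _) (m3 _) h3 k3 (e.symm.trans e')
    rw [h1, k1] at m1
    have : (u + 1) / 3 = (x + 1) / 3 := by exact_mod_cast m1
    omega
  · exact (dv2 ha hb ((Nat.cast_nonneg _).trans f1.le) (m3 _) (m3 _) (m3 _) h3
      (e.symm.trans e')).elim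
  · exact (dv2 hc hd ((Nat.cast_nonneg _).trans g1.le) (m3 _) (m3 _) (m3 _) k3
      (e'.symm.trans e)).elim
  · have g5 : 0 < g := (Nat.cast_nonneg _).trans_lt g1
    obtain ⟨m1, m2⟩ := dv1 g5.le ((Nat.cast_nonneg _).trans f1.le) (m3 _) (m3 _) (e.symm.trans e')
    have m4 := m2.resolve_right g5.ne'
    subst m1
    have a1 : (x1 + 1) / 3 < (x2 + 1) / 3 + 1 := by exact_mod_cast g1.trans f2
    have a2 : (x2 + 1) / 3 < (x1 + 1) / 3 + 1 := by exact_mod_cast f1.trans g2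
    omega

theorem apexA_isApex {t : ℕ} (ht : 0 < t) : IsApex (apexA t) := by
  have hz : ∀ v : {v : Fin t | v ≠ ⟨0, ht⟩}, ((v : Fin t) : ℕ) ≠ 0 :=
    fun v h => v.2 (Fin.ext h)
  have hi : ∀ v w : {v : Fin t | v ≠ ⟨0, ht⟩}, ((v : Fin t) : ℕ) = ((w : Fin t) : ℕ) → v = w :=
    fun v w h => Subtype.ext (Fin.ext h)
  have hvert : ∀ u v w : {v : Fin t | v ≠ ⟨0, ht⟩}, AAdj (u : Fin t) (v : Fin t) →
      ps (w : Fin t) ∈ segment ℝ (ps (u : Fin t)) (ps (v : Fin t)) → w = u ∨ w = v := by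
    intro u v w h hw
    rcases on_edge (hz u) (hz v) h hw with k | k | k
    · exact Or.inl (hi _ _ (ps_inj (hz _) (hz _) k))
    · exact Or.inr (hi _ _ (ps_inj (hz _) (hz _) k))
    · exact (inner_ne k).elim
  refine ⟨⟨0, ht⟩, fun v => ps (v : Fin t), fun v w e => hi _ _ (ps_inj (hz v) (hz w) e),
    hvert, ?_⟩
  intro u v x y h h' hne q k1 k2
  rcases on_edge (hz u) (hz v) h k1 with m | m | m
  · exact ⟨u, Or.inl rfl, hvert x y u h' (m ▸ k2), m⟩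
  · exact ⟨v, Or.inr rfl, hvert x y v h' (m ▸ k2), m⟩
  · rcases on_edge (hz x) (hz y) h' k2 with m' | m' | m'
    · rw [m'] at m; exact (inner_ne m).elim
    · rw [m'] at m; exact (inner_ne m).elim
    · exfalso
      apply hne
      rw [Sym2.eq_iff]
      rcases inner_eq (hz u) (hz v) (hz x) (hz y) m m' with ⟨a, b⟩ | ⟨a, b⟩
      · exact Or.inl ⟨hi _ _ a, hi _ _ b⟩
      · exact Or.inr ⟨hi _ _ a, hi _ _ b⟩

end Pool.Agent.H795Z.GM
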