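import Mathlib

/-! Small combinatorial lemmas: intervals, directed cuts, pigeonhole. -/

set_option autoImplicit false

namespace Pool.Agent.H795Z.GM

theorem greedy {ι α : Type} [DecidableEq ι] [LinearOrder α] (lo hi : ι → α) (F : Finset ι)
    (h : ∀ i ∈ F, lo i ≤ hi i) :
    ∃ D : Finset ι, D ⊆ F ∧ (∀ i ∈ D, ∀ j ∈ D, i ≠ j → hi i < lo j ∨ hi j < lo i) ∧
      ∃ C : Finset α, C.card ≤ D.card ∧ ∀ i ∈ F, ∃ c ∈ C, lo i ≤ c ∧ c ≤ hi i := by
  induction F using Finset.strongInduction with
  | H F ih =>
    rcases F.eq_empty_or_nonempty with rfl | hne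
    · exact ⟨∅, subset_rfl, by simp, ∅, le_rfl, by simp⟩
    · obtain ⟨m, hm, hmin⟩ := F.exists_min_image hi hne
      have hss : F.filter (fun i => hi m < lo i) ⊂ F := by
        rw [Finset.ssubset_iff_of_subset (Finset.filter_subset _ _)]
        exact ⟨m, hm, by simp [hm, h m hm]⟩
      obtain ⟨D, hD1, hD2, C, hC1, hC2⟩ := ih _ hss (fun i hi => h i (Finset.mem_filter.1 hi).1)
      have hmD : m ∉ D := fun k => by
        have := (Finset.mem_filter.1 (hD1 k)).2
        exact absurd (h m hm) (not_le.2 this)
      refine ⟨insert m D, ?_, ?_, insert (hi m) C, ?_, ?_⟩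
      · exact Finset.insert_subset hm (hD1.trans (Finset.filter_subset _ _))
      · intro i hi' j hj hij
        rcases Finset.mem_insert.1 hi' with k1 | k1 <;> rcases Finset.mem_insert.1 hj with k2 | k2
        · exact absurd (k1.trans k2.symm) hij
        · exact Or.inl (k1 ▸ (Finset.mem_filter.1 (hD1 k2)).2)
        · exact Or.inr (k2 ▸ (Finset.mem_filter.1 (hD1 k1)).2)
        · exact hD2 i k1 j k2 hij
      · rw [Finset.card_insert_of_notMem hmD]
        exact (Finset.card_insert_le _ _).trans (by omega)
      · intro i hi'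
        by_cases k : hi m < lo i
        · obtain ⟨c, hc, k⟩ := hC2 i (Finset.mem_filter.2 ⟨hi', k⟩)
          exact ⟨c, Finset.mem_insert_of_mem hc, k⟩
        · exact ⟨hi m, Finset.mem_insert_self _ _, not_lt.1 k, hmin i hi'⟩

theorem dicut {ι : Type} (J : Finset ι) (K : ℕ) (f g : ι → ℕ) (hf : ∀ i ∈ J, f i < K)
    (hg : ∀ i ∈ J, g i < K) (hfg : ∀ i ∈ J, f i ≠ g i) :
    ∃ Z : ℕ → Bool, J.card ≤ 4 * (J.filter (fun i => Z (f i) = false ∧ Z (g i) = true)).card := by
  classical
  let ext : (Fin K → Bool) → ℕ → Bool := fun χ m => if h : m < K then χ ⟨m, h⟩ else false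
  have key : ∀ i ∈ J, (Finset.univ : Finset (Fin K → Bool)).card ≤
      4 * (Finset.univ.filter (fun χ : Fin K → Bool =>
        ext χ (f i) = false ∧ ext χ (g i) = true)).card := by
    intro i hi
    let a : Fin K := ⟨f i, hf i hi⟩
    let b : Fin K := ⟨g i, hg i hi⟩
    have hab : a ≠ b := fun h => hfg i hi (congrArg Fin.val h)
    let φ : (Fin K → Bool) → (Fin K → Bool) := fun χ => Function.update (Function.update χ a false) b true
    refine (Finset.card_le_mul_card_image (f := φ) Finset.univ 4 ?_).trans
      (Nat.mul_le_mul_left _ (Finset.card_le_card ?_))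
    · intro ψ _
      have : (Finset.univ.filter (fun χ => φ χ = ψ)).card ≤ (Finset.univ : Finset (Bool × Bool)).card := by
        refine Finset.card_le_card_of_injOn (fun χ => (χ a, χ b)) (fun _ _ => by simp) ?_
        intro χ h1 χ' h2 e
        simp only [Finset.coe_filter, Finset.mem_univ, true_and, Set.mem_ofPred_eq] at h1 h2
        simp only [Prod.mk.injEq] at e
        funext m
        by_cases k1 : m = a
        · rw [k1, e.1]
        · by_cases k2 : m = b
          · rw [k2, e.2]
          · have := congrFun (h1.trans h2.symm) m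
            simpa [φ, Function.update_of_ne k1, Function.update_of_ne k2] using this
      simpa using this
    · intro ψ hψ
      obtain ⟨χ, _, rfl⟩ := Finset.mem_image.1 hψ
      simp only [Finset.mem_filter, Finset.mem_univ, true_and, ext, dif_pos (hf i hi),
        dif_pos (hg i hi)]
      constructor
      · show φ χ a = false
        simp [φ, Function.update_of_ne hab]
      · show φ χ b = true
        simp [φ]
  have h1 : ∑ _χ : Fin K → Bool, J.card ≤ ∑ χ : Fin K → Bool,
      4 * (J.filter (fun i => ext χ (f i) = false ∧ ext χ (g i) = true)).card := by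
    rw [← Finset.mul_sum]
    simp only [Finset.card_filter]
    rw [Finset.sum_comm, Finset.mul_sum, Finset.sum_const, smul_eq_mul, mul_comm, ← smul_eq_mul,
      ← Finset.sum_const]
    refine Finset.sum_le_sum fun i hi => ?_
    rw [← Finset.card_filter]
    exact key i hi
  obtain ⟨χ, _, h⟩ := Finset.exists_le_of_sum_le Finset.univ_nonempty h1
  exact ⟨ext χ, h⟩

theorem half {ι : Type} (J : Finset ι) (p q : ι → Prop) [DecidablePred p] [DecidablePred q]
    (h : ∀ i ∈ J, p i ∨ q i) :
    J.card ≤ 2 * (J.filter p).card ∨ J.card ≤ 2 * (J.filter q).card := by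
  classical
  have h1 : J ⊆ J.filter p ∪ J.filter q := by
    intro i hi
    rcases h i hi with k | k
    · exact Finset.mem_union_left _ (Finset.mem_filter.2 ⟨hi, k⟩)
    · exact Finset.mem_union_right _ (Finset.mem_filter.2 ⟨hi, k⟩)
  have h2 := (Finset.card_le_card h1).trans (Finset.card_union_le _ _)
  omega

end Pool.Agent.H795Z.GM
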