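import Pool.Agent.H795Z.GM.Defs

/-! Connectivity inside a set, for a relation. -/

set_option autoImplicit false

namespace Pool.Agent.H795Z.GM

variable {V : Type}

/-- `x` and `y` are joined by an `R`-path inside `S`. -/
def Conn (R : V → V → Prop) (S : Set V) (x y : V) : Prop :=
  Relation.ReflTransGen (fun a b => a ∈ S ∧ b ∈ S ∧ R a b) x y

namespace Conn

variable {R : V → V → Prop} {S T : Set V} {x y z : V}

theorem refl (x : V) : Conn R S x x := Relation.ReflTransGen.refl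

theorem trans (h : Conn R S x y) (k : Conn R S y z) : Conn R S x z :=
  Relation.ReflTransGen.trans h k

theorem step (hx : x ∈ S) (hy : y ∈ S) (h : R x y) : Conn R S x y :=
  Relation.ReflTransGen.single ⟨hx, hy, h⟩

theorem mono' {R' : V → V → Prop} (h : Conn R S x y) (hST : S ⊆ T)
    (hR : ∀ a ∈ S, ∀ b ∈ S, R a b → R' a b) : Conn R' T x y := by
  induction h with
  | refl => exact refl _
  | tail _ k ih => exact ih.trans (step (hST k.1) (hST k.2.1) (hR _ k.1 _ k.2.1 k.2.2))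

theorem mono (h : Conn R S x y) (hST : S ⊆ T) : Conn R T x y :=
  h.mono' hST (fun _ _ _ _ k => k)

theorem symm (hR : ∀ a b, R a b → R b a) (h : Conn R S x y) : Conn R S y x := by
  induction h with
  | refl => exact refl _
  | tail _ k ih => exact (step k.2.1 k.1 (hR _ _ k.2.2)).trans ih

theorem mem_right (h : Conn R S x y) (hx : x ∈ S) : y ∈ S := by
  induction h with
  | refl => exact hx
  | tail _ k _ => exact k.2.1

theorem map {V' : Type} {R' : V' → V' → Prop} {S' : Set V'} (f : V → V')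
    (hf : ∀ a ∈ S, f a ∈ S') (hR : ∀ a ∈ S, ∀ b ∈ S, R a b → R' (f a) (f b))
    (h : Conn R S x y) : Conn R' S' (f x) (f y) := by
  induction h with
  | refl => exact refl _
  | tail _ k ih => exact ih.trans (step (hf _ k.1) (hf _ k.2.1) (hR _ k.1 _ k.2.1 k.2.2))

/-- a monotone chain of points -/
theorem chain (f : ℕ → V) (a b : ℕ) (hab : a ≤ b) (hS : ∀ i, a ≤ i → i ≤ b → f i ∈ S)
    (hR : ∀ i, a ≤ i → i < b → R (f i) (f (i + 1))) : Conn R S (f a) (f b) := by
  induction b, hab using Nat.le_induction with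
  | base => exact refl _
  | succ b hab ih =>
    exact (ih (fun i h1 h2 => hS i h1 (by omega)) (fun i h1 h2 => hR i h1 (by omega))).trans
      (step (hS b hab (by omega)) (hS (b + 1) (by omega) le_rfl) (hR b hab (by omega)))

end Conn

/-- `S` is nonempty and connected. -/
def CSet (R : V → V → Prop) (S : Set V) : Prop := ∃ r ∈ S, ∀ x ∈ S, Conn R S r x

theorem CSet.conn {R : V → V → Prop} (hR : ∀ a b, R a b → R b a) {S : Set V} (h : CSet R S)
    {x y : V} (hx : x ∈ S) (hy : y ∈ S) : Conn R S x y := by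
  obtain ⟨r, _, k⟩ := h
  exact ((k x hx).symm hR).trans (k y hy)

theorem connected_iff_cset (G : SimpleGraph V) (S : Set V) :
    (G.induce S).Connected ↔ CSet G.Adj S := by
  constructor
  · intro h
    obtain ⟨⟨r, hr⟩⟩ := h.nonempty
    refine ⟨r, hr, fun x hx => ?_⟩
    have h1 := (SimpleGraph.reachable_iff_reflTransGen _ _).1 (h.preconnected ⟨r, hr⟩ ⟨x, hx⟩)
    have h2 : ∀ (a b : S), Relation.ReflTransGen (G.induce S).Adj a b → Conn G.Adj S a b := by
      intro a b k
      induction k with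
      | refl => exact Conn.refl _
      | tail _ k ih => exact ih.trans (Conn.step (Subtype.prop _) (Subtype.prop _) k)
    exact h2 _ _ h1
  · rintro ⟨r, hr, h⟩
    have h2 : ∀ x (hx : x ∈ S), (G.induce S).Reachable ⟨r, hr⟩ ⟨x, hx⟩ := by
      intro x hx
      have k := h x hx
      induction k with
      | refl => exact SimpleGraph.Reachable.refl _
      | tail k0 k ih =>
        exact (ih k.1).trans (SimpleGraph.Adj.reachable (G := G.induce S)
          (u := ⟨_, k.1⟩) (v := ⟨_, hx⟩) k.2.2)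
    have : Nonempty S := ⟨⟨r, hr⟩⟩
    exact ⟨fun a b => (h2 a.1 a.2).symm.trans (h2 b.1 b.2)⟩

/-- Minor models for relations. -/
def RMinor {W : Type} (H : W → W → Prop) (R : V → V → Prop) : Prop :=
  ∃ B : W → Set V, (∀ w, CSet R (B w)) ∧ (∀ w w', w ≠ w' → Disjoint (B w) (B w')) ∧
    ∀ w w', H w w' → ∃ x ∈ B w, ∃ y ∈ B w', R x y

theorem isMinor_iff {W : Type} (H : SimpleGraph W) (G : SimpleGraph V) :
    IsMinor H G ↔ RMinor H.Adj G.Adj := by
  unfold IsMinor RMinor
  simp only [connected_iff_cset]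

theorem RMinor.trans {U W : Type} {K : U → U → Prop} {H : W → W → Prop} {R : V → V → Prop}
    (hR : ∀ a b, R a b → R b a) (h1 : RMinor K H) (h2 : RMinor H R) : RMinor K R := by
  obtain ⟨B, hB1, hB2, hB3⟩ := h1
  obtain ⟨C, hC1, hC2, hC3⟩ := h2
  refine ⟨fun u => ⋃ w ∈ B u, C w, fun u => ?_, fun u u' huu => ?_, fun u u' huu => ?_⟩
  · obtain ⟨r, hr, hr2⟩ := hB1 u
    obtain ⟨ρ, hρ, _⟩ := hC1 r
    have key : ∀ w, Conn H (B u) r w → ∀ x ∈ C w, Conn R (⋃ w ∈ B u, C w) ρ x := by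
      intro w k
      induction k with
      | refl =>
        intro x hx
        exact ((hC1 r).conn hR hρ hx).mono (Set.subset_biUnion_of_mem (u := C) hr)
      | @tail a b _ k ih =>
        intro x hx
        obtain ⟨p, hp, q, hq, hpq⟩ := hC3 a b k.2.2
        refine (ih p hp).trans ((Conn.step ?_ ?_ hpq).trans
          (((hC1 b).conn hR hq hx).mono (Set.subset_biUnion_of_mem (u := C) k.2.1)))
        · exact Set.mem_biUnion k.1 hp
        · exact Set.mem_biUnion k.2.1 hq
    refine ⟨ρ, Set.mem_biUnion hr hρ, fun x hx => ?_⟩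
    obtain ⟨w, hw, hx⟩ := Set.mem_iUnion₂.1 hx
    exact key w (hr2 w hw) x hx
  · rw [Set.disjoint_left]
    intro x hx hx'
    obtain ⟨w, hw, hx⟩ := Set.mem_iUnion₂.1 hx
    obtain ⟨w', hw', hx'⟩ := Set.mem_iUnion₂.1 hx'
    have hne : w ≠ w' := by
      rintro rfl
      exact Set.disjoint_left.1 (hB2 u u' huu) hw hw'
    exact Set.disjoint_left.1 (hC2 w w' hne) hx hx'
  · obtain ⟨w, hw, w', hw', h⟩ := hB3 u u' huu
    obtain ⟨x, hx, y, hy, h⟩ := hC3 w w' h
    exact ⟨x, Set.mem_biUnion hw hx, y, Set.mem_biUnion hw' hy, h⟩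

/-- grid adjacency on `ℕ × ℕ` -/
def GAdj (p q : ℕ × ℕ) : Prop :=
  (p.2 = q.2 ∧ (p.1 + 1 = q.1 ∨ q.1 + 1 = p.1)) ∨ (p.1 = q.1 ∧ (p.2 + 1 = q.2 ∨ q.2 + 1 = p.2))

theorem GAdj.symm {p q : ℕ × ℕ} (h : GAdj p q) : GAdj q p := by
  unfold GAdj at *; omega

theorem gadj_symm (p q : ℕ × ℕ) (h : GAdj p q) : GAdj q p := h.symm

theorem conn_row {S : Set (ℕ × ℕ)} (y a b : ℕ) (h : ∀ i, min a b ≤ i → i ≤ max a b → (i, y) ∈ S) :
    Conn GAdj S (a, y) (b, y) := by
  rcases le_total a b with hab | hab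
  · exact Conn.chain (fun i => (i, y)) a b hab (fun i h1 h2 => h i (by omega) (by omega))
      (fun i _ _ => Or.inl ⟨rfl, Or.inl rfl⟩)
  · exact (Conn.chain (fun i => (i, y)) b a hab (fun i h1 h2 => h i (by omega) (by omega))
      (fun i _ _ => Or.inl ⟨rfl, Or.inl rfl⟩)).symm gadj_symm

theorem conn_col {S : Set (ℕ × ℕ)} (x a b : ℕ) (h : ∀ i, min a b ≤ i → i ≤ max a b → (x, i) ∈ S) :
    Conn GAdj S (x, a) (x, b) := by
  rcases le_total a b with hab | hab
  · exact Conn.chain (fun i => (x, i)) a b hab (fun i h1 h2 => h i (by omega) (by omega))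
      (fun i _ _ => Or.inr ⟨rfl, Or.inl rfl⟩)
  · exact (Conn.chain (fun i => (x, i)) b a hab (fun i h1 h2 => h i (by omega) (by omega))
      (fun i _ _ => Or.inr ⟨rfl, Or.inl rfl⟩)).symm gadj_symm

end Pool.Agent.H795Z.GM
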