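import Pool.Agent.H795Z.GM.Select

/-! Contracting the branch sets of the grid minor. -/

set_option autoImplicit false

namespace Pool.Agent.H795Z.GM

theorem exists_cover {V U : Type} [Finite V] [Nonempty U] {G : SimpleGraph V} (hG : G.Preconnected)
    {H : U → U → Prop} (h : RMinor H G.Adj) :
    ∃ B : U → Set V, (∀ w, CSet G.Adj (B w)) ∧ (∀ w w', w ≠ w' → Disjoint (B w) (B w')) ∧
      (∀ w w', H w w' → ∃ x ∈ B w, ∃ y ∈ B w', G.Adj x y) ∧ ∀ v, ∃ w, v ∈ B w := by
  classical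
  obtain ⟨B, h1, h2, h3⟩ := h
  induction hk : (⋃ w, B w)ᶜ.ncard using Nat.strong_induction_on generalizing B with
  | _ k ih =>
    by_cases hc : ∀ v, ∃ w, v ∈ B w
    · exact ⟨B, h1, h2, h3, hc⟩
    · push Not at hc
      obtain ⟨v, hv⟩ := hc
      obtain ⟨r, hr, _⟩ := h1 (Classical.arbitrary U)
      have hex : ∃ w, ∃ x ∈ B w, ∃ y, (∀ w', y ∉ B w') ∧ G.Adj x y := by
        by_contra k
        push Not at k
        have key : ∀ z, Relation.ReflTransGen G.Adj r z → ∃ w, z ∈ B w := by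
          intro z hz
          induction hz with
          | refl => exact ⟨_, hr⟩
          | tail _ e ih =>
            obtain ⟨w, hw⟩ := ih
            by_contra k2
            push Not at k2
            exact k w _ hw _ k2 e
        obtain ⟨w, hw⟩ := key v ((SimpleGraph.reachable_iff_reflTransGen _ _).1 (hG r v))
        exact hv w hw
      obtain ⟨w, x, hx, y, hy, hxy⟩ := hex
      let B' : U → Set V := fun u => if u = w then insert y (B u) else B u
      have hsub : ∀ u, B u ⊆ B' u := fun u => by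
        simp only [B']; split_ifs
        · exact Set.subset_insert _ _
        · exact subset_rfl
      have hmem : ∀ u z, z ∈ B' u → z ∈ B u ∨ (u = w ∧ z = y) := fun u z hz => by
        simp only [B'] at hz; split_ifs at hz with e
        · rcases hz with hz | hz
          · exact Or.inr ⟨e, hz⟩
          · exact Or.inl hz
        · exact Or.inl hz
      have hyw : y ∈ B' w := by simp [B']
      refine ih _ ?_ B' ?_ ?_ ?_ rfl
      · rw [← hk]
        apply Set.ncard_lt_ncard _ (Set.toFinite _)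
        rw [Set.ssubset_iff_of_subset (Set.compl_subset_compl.2 (Set.iUnion_mono hsub))]
        exact ⟨y, by simpa using hy, fun k => k (Set.mem_iUnion.2 ⟨w, hyw⟩)⟩
      · intro u
        obtain ⟨ρ, hρ, k⟩ := h1 u
        refine ⟨ρ, hsub u hρ, fun z hz => ?_⟩
        rcases hmem u z hz with hz | ⟨rfl, rfl⟩
        · exact (k z hz).mono (hsub u)
        · exact ((k x hx).mono (hsub u)).trans (Conn.step (hsub u hx) hyw hxy)
      · intro u u' huu
        rw [Set.disjoint_left]
        intro z hz hz'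
        rcases hmem u z hz with a | ⟨a, rfl⟩ <;> rcases hmem u' _ hz' with b | ⟨b, b'⟩
        · exact Set.disjoint_left.1 (h2 u u' huu) a b
        · exact hy u (b' ▸ a)
        · exact hy u' b
        · exact huu (a.trans b.symm)
      · intro u u' huu
        obtain ⟨p, hp, q, hq, e⟩ := h3 u u' huu
        exact ⟨p, hsub u hp, q, hsub u' hq, e⟩

theorem RMinor.pull {W V V' : Type} {H : W → W → Prop} (hH : ∀ w, ∃ w', H w w')
    {R' : V' → V' → Prop} (e : V' → V) (he : Function.Injective e)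
    (h : RMinor H (fun p q => ∃ p' q', p = e p' ∧ q = e q' ∧ R' p' q')) : RMinor H R' := by
  obtain ⟨B, h1, h2, h3⟩ := h
  refine ⟨fun w => e ⁻¹' B w, fun w => ?_, fun w w' hw => (h2 w w' hw).preimage e,
    fun w w' hw => ?_⟩
  · obtain ⟨r, hr, k⟩ := h1 w
    have hr' : ∃ r', r = e r' := by
      obtain ⟨w', hw⟩ := hH w
      obtain ⟨x, hx, y, _, p', q', e1, _, _⟩ := h3 w w' hw
      rcases (k x hx).cases_head with e2 | ⟨c, ⟨_, _, p'', _, e3, _⟩, _⟩
      · exact ⟨p', e2.trans e1⟩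
      · exact ⟨p'', e3⟩
    obtain ⟨r', rfl⟩ := hr'
    refine ⟨r', hr, fun x hx => ?_⟩
    have key : ∀ z, Conn (fun p q => ∃ p' q', p = e p' ∧ q = e q' ∧ R' p' q') (B w) (e r') z →
        ∀ z', z = e z' → Conn R' (e ⁻¹' B w) r' z' := by
      intro z hz
      induction hz with
      | refl => intro z' e1; rw [he e1]; exact Conn.refl _
      | tail _ k ih =>
        intro z' e1
        obtain ⟨k1, k2, p', q', rfl, rfl, k3⟩ := k
        rw [← he e1]
        exact (ih p' rfl).trans (Conn.step k1 k2 k3)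
    exact key _ (k _ hx) x rfl
  · obtain ⟨_, hx, _, hy, p', q', rfl, rfl, k⟩ := h3 w w' hw
    exact ⟨p', hx, q', hy, k⟩

theorem graph_minor {W V : Type} [Finite V] [Nonempty W] {P : W → W → Prop} {N : ℕ}
    (tp : TwoPage P N) (G : SimpleGraph V) {r n : ℕ} (hr : G.radius ≤ (r : ℕ∞))
    (hg : IsMinor (grid n) G) (s : ℕ) (hs : 8 * (12 * N + 32 * s + 40) + 1 ≤ s * s)
    (hn : 4 * (s * s) + 4 * s + s * (2 * r + 1 + 4 * s) ≤ n) : RMinor (apexRel P) G.Adj := by
  classical
  have hn0 : 0 < n := by omega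
  have : Nonempty (Fin n × Fin n) := ⟨(⟨0, hn0⟩, ⟨0, hn0⟩)⟩
  have hV : Nonempty V := by
    by_contra k
    rw [not_nonempty_iff] at k
    rw [SimpleGraph.radius_eq_top_of_isEmpty] at hr
    exact absurd hr (by simp)
  obtain ⟨α, hα⟩ := G.exists_eccent_eq_radius
  have hwalk : ∀ v, ∃ p : G.Walk v α, p.length ≤ r := by
    intro v
    have h1 : G.edist α v ≤ r := (SimpleGraph.edist_le_eccent.trans hα.le).trans hr
    have h2 : G.edist α v ≠ ⊤ := fun k => by rw [k] at h1; exact absurd h1 (by simp)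
    obtain ⟨p, hp⟩ := SimpleGraph.exists_walk_of_edist_ne_top h2
    refine ⟨p.reverse, ?_⟩
    rw [SimpleGraph.Walk.length_reverse]
    rw [← hp] at h1
    exact_mod_cast h1
  have hpre : G.Preconnected := fun u v => by
    obtain ⟨p, _⟩ := hwalk u
    obtain ⟨q, _⟩ := hwalk v
    exact p.reachable.trans q.reachable.symm
  obtain ⟨B, h1, h2, h3, h4⟩ := exists_cover hpre ((isMinor_iff _ _).1 hg)
  choose π hπ using h4
  have hπ2 : ∀ p v, v ∈ B p → π v = p := fun p v hv => by
    by_contra k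
    exact Set.disjoint_left.1 (h2 _ _ k) (hπ v) hv
  let Rf : Fin n × Fin n → Fin n × Fin n → Prop := fun p q => ∃ x ∈ B p, ∃ y ∈ B q, G.Adj x y
  let e : Fin n × Fin n → ℕ × ℕ := fun p => (p.1, p.2)
  have he : Function.Injective e := fun p q h =>
    Prod.ext (Fin.ext (congrArg Prod.fst h)) (Fin.ext (show (e p).2 = (e q).2 from congrArg Prod.snd h))
  refine RMinor.trans (H := Rf) (fun _ _ h => h.symm) ?_ ⟨B, h1, h2, fun _ _ h => h⟩
  refine RMinor.pull ?_ e he (host_minor ?_ (n := n) ?_ tp (r := r) (α := e (π α)) ?_ s hs hn)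
  · rintro (_ | u)
    · exact ⟨some (Classical.arbitrary W), trivial⟩
    · exact ⟨none, trivial⟩
  · rintro _ _ ⟨p, q, rfl, rfl, x, hx, y, hy, h⟩
    exact ⟨q, p, rfl, rfl, y, hy, x, hx, h.symm⟩
  · intro p q k1 k2 k3 k4 k5
    refine ⟨(⟨p.1, k1⟩, ⟨p.2, k2⟩), (⟨q.1, k3⟩, ⟨q.2, k4⟩), rfl, rfl, h3 _ _ ?_⟩
    show |(p.1 : ℤ) - q.1| + |(p.2 : ℤ) - q.2| = 1
    rcases k5 with ⟨a, b | b⟩ | ⟨a, b | b⟩ <;> rw [a, ← b] <;> simp
  · intro p k1 k2
    obtain ⟨v, hv, _⟩ := h1 (⟨p.1, k1⟩, ⟨p.2, k2⟩)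
    obtain ⟨w, hw⟩ := hwalk v
    refine ⟨fun i => e (π (w.getVert i)), w.length, hw, ?_, ?_, ?_, ?_⟩
    · simp only [SimpleGraph.Walk.getVert_zero, hπ2 _ _ hv, e]
    · simp only [SimpleGraph.Walk.getVert_length]
    · intro i hi
      exact Or.inr ⟨_, _, rfl, rfl, _, hπ _, _, hπ _, w.adj_getVert_succ hi⟩
    · intro i
      exact ⟨(π _).1.2, (π _).2.2⟩

end Pool.Agent.H795Z.GM
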