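import Pool.Agent.H795Z.GM.Hooks
import Pool.Agent.H795Z.GM.Comb

/-! From jumps to terminals and islands. -/

set_option autoImplicit false

namespace Pool.Agent.H795Z.GM

/-- The version of `hooks` for terminals indexed by cells. -/
theorem hooks_cells {W : Type} {R : ℕ × ℕ → ℕ × ℕ → Prop} (hR : ∀ a b, R a b → R b a) {n : ℕ}
    (hb : HasBox R n) {P : W → W → Prop} {N : ℕ} (tp : TwoPage P N) {k : ℕ}
    (D : Finset (ℕ × ℕ)) (hM : N + 2 * k ≤ D.card) (hM0 : 0 < D.card) (κ : ℕ → ℕ)
    (s a b μ : ℕ)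
    (hκ : ∀ j j', j < j' → κ j + 2 * s ≤ κ j') (hκn : κ s + 2 * s ≤ n)
    (hμa : μ ≤ a) (hbn : b + μ ≤ n) (hMμ : D.card ≤ μ)
    (hD : ∀ c ∈ D, c.1 < s ∧ c.2 < s) (col : ℕ × ℕ → ℕ)
    (hcol : ∀ c ∈ D, a ≤ col c ∧ col c < b)
    (hinj : ∀ c ∈ D, ∀ d ∈ D, col c = col d → c.2 = d.2 → c = d)
    (I : ℕ → Set (ℕ × ℕ)) (l : ℕ × ℕ → ℕ) (hl : ∀ c ∈ D, l c < k)
    (hI : ∀ c ∈ D, CSet R (I (l c)))
    (hIA : ∀ c ∈ D, ∀ p ∈ I (l c), Allowed κ s s a b μ p)
    (hIT : ∀ c ∈ D, ∀ d ∈ D, ∀ y, κ d.2 + 2 * s ≤ y → y < κ (d.2 + 1) → (col d, y) ∉ I (l c))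
    (hadj : ∀ c ∈ D, ∃ y, κ c.2 + 2 * s ≤ y ∧ y < κ (c.2 + 1) ∧ ∃ q ∈ I (l c), R (col c, y) q) :
    RMinor (apexRel P) R := by
  classical
  let τ : ℕ × ℕ → ℕ × ℕ := fun c => (col c, c.2)
  have hτ : Set.InjOn τ D := fun c hc d hd h =>
    hinj c hc d hd (congrArg Prod.fst h) (show (τ c).2 = (τ d).2 from congrArg Prod.snd h)
  have hc : (D.image τ).card = D.card := Finset.card_image_of_injOn hτ
  have hpre : ∀ t ∈ D.image τ, ∃ c ∈ D, τ c = t ∧ Function.invFunOn τ D t = c := by
    intro t ht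
    obtain ⟨c, hc, rfl⟩ := Finset.mem_image.1 ht
    exact ⟨c, hc, rfl, hτ.leftInvOn_invFunOn hc⟩
  refine hooks hR hb tp (D.image τ) (hc ▸ hM) (hc ▸ hM0) κ s s a b μ hκ hκn hμa hbn (hc ▸ hMμ)
    ?_ ?_ I (fun t => l (Function.invFunOn τ D t)) ?_ ?_ ?_ ?_ ?_
  · intro t ht
    obtain ⟨c, hc, rfl, _⟩ := hpre t ht
    exact ⟨(hcol c hc).1, (hcol c hc).2, (hD c hc).2⟩
  · intro j
    have h1 : (D.image τ).filter (fun t => t.2 = j) ⊆
        (Finset.range s).image (fun i => τ (i, j)) := by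
      intro t ht
      obtain ⟨ht, hj⟩ := Finset.mem_filter.1 ht
      obtain ⟨c, hc, rfl, _⟩ := hpre t ht
      refine Finset.mem_image.2 ⟨c.1, Finset.mem_range.2 (hD c hc).1, ?_⟩
      rw [← hj]
    exact (Finset.card_le_card h1).trans (Finset.card_image_le.trans (by simp))
  · intro t ht
    obtain ⟨c, hc, rfl, e⟩ := hpre t ht
    simp only [e]; exact hl c hc
  · intro t ht
    obtain ⟨c, hc, rfl, e⟩ := hpre t ht
    simp only [e]; exact hI c hc
  · intro t ht
    obtain ⟨c, hc, rfl, e⟩ := hpre t ht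
    simp only [e]; exact hIA c hc
  · intro t ht u hu
    obtain ⟨c, hc, rfl, e⟩ := hpre t ht
    obtain ⟨d, hd, rfl, _⟩ := hpre u hu
    simp only [e]; exact hIT c hc d hd
  · intro t ht
    obtain ⟨c, hc, rfl, e⟩ := hpre t ht
    simp only [e]; exact hadj c hc

/-- Many short disjoint jumps: the apex runs along the bands, jumping over the terminals. -/
theorem core_cross {W : Type} {R : ℕ × ℕ → ℕ × ℕ → Prop} (hR : ∀ a b, R a b → R b a) {n : ℕ}
    (hb : HasBox R n) {P : W → W → Prop} {N : ℕ} (tp : TwoPage P N)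
    (D : Finset (ℕ × ℕ)) (s : ℕ) (hM : N + 2 * s ≤ D.card) (hM0 : 0 < D.card) (κ : ℕ → ℕ)
    (a b μ : ℕ)
    (hκ : ∀ j j', j < j' → κ j + 2 * s ≤ κ j') (hκn : κ s + 2 * s ≤ n)
    (hμa : μ ≤ a) (hbn : b + μ ≤ n) (hMμ : D.card ≤ μ)
    (hD : ∀ c ∈ D, c.1 < s ∧ c.2 < s) (u v : ℕ × ℕ → ℕ × ℕ)
    (hu : ∀ c ∈ D, a ≤ (u c).1 ∧ κ c.2 + 2 * s ≤ (u c).2 ∧ (u c).2 < κ (c.2 + 1))
    (hv : ∀ c ∈ D, (v c).1 < b ∧ κ c.2 + 2 * s ≤ (v c).2 ∧ (v c).2 < κ (c.2 + 1))
    (huv : ∀ c ∈ D, (u c).1 + 2 ≤ (v c).1 ∧ R (u c) (v c))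
    (hdis : ∀ c ∈ D, ∀ d ∈ D, c ≠ d → c.2 = d.2 → (v c).1 ≤ (u d).1 ∨ (v d).1 ≤ (u c).1) :
    RMinor (apexRel P) R := by
  have hκ2 : ∀ j j', j ≤ j' → κ j ≤ κ j' := fun j j' h => by
    rcases h.lt_or_eq with h | rfl
    · have := hκ _ _ h; omega
    · exact le_rfl
  let I : ℕ → Set (ℕ × ℕ) := fun j => {p | a ≤ p.1 ∧ p.1 < b ∧ κ j + 2 * s ≤ p.2 ∧ p.2 < κ (j + 1) ∧
    ∀ d ∈ D, d.2 = j → p.1 ≠ (u d).1 + 1}
  have hgap : ∀ c ∈ D, ∀ x, (u c).1 ≤ x → x ≤ (v c).1 → x ≠ (u c).1 + 1 →
      ∀ d ∈ D, d.2 = c.2 → x ≠ (u d).1 + 1 := by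
    intro c hc x h1 h2 h3 d hd e
    by_cases k : c = d
    · exact k ▸ h3
    · have := hdis c hc d hd k e.symm
      have := (huv d hd).1
      omega
  refine hooks_cells hR hb tp D hM hM0 κ s a b μ hκ hκn hμa hbn hMμ hD (fun c => (u c).1 + 1)
    ?_ ?_ I (fun c => c.2) (fun c hc => (hD c hc).2) ?_ ?_ ?_ ?_
  · intro c hc
    have := hu c hc
    have := hv c hc
    have := huv c hc
    constructor <;> omega
  · intro c hc d hd h1 h2
    by_contra k
    have := hdis c hc d hd k h2
    have := huv c hc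
    have := huv d hd
    omega
  · intro c hc
    have h1 := hu c hc
    have h2 := hv c hc
    have h3 := huv c hc
    have h4 := hκ2 (c.2 + 1) s (hD c hc).2
    have hbox : ∀ p ∈ I c.2, p.1 < n ∧ p.2 < n := by
      rintro p ⟨k1, k2, k3, k4, _⟩
      omega
    have hra : ∀ d ∈ D, d.2 = c.2 → a ≠ (u d).1 + 1 := fun d hd _ => by
      have := hu d hd
      omega
    have hvert : ∀ p ∈ I c.2, ∀ q ∈ I c.2, p.1 = q.1 → Conn R (I c.2) p q := by
      rintro ⟨x, y⟩ ⟨k1, k2, k3, k4, k5⟩ ⟨x', y'⟩ ⟨_, _, m3, m4, _⟩ e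
      simp only at e k1 k2 k3 k4 k5 m3 m4
      subst e
      exact Conn.box hb hbox (conn_col _ _ _
        (fun m k6 k7 => ⟨k1, k2, by simp only; omega, by simp only; omega, k5⟩))
    have hroot : (a, (u c).2) ∈ I c.2 := ⟨le_rfl, by simp only; omega, h1.2.1, h1.2.2, hra⟩
    refine ⟨(a, (u c).2), hroot, ?_⟩
    have key : ∀ x : ℕ, ∀ p ∈ I c.2, p.1 = x → Conn R (I c.2) (a, (u c).2) p := by
      intro x
      induction x using Nat.strong_induction_on with
      | _ x ih =>
        intro p hp hx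
        obtain ⟨k1, k2, k3, k4, k5⟩ := hp
        rcases k1.lt_or_eq with k1' | k1'
        · by_cases g : ∀ d ∈ D, d.2 = c.2 → x - 1 ≠ (u d).1 + 1
          · have hq : (x - 1, p.2) ∈ I c.2 := ⟨by simp only; omega, by simp only; omega, k3, k4, g⟩
            refine (ih (x - 1) (by omega) _ hq rfl).trans (Conn.step hq ⟨k1, k2, k3, k4, k5⟩ ?_)
            refine hb _ _ (by simp only; omega) (by simp only; omega) (by omega) (by omega) ?_
            exact Or.inl ⟨rfl, Or.inl (by simp only; omega)⟩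
          · push Not at g
            obtain ⟨d, hd, e1, e2⟩ := g
            have m1 := hu d hd
            have m2 := hv d hd
            have m3 := huv d hd
            rw [e1] at m1 m2
            have hud : u d ∈ I c.2 := ⟨m1.1, by omega, m1.2.1, m1.2.2,
              fun d' hd' e' => hgap d hd _ le_rfl (by omega) (by omega) d' hd' (e'.trans e1.symm)⟩
            have hvd : v d ∈ I c.2 := ⟨by omega, m2.1, m2.2.1, m2.2.2,
              fun d' hd' e' => hgap d hd _ (by omega) le_rfl (by omega) d' hd' (e'.trans e1.symm)⟩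
            have hrow : ∀ m, x ≤ m → m ≤ (v d).1 → (m, (v d).2) ∈ I c.2 := fun m g1 g2 =>
              ⟨by simp only; omega, by simp only; omega, m2.2.1, m2.2.2,
              fun d' hd' e' => hgap d hd _ (by omega) g2 (by omega) d' hd'
                (e'.trans e1.symm)⟩
            refine (ih (u d).1 (by omega) _ hud rfl).trans ((Conn.step hud hvd m3.2).trans ?_)
            have c1 : Conn R (I c.2) ((v d).1, (v d).2) (x, (v d).2) :=
              Conn.box hb hbox (conn_row _ _ _ (fun m g1 g2 => hrow m (by omega) (by omega)))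
            exact c1.trans (hvert _ (hrow x le_rfl (by omega)) _ ⟨k1, k2, k3, k4, k5⟩ hx.symm)
        · exact hvert _ hroot _ ⟨k1, k2, k3, k4, k5⟩ k1'
    exact fun p hp => key _ p hp rfl
  · rintro c hc p ⟨k1, k2, k3, k4, _⟩
    refine Or.inr (Or.inr ⟨k1, k2, fun j _ => ?_⟩)
    rcases le_or_gt j c.2 with h | h
    · have := hκ2 _ _ h
      omega
    · have := hκ2 (c.2 + 1) j h
      omega
  · rintro c hc d hd y h1 h2 ⟨_, _, k3, k4, k5⟩
    simp only at k3 k4 k5
    refine k5 d hd ?_ rfl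
    rcases lt_trichotomy d.2 c.2 with h | h | h
    · have := hκ2 (d.2 + 1) c.2 h
      omega
    · exact h
    · have := hκ2 (c.2 + 1) d.2 h
      omega
  · intro c hc
    have h1 := hu c hc
    have h2 := hv c hc
    have h3 := huv c hc
    have h4 := hκ2 (c.2 + 1) s (hD c hc).2
    refine ⟨(u c).2, h1.2.1, h1.2.2, u c, ⟨h1.1, by omega, h1.2.1, h1.2.2,
      hgap c hc _ le_rfl (by omega) (by omega)⟩, ?_⟩
    refine hb _ _ (by simp only; omega) (by simp only; omega) (by omega) (by omega) ?_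
    exact Or.inl ⟨rfl, Or.inr rfl⟩

theorem core {W : Type} {R : ℕ × ℕ → ℕ × ℕ → Prop} (hR : ∀ a b, R a b → R b a) {n : ℕ}
    (hb : HasBox R n) {P : W → W → Prop} {N : ℕ} (tp : TwoPage P N)
    (J : Finset (ℕ × ℕ)) (s : ℕ) (hM : 12 * N + 32 * s + 40 ≤ J.card) (κ : ℕ → ℕ)
    (a b μ : ℕ)
    (hκ : ∀ j j', j < j' → κ j + 2 * s ≤ κ j') (hκn : κ s + 2 * s ≤ n)
    (hμa : μ ≤ a) (hbn : b + μ ≤ n) (hMμ : J.card ≤ μ)
    (hJ : ∀ c ∈ J, c.1 < s ∧ c.2 < s) (x y : ℕ × ℕ → ℕ × ℕ)
    (hx : ∀ c ∈ J, a ≤ (x c).1 ∧ (x c).1 < b ∧ κ c.2 + 2 * s ≤ (x c).2 ∧ (x c).2 < κ (c.2 + 1))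
    (hxi : ∀ c ∈ J, ∀ d ∈ J, (x c).1 = (x d).1 → c.2 = d.2 → c = d)
    (hy : ∀ c ∈ J, (y c).1 < n ∧ (y c).2 < n ∧ Allowed κ s s a b μ (y c))
    (hxy : ∀ c ∈ J, ((x c).1 + 2 ≤ (y c).1 ∨ (y c).1 + 2 ≤ (x c).1) ∧ R (x c) (y c)) :
    RMinor (apexRel P) R := by
  classical
  have hκ2 : ∀ j j', j ≤ j' → κ j ≤ κ j' := fun j j' h => by
    rcases h.lt_or_eq with h | rfl
    · have := hκ _ _ h; omega
    · exact le_rfl
  let β : ℕ → ℕ := fun r => ((Finset.range (s + 1)).filter (fun j => κ j ≤ r)).card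
  have β_mono : ∀ r r', r ≤ r' → β r ≤ β r' := fun r r' h => Finset.card_le_card (by
    intro j hj
    simp only [Finset.mem_filter] at hj ⊢
    exact ⟨hj.1, hj.2.trans h⟩)
  have β_strict : ∀ r r' j, j ≤ s → r < κ j → κ j ≤ r' → β r < β r' := by
    intro r r' j h1 h2 h3
    apply Finset.card_lt_card
    rw [Finset.ssubset_iff_of_subset]
    · exact ⟨j, by simp [h3]; omega, by simp; omega⟩
    · intro i hi
      simp only [Finset.mem_filter] at hi ⊢
      exact ⟨hi.1, by omega⟩
  have β_le : ∀ r, β r ≤ s + 1 := fun r => (Finset.card_filter_le _ _).trans (by simp)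
  have β_band : ∀ j r r', j < s → κ j ≤ r → r < κ (j + 1) → κ j ≤ r' → r' < κ (j + 1) →
      β r = β r' := by
    intro j r r' _ h1 h2 h3 h4
    simp only [β]
    congr 1
    apply Finset.filter_congr
    intro i _
    rcases le_or_gt i j with h | h
    · have := hκ2 _ _ h
      constructor <;> intro <;> omega
    · have := hκ2 (j + 1) i h
      constructor <;> intro <;> omega
  clear_value β
  let F := J.filter (fun c => a ≤ (y c).1 ∧ (y c).1 < b ∧ β (y c).2 = β (x c).2)
  let lo : ℕ × ℕ → ℕ ×ₗ ℕ := fun c => toLex (β (x c).2, min (x c).1 (y c).1)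
  let hi : ℕ × ℕ → ℕ ×ₗ ℕ := fun c => toLex (β (x c).2, max (x c).1 (y c).1 - 1)
  obtain ⟨D, hD1, hD2, C, hC1, hC2⟩ := greedy lo hi F (by
    intro c hc
    have := (hxy c (Finset.mem_filter.1 hc).1).1
    simp only [lo, hi, Prod.Lex.toLex_le_toLex]
    right
    exact ⟨trivial, by omega⟩)
  have hDJ : D ⊆ J := hD1.trans (Finset.filter_subset _ _)
  by_cases hcase : N + 2 * s + 1 ≤ D.card
  · have hyb : ∀ c ∈ D, a ≤ (y c).1 ∧ (y c).1 < b ∧ κ c.2 + 2 * s ≤ (y c).2 ∧
        (y c).2 < κ (c.2 + 1) := by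
      intro c hc
      obtain ⟨hcJ, h1, h2, h3⟩ := Finset.mem_filter.1 (hD1 hc)
      have h4 := hx c hcJ
      have h5 := hJ c hcJ
      have h6 : κ c.2 ≤ (y c).2 := by
        by_contra k
        have := β_strict (y c).2 (x c).2 c.2 h5.2.le (by omega) (by omega)
        omega
      have h7 : (y c).2 < κ (c.2 + 1) := by
        by_contra k
        have := β_strict (x c).2 (y c).2 (c.2 + 1) h5.2 (by omega) (by omega)
        omega
      rcases (hy c hcJ).2.2 with h | h | ⟨_, _, h⟩
      · omega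
      · omega
      · have := h c.2 h5.2.le
        exact ⟨h1, h2, by omega, h7⟩
    refine core_cross hR hb tp D s (by omega) (by omega) κ a b μ hκ hκn hμa hbn
      ((Finset.card_le_card hDJ).trans hMμ) (fun c hc => hJ c (hDJ hc))
      (fun c => if (x c).1 ≤ (y c).1 then x c else y c)
      (fun c => if (x c).1 ≤ (y c).1 then y c else x c) ?_ ?_ ?_ ?_
    · intro c hc
      have := hyb c hc
      have := hx c (hDJ hc)
      split_ifs <;> omega
    · intro c hc
      have := hyb c hc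
      have := hx c (hDJ hc)
      split_ifs <;> omega
    · intro c hc
      have h := hxy c (hDJ hc)
      split_ifs
      · exact ⟨by omega, h.2⟩
      · exact ⟨by omega, hR _ _ h.2⟩
    · intro c hc d hd hne e
      have h1 := hx c (hDJ hc)
      have h2 := hx d (hDJ hd)
      have h3 := (hxy c (hDJ hc)).1
      have h4 := (hxy d (hDJ hd)).1
      have h5 : β (x c).2 = β (x d).2 :=
        β_band c.2 _ _ (hJ c (hDJ hc)).2 (by omega) (by omega) (by rw [e]; omega) (by rw [e]; omega)
      have h6 := hD2 c hc d hd hne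
      simp only [lo, hi, Prod.Lex.toLex_lt_toLex, h5, lt_irrefl, false_or, true_and] at h6
      split_ifs <;> omega
  · let C' : Finset (ℕ ×ₗ ℕ) := C ∪ (Finset.range (s + 1)).image (fun j => toLex (j, n))
    have hC' : C'.card ≤ N + 3 * s + 1 := by
      have h1 := Finset.card_union_le C ((Finset.range (s + 1)).image (fun j => toLex (j, n)))
      have h2 : ((Finset.range (s + 1)).image (fun j => toLex (j, n))).card ≤ s + 1 :=
        Finset.card_image_le.trans (by simp)
      simp only [C']; omega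
    let cnt : ℕ ×ₗ ℕ → ℕ := fun p => (C'.filter (fun h => h < p)).card
    have cnt_mono : ∀ p q, p ≤ q → cnt p ≤ cnt q := fun p q h => Finset.card_le_card (by
      intro j hj
      simp only [Finset.mem_filter] at hj ⊢
      exact ⟨hj.1, hj.2.trans_le h⟩)
    have cnt_strict : ∀ p q h, h ∈ C' → p ≤ h → h < q → cnt p < cnt q := by
      intro p q h h1 h2 h3
      apply Finset.card_lt_card
      rw [Finset.ssubset_iff_of_subset]
      · exact ⟨h, Finset.mem_filter.2 ⟨h1, h3⟩, fun k => absurd (Finset.mem_filter.1 k).2 (not_lt.2 h2)⟩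
      · intro i hi
        simp only [Finset.mem_filter] at hi ⊢
        exact ⟨hi.1, hi.2.trans_le (h2.trans h3.le)⟩
    have cnt_le : ∀ p, cnt p ≤ N + 3 * s + 1 := fun p => (Finset.card_filter_le _ _).trans hC'
    have cnt_band : ∀ j j' c c', j < j' → j' ≤ s + 1 → c < n →
        cnt (toLex (j, c)) < cnt (toLex (j', c')) := by
      intro j j' c c' h1 h2 h3
      refine cnt_strict _ _ (toLex (j, n)) (Finset.mem_union_right _
        (Finset.mem_image.2 ⟨j, Finset.mem_range.2 (by omega), rfl⟩)) ?_ ?_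
      · rw [Prod.Lex.toLex_le_toLex]; exact Or.inr ⟨rfl, h3.le⟩
      · rw [Prod.Lex.toLex_lt_toLex]; exact Or.inl h1
    have cnt_row : ∀ j c c' m, min c c' ≤ m → m ≤ max c c' →
        cnt (toLex (j, c)) = cnt (toLex (j, c')) → cnt (toLex (j, m)) = cnt (toLex (j, c)) := by
      intro j c c' m h1 h2 h3
      have k : ∀ e e', e ≤ e' → cnt (toLex (j, e)) ≤ cnt (toLex (j, e')) := fun e e' h =>
        cnt_mono _ _ (by rw [Prod.Lex.toLex_le_toLex]; exact Or.inr ⟨rfl, h⟩)
      rcases le_total c c' with h | h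
      · have := k c m (by omega)
        have := k m c' (by omega)
        omega
      · have := k c' m (by omega)
        have := k m c (by omega)
        omega
    have hCC : C ⊆ C' := Finset.subset_union_left
    clear_value cnt C'
    let lab : ℕ × ℕ → ℕ := fun p => if p.1 + μ < a then 0 else if b + μ ≤ p.1 then 1 else
      2 + cnt (toLex (β p.2, p.1))
    have hab : a < b := by
      obtain ⟨c, hc⟩ := Finset.card_pos.1 (show 0 < J.card by omega)
      have := hx c hc
      omega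
    have lab0 : ∀ p : ℕ × ℕ, p.1 + μ < a → lab p = 0 := fun p h => if_pos h
    have lab1 : ∀ p : ℕ × ℕ, b + μ ≤ p.1 → lab p = 1 := fun p h => by
      simp only [lab]; rw [if_neg (by omega), if_pos h]
    have lab2 : ∀ p : ℕ × ℕ, a ≤ p.1 → p.1 < b → lab p = 2 + cnt (toLex (β p.2, p.1)) :=
      fun p h h' => by simp only [lab]; rw [if_neg (by omega), if_neg (by omega)]
    have lab_lt : ∀ p, lab p < N + 3 * s + 4 := fun p => by
      have := cnt_le (toLex (β p.2, p.1))
      simp only [lab]; split_ifs <;> omega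
    clear_value lab
    have hne : ∀ c ∈ J, lab (x c) ≠ lab (y c) := by
      intro c hc
      have h1 := hx c hc
      have h2 := hy c hc
      have h3 := (hxy c hc).1
      rw [lab2 _ h1.1 h1.2.1]
      rcases h2.2.2 with h | h | ⟨k1, k2, _⟩
      · rw [lab0 _ h]; omega
      · rw [lab1 _ h]; omega
      · rw [lab2 _ k1 k2]
        rcases lt_trichotomy (β (y c).2) (β (x c).2) with h | h | h
        · have := cnt_band _ _ (y c).1 (x c).1 h (β_le _) h2.1
          omega
        · obtain ⟨g, g1, g2, g3⟩ := hC2 c (Finset.mem_filter.2 ⟨hc, k1, k2, h⟩)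
          have := cnt_strict _ (toLex (β (x c).2, max (x c).1 (y c).1)) g (hCC g1) g2
            (g3.trans_lt (by rw [Prod.Lex.toLex_lt_toLex]; exact Or.inr ⟨rfl, by simp only; omega⟩))
          simp only [lo] at this
          rw [h]
          rcases h3 with h3 | h3
          · rw [min_eq_left (by omega), max_eq_right (by omega)] at this
            omega
          · rw [min_eq_right (by omega), max_eq_left (by omega)] at this
            omega
        · have := cnt_band _ _ (x c).1 (y c).1 h (β_le _) (by omega)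
          omega
    obtain ⟨Z, hZ⟩ := dicut J (N + 3 * s + 4) (fun c => lab (x c)) (fun c => lab (y c))
      (fun c _ => lab_lt _) (fun c _ => lab_lt _) hne
    set J2 := J.filter (fun c => Z (lab (x c)) = false ∧ Z (lab (y c)) = true) with hJ2
    have hJJ : J2 ⊆ J := Finset.filter_subset _ _
    let I : ℕ → Set (ℕ × ℕ) := fun m => {p | p.1 < n ∧ p.2 < n ∧ Allowed κ s s a b μ p ∧ lab p = m}
    refine hooks_cells hR hb tp (k := N + 3 * s + 4) J2 (by omega) (by omega) κ s a b μ hκ hκn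
      hμa hbn ((Finset.card_le_card hJJ).trans hMμ) (fun c hc => hJ c (hJJ hc)) (fun c => (x c).1)
      (fun c hc => ⟨(hx c (hJJ hc)).1, (hx c (hJJ hc)).2.1⟩)
      (fun c hc d hd => hxi c (hJJ hc) d (hJJ hd)) I (fun c => lab (y c)) (fun c _ => lab_lt _)
      ?_ ?_ ?_ ?_
    · intro c hc
      have h0 := hy c (hJJ hc)
      refine ⟨y c, ⟨h0.1, h0.2.1, h0.2.2, rfl⟩, ?_⟩
      generalize y c = p at h0
      rintro q ⟨q1, q2, q3, q4⟩
      refine Conn.box hb (fun z hz => ⟨hz.1, hz.2.1⟩) ?_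
      obtain ⟨p1, p2, p3⟩ := h0
      obtain ⟨px, py⟩ := p
      obtain ⟨qx, qy⟩ := q
      simp only at p1 p2 q1 q2
      refine Conn.trans (y := (qx, py)) ?_ ?_
      · refine conn_row _ _ _ (fun m m1 m2 => ⟨by simp only; omega, p2, ?_⟩)
        rcases p3 with h | h | ⟨k1, k2, k3⟩ <;> rcases q3 with g | g | ⟨g1, g2, g3⟩
        · simp only at h g
          exact ⟨Or.inl (by simp only; omega), by rw [lab0 _ (by simp only; omega), lab0 _ h]⟩
        · rw [lab0 _ h, lab1 _ g] at q4; omega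
        · rw [lab0 _ h, lab2 _ g1 g2] at q4; omega
        · rw [lab1 _ h, lab0 _ g] at q4; omega
        · simp only at h g
          exact ⟨Or.inr (Or.inl (by simp only; omega)),
            by rw [lab1 _ (by simp only; omega), lab1 _ h]⟩
        · rw [lab1 _ h, lab2 _ g1 g2] at q4; omega
        · rw [lab2 _ k1 k2, lab0 _ g] at q4; omega
        · rw [lab2 _ k1 k2, lab1 _ g] at q4; omega
        · simp only at k1 k2 k3 g1 g2 g3
          refine ⟨Or.inr (Or.inr ⟨by simp only; omega, by simp only; omega, k3⟩), ?_⟩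
          rw [lab2 (px, py) k1 k2, lab2 (qx, qy) g1 g2] at q4
          rw [lab2 (m, py) (by simp only; omega) (by simp only; omega), lab2 (px, py) k1 k2]
          simp only at q4 ⊢
          have e : β qy = β py := by
            rcases lt_trichotomy (β qy) (β py) with h | h | h
            · have := cnt_band _ _ qx px h (β_le _) q1
              omega
            · exact h
            · have := cnt_band _ _ px qx h (β_le _) p1
              omega
          rw [e] at q4
          rw [cnt_row _ px qx m m1 m2 (by omega)]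
      · refine conn_col _ _ _ (fun m m1 m2 => ⟨q1, by simp only; omega, ?_⟩)
        rcases p3 with h | h | ⟨k1, k2, k3⟩ <;> rcases q3 with g | g | ⟨g1, g2, g3⟩
        · exact ⟨Or.inl g, by rw [lab0 _ h]; exact lab0 _ g⟩
        · rw [lab0 _ h, lab1 _ g] at q4; omega
        · rw [lab0 _ h, lab2 _ g1 g2] at q4; omega
        · rw [lab1 _ h, lab0 _ g] at q4; omega
        · exact ⟨Or.inr (Or.inl g), by rw [lab1 _ h]; exact lab1 _ g⟩
        · rw [lab1 _ h, lab2 _ g1 g2] at q4; omega
        · rw [lab2 _ k1 k2, lab0 _ g] at q4; omega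
        · rw [lab2 _ k1 k2, lab1 _ g] at q4; omega
        · simp only at k1 k2 k3 g1 g2 g3
          have q5 := q4
          rw [lab2 (px, py) k1 k2, lab2 (qx, qy) g1 g2] at q4
          simp only at q4
          have e : β qy = β py := by
            rcases lt_trichotomy (β qy) (β py) with h | h | h
            · have := cnt_band _ _ qx px h (β_le _) q1
              omega
            · exact h
            · have := cnt_band _ _ px qx h (β_le _) p1
              omega
          have e2 : β m = β qy := by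
            rcases le_total py qy with h | h
            · have := β_mono py m (by omega)
              have := β_mono m qy (by omega)
              omega
            · have := β_mono qy m (by omega)
              have := β_mono m py (by omega)
              omega
          refine ⟨Or.inr (Or.inr ⟨g1, g2, fun j hj => ?_⟩), ?_⟩
          · by_contra k
            simp only [not_or, not_lt, not_le] at k
            have k4 := k3 j hj
            have g4 := g3 j hj
            rcases le_total py qy with h | h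
            · have := β_strict py qy j hj (by omega) (by omega)
              omega
            · have := β_strict qy py j hj (by omega) (by omega)
              omega
          · rw [← q5, lab2 (qx, m) g1 g2, lab2 (qx, qy) g1 g2]
            simp only [e2]
    · intro c _ p hp
      exact hp.2.2.1
    · rintro c hc d hd r h1 h2 ⟨_, _, _, h3⟩
      have k1 := hx d (hJJ hd)
      have k2 := (Finset.mem_filter.1 hc).2.2
      have k3 := (Finset.mem_filter.1 hd).2.1
      have e : lab ((x d).1, r) = lab (x d) := by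
        rw [lab2 _ k1.1 k1.2.1, lab2 ((x d).1, r) k1.1 k1.2.1]
        simp only
        rw [β_band d.2 r (x d).2 (hJ d (hJJ hd)).2 (by omega) h2 (by omega) (by omega)]
      rw [← h3, e, k3] at k2
      cases k2
    · intro c hc
      have k1 := hx c (hJJ hc)
      have h0 := hy c (hJJ hc)
      exact ⟨(x c).2, k1.2.2.1, k1.2.2.2, y c, ⟨h0.1, h0.2.1, h0.2.2, rfl⟩, (hxy c (hJJ hc)).2⟩

end Pool.Agent.H795Z.GM
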