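import Mathlib

/-!
# Grid minors in apex-minor-free graphs of bounded radius: definitions
-/

set_option autoImplicit false

namespace Pool.Agent.H795Z.GM

/-- `H` is a minor of `G`: the vertices of `H` have pairwise disjoint branch sets in `G`, each
inducing a (nonempty) connected subgraph, and the branch sets of adjacent vertices of `H` are
joined by an edge of `G`. -/
def IsMinor {W V : Type} (H : SimpleGraph W) (G : SimpleGraph V) : Prop :=
  ∃ B : W → Set V, (∀ w, (G.induce (B w)).Connected) ∧
    (∀ w w', w ≠ w' → Disjoint (B w) (B w')) ∧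
    ∀ w w', H.Adj w w' → ∃ x ∈ B w, ∃ y ∈ B w', G.Adj x y

/-- The `n × n` grid: two vertices are adjacent when their `ℓ¹` distance is one. -/
def grid (n : ℕ) : SimpleGraph (Fin n × Fin n) where
  Adj p q := |((p.1 : ℕ) : ℤ) - ((q.1 : ℕ) : ℤ)| + |((p.2 : ℕ) : ℤ) - ((q.2 : ℕ) : ℤ)| = 1
  symm := ⟨fun p q h => by rw [abs_sub_comm, abs_sub_comm ((q.2 : ℕ) : ℤ)]; exact h⟩
  loopless := ⟨fun p h => by simp at h⟩

/-- `G` is planar: it has a crossing-free straight-line drawing in the plane.  The vertices are
distinct points, the closed segment of an edge contains no vertex other than its two ends, and the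
segments of two different edges meet at most in a common end. -/
def Planar {V : Type} (G : SimpleGraph V) : Prop :=
  ∃ p : V → ℝ × ℝ, Function.Injective p ∧
    (∀ u v w, G.Adj u v → p w ∈ segment ℝ (p u) (p v) → w = u ∨ w = v) ∧
    ∀ u v x y, G.Adj u v → G.Adj x y → s(u, v) ≠ s(x, y) →
      ∀ q, q ∈ segment ℝ (p u) (p v) → q ∈ segment ℝ (p x) (p y) →
        ∃ w, (w = u ∨ w = v) ∧ (w = x ∨ w = y) ∧ q = p w

/-- `A` is an apex graph: `A - z` is planar for some vertex `z`. -/
def IsApex {W : Type} (A : SimpleGraph W) : Prop :=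
  ∃ z : W, Planar (A.induce {v | v ≠ z})

/-- The sizes `n` for which there are an apex graph `A` with `t` vertices and a finite
`A`-minor-free graph `G` of radius at most `r` which has the `n × n` grid as a minor. -/
def sizes (t r : ℕ) : Set ℕ :=
  {n | ∃ A : SimpleGraph (Fin t), IsApex A ∧
    ∃ (V : Type) (_ : Finite V) (G : SimpleGraph V),
      G.radius ≤ (r : ℕ∞) ∧ ¬ IsMinor A G ∧ IsMinor (grid n) G}

/-- `N(t, r)`: the largest element of `sizes t r`. -/
noncomputable def N (t r : ℕ) : ℕ := sSup (sizes t r)

end Pool.Agent.H795Z.GM
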