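import Pool.Agent.H795Z.GM.Defs

/-! Straight-line drawings with distinct abscissae. -/

set_option autoImplicit false

namespace Pool.Agent.H795Z.GM

variable {W : Type}

/-- a straight-line drawing whose vertices have distinct abscissae -/
structure Drw (G : SimpleGraph W) (p : W → ℝ × ℝ) : Prop where
  inj : Function.Injective (fun v => (p v).1)
  vert : ∀ u v w, G.Adj u v → p w ∈ segment ℝ (p u) (p v) → w = u ∨ w = v
  edge : ∀ u v x y, G.Adj u v → G.Adj x y → s(u, v) ≠ s(x, y) →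
      ∀ q, q ∈ segment ℝ (p u) (p v) → q ∈ segment ℝ (p x) (p y) →
        ∃ w, (w = u ∨ w = v) ∧ (w = x ∨ w = y) ∧ q = p w

theorem exists_drw [Finite W] {G : SimpleGraph W} (h : Planar G) : ∃ p, Drw G p := by
  obtain ⟨p, h1, h2, h3⟩ := h
  obtain ⟨l, hl⟩ := (Set.finite_range
    (fun e : W × W => ((p e.2).1 - (p e.1).1) / ((p e.1).2 - (p e.2).2))).exists_notMem
  let φ : ℝ → ℝ × ℝ → ℝ × ℝ := fun m q => (q.1 + m * q.2, q.2)
  have hφ : ∀ q, φ (-l) (φ l q) = q := fun q => by ext <;> simp [φ]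
  have hφ' : ∀ q, φ l (φ (-l) q) = q := fun q => by ext <;> simp [φ]
  have hseg : ∀ a b q, q ∈ segment ℝ (φ l a) (φ l b) → φ (-l) q ∈ segment ℝ a b := by
    rintro a b _ ⟨s, t, hs, ht, hst, rfl⟩
    refine ⟨s, t, hs, ht, hst, ?_⟩
    ext
    · simp [φ]; ring
    · simp [φ]
  refine ⟨fun v => φ l (p v), ?_, ?_, ?_⟩
  · intro u v huv
    simp only [φ] at huv
    by_cases e : (p u).2 = (p v).2
    · apply h1
      rw [e] at huv
      exact Prod.ext (by linarith) e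
    · exfalso
      apply hl
      refine ⟨(u, v), ?_⟩
      have : (p u).2 - (p v).2 ≠ 0 := sub_ne_zero.2 e
      simp only
      rw [div_eq_iff this]
      linarith
  · intro u v w huv hw
    have := hseg _ _ _ hw
    rw [hφ] at this
    exact h2 u v w huv this
  · intro u v x y huv hxy hne q k1 k2
    obtain ⟨w, a, b, c⟩ := h3 u v x y huv hxy hne _ (hseg _ _ _ k1) (hseg _ _ _ k2)
    exact ⟨w, a, b, by rw [← c, hφ']⟩

/-- the slope of the segment from `a` to `b` -/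
noncomputable def slp (p : W → ℝ × ℝ) (a b : W) : ℝ := ((p b).2 - (p a).2) / ((p b).1 - (p a).1)

/-- the height of the line through `a` and `b` at the abscissa `ξ` -/
noncomputable def Y (p : W → ℝ × ℝ) (a b : W) (ξ : ℝ) : ℝ := (p a).2 + (ξ - (p a).1) * slp p a b

theorem Y_left (p : W → ℝ × ℝ) (a b : W) : Y p a b (p a).1 = (p a).2 := by simp [Y]

theorem Y_right (p : W → ℝ × ℝ) {a b : W} (h : (p a).1 < (p b).1) : Y p a b (p b).1 = (p b).2 := by
  have : (p b).1 - (p a).1 ≠ 0 := (sub_pos.2 h).ne'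
  simp only [Y, slp]
  field_simp
  ring

theorem Y_mem (p : W → ℝ × ℝ) {a b : W} (h : (p a).1 < (p b).1) {ξ : ℝ} (h1 : (p a).1 ≤ ξ)
    (h2 : ξ ≤ (p b).1) : (ξ, Y p a b ξ) ∈ segment ℝ (p a) (p b) := by
  have h0 : 0 < (p b).1 - (p a).1 := sub_pos.2 h
  refine ⟨((p b).1 - ξ) / ((p b).1 - (p a).1), (ξ - (p a).1) / ((p b).1 - (p a).1),
    div_nonneg (by linarith) h0.le, div_nonneg (by linarith) h0.le, by field_simp; ring, ?_⟩
  ext
  · simp only [Prod.fst_add, Prod.smul_fst, smul_eq_mul]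
    field_simp
    ring
  · simp only [Prod.snd_add, Prod.smul_snd, smul_eq_mul, Y, slp]
    field_simp
    ring

/-- the edge `ab` is somewhere below the edge `cd` -/
def Below (p : W → ℝ × ℝ) (a b c d : W) : Prop :=
  ∃ ξ, (p a).1 ≤ ξ ∧ ξ ≤ (p b).1 ∧ (p c).1 ≤ ξ ∧ ξ ≤ (p d).1 ∧ Y p a b ξ < Y p c d ξ

namespace Drw

variable {G : SimpleGraph W} {p : W → ℝ × ℝ}

theorem off (D : Drw G p) {a b w : W} (h : G.Adj a b) (h1 : (p a).1 < (p w).1)
    (h2 : (p w).1 < (p b).1) : Y p a b (p w).1 ≠ (p w).2 := by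
  intro e
  have := Y_mem p (h1.trans h2) h1.le h2.le
  rw [e] at this
  rcases D.vert a b w h this with rfl | rfl
  · exact lt_irrefl _ h1
  · exact lt_irrefl _ h2

theorem meet (D : Drw G p) {a b c d : W} (h : G.Adj a b) (h' : G.Adj c d)
    (hab : (p a).1 < (p b).1) (hcd : (p c).1 < (p d).1) (hne : ¬ (a = c ∧ b = d)) {ξ : ℝ}
    (h1 : (p a).1 ≤ ξ) (h2 : ξ ≤ (p b).1) (h3 : (p c).1 ≤ ξ) (h4 : ξ ≤ (p d).1)
    (e : Y p a b ξ = Y p c d ξ) : ∃ w, (w = a ∨ w = b) ∧ (w = c ∨ w = d) ∧ ξ = (p w).1 := by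
  have hs : s(a, b) ≠ s(c, d) := by
    intro k
    rw [Sym2.eq_iff] at k
    rcases k with k | ⟨rfl, rfl⟩
    · exact hne k
    · exact lt_asymm hab hcd
  obtain ⟨w, k1, k2, k3⟩ := D.edge a b c d h h' hs _ (Y_mem p hab h1 h2) (e ▸ Y_mem p hcd h3 h4)
  exact ⟨w, k1, k2, congrArg Prod.fst k3⟩

theorem asym (D : Drw G p) {a b c d : W} (h : G.Adj a b) (h' : G.Adj c d)
    (hab : (p a).1 < (p b).1) (hcd : (p c).1 < (p d).1) (k1 : Below p a b c d)
    (k2 : Below p c d a b) : False := by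
  obtain ⟨s, s1, s2, s3, s4, s5⟩ := k1
  obtain ⟨t, t3, t4, t1, t2, t5⟩ := k2
  have hne : ¬ (a = c ∧ b = d) := by
    rintro ⟨rfl, rfl⟩
    exact lt_irrefl _ s5
  have hst : s ≠ t := by
    rintro rfl
    exact lt_asymm s5 t5
  set D1 := Y p c d s - Y p a b s with hD1
  set D2 := Y p a b t - Y p c d t with hD2
  have p1 : 0 < D1 := sub_pos.2 s5
  have p2 : 0 < D2 := sub_pos.2 t5
  set θ := D1 / (D1 + D2) with hθ
  have θ0 : 0 < θ := by positivity
  have θ1 : θ < 1 := by rw [hθ, div_lt_one (by linarith)]; linarith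
  have hθ2 : θ * (D1 + D2) = D1 := by rw [hθ]; field_simp
  have aff : ∀ u v, Y p u v (s + θ * (t - s)) = Y p u v s + θ * (Y p u v t - Y p u v s) := by
    intro u v; simp only [Y]; ring
  have lo : ∀ m, m ≤ s → m ≤ t → m < s + θ * (t - s) := by
    intro m m1 m2
    rcases lt_or_gt_of_ne hst with k | k <;> nlinarith
  have hi : ∀ m, s ≤ m → t ≤ m → s + θ * (t - s) < m := by
    intro m m1 m2
    rcases lt_or_gt_of_ne hst with k | k <;> nlinarith
  obtain ⟨w, k1, _, k3⟩ := D.meet h h' hab hcd hne (lo _ s1 t1).le (hi _ s2 t2).le (lo _ s3 t3).le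
    (hi _ s4 t4).le (by rw [aff, aff]; nlinarith)
  rcases k1 with rfl | rfl
  · exact (lo _ s1 t1).ne' k3
  · exact (hi _ s2 t2).ne k3

theorem tot (D : Drw G p) {a b c d : W} (h : G.Adj a b) (h' : G.Adj c d)
    (hab : (p a).1 < (p b).1) (hcd : (p c).1 < (p d).1) (had : (p a).1 < (p d).1)
    (hcb : (p c).1 < (p b).1) (hne : ¬ (a = c ∧ b = d)) : Below p a b c d ∨ Below p c d a b := by
  obtain ⟨ξ, k1, k2⟩ := exists_between (show max (p a).1 (p c).1 < min (p b).1 (p d).1 by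
    simp [hab, hcd, had, hcb])
  rw [max_lt_iff] at k1
  rw [lt_min_iff] at k2
  rcases lt_trichotomy (Y p a b ξ) (Y p c d ξ) with e | e | e
  · exact Or.inl ⟨ξ, k1.1.le, k2.1.le, k1.2.le, k2.2.le, e⟩
  · obtain ⟨w, m, _, m3⟩ := D.meet h h' hab hcd hne k1.1.le k2.1.le k1.2.le k2.2.le e
    rcases m with rfl | rfl
    · exact absurd m3 k1.1.ne'
    · exact absurd m3 k2.1.ne
  · exact Or.inr ⟨ξ, k1.2.le, k2.2.le, k1.1.le, k2.1.le, e⟩

end Drw

theorem Below.slp_lt {p : W → ℝ × ℝ} {a b c : W} (h : Below p a b a c) : slp p a b < slp p a c := by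
  obtain ⟨ξ, h1, _, _, _, h2⟩ := h
  simp only [Y, add_lt_add_iff_left] at h2
  exact lt_of_mul_lt_mul_left h2 (by linarith)

theorem Y_lt_of_slp {p : W → ℝ × ℝ} {a b c : W} (h : slp p a b < slp p a c) {ξ : ℝ}
    (h1 : (p a).1 < ξ) : Y p a b ξ < Y p a c ξ := by
  simp only [Y, add_lt_add_iff_left]
  exact mul_lt_mul_of_pos_left h (by linarith)

theorem Drw.classify [Finite W] {G : SimpleGraph W} {p : W → ℝ × ℝ} (D : Drw G p) {a b : W}
    (h : G.Adj a b) (hab : (p a).1 < (p b).1) :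
    (∀ b', G.Adj a b' → (p a).1 < (p b').1 → ¬ Below p a b a b') ∨
    (∀ a', G.Adj a' b → (p a').1 < (p b).1 → ¬ Below p a b a' b) ∨
    ∃ c, (p a).1 < (p c).1 ∧ (p c).1 < (p b).1 ∧ Y p a b (p c).1 < (p c).2 ∧
      ∀ a' b', G.Adj a' b' → (p a').1 < (p c).1 → (p c).1 < (p b').1 →
        Y p a' b' (p c).1 < (p c).2 → Y p a' b' (p c).1 ≤ Y p a b (p c).1 := by
  by_cases t1 : ∀ b', G.Adj a b' → (p a).1 < (p b').1 → ¬ Below p a b a b'
  · exact Or.inl t1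
  right
  push Not at t1
  obtain ⟨b1, ⟨u1, u2, u3⟩, hmin⟩ := Set.exists_min_image
    {b' | G.Adj a b' ∧ (p a).1 < (p b').1 ∧ Below p a b a b'} (slp p a) (Set.toFinite _)
    (by obtain ⟨b', k⟩ := t1; exact ⟨b', k⟩)
  have hs := u3.slp_lt
  obtain ⟨c, ⟨c1, c2, c3, c4, c5⟩, cmin⟩ := Set.exists_min_image
    {c | (p a).1 < (p c).1 ∧ (p c).1 ≤ (p b).1 ∧ (p c).1 ≤ (p b1).1 ∧
      Y p a b (p c).1 ≤ (p c).2 ∧ (p c).2 ≤ Y p a b1 (p c).1} (fun c => (p c).1) (Set.toFinite _)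
    (by
      rcases le_total (p b).1 (p b1).1 with k | k
      · exact ⟨b, hab, le_rfl, k, (Y_right p hab).le,
          (Y_right p hab).ge.trans (Y_lt_of_slp hs hab).le⟩
      · exact ⟨b1, u2, k, le_rfl, (Y_lt_of_slp hs u2).le.trans (Y_right p u2).le,
          (Y_right p u2).ge⟩)
  have wedge : ∀ a' b', G.Adj a' b' → (p a').1 < (p c).1 → (p c).1 ≤ (p b').1 →
      Below p a b a' b' → Below p a' b' a b1 → False := by
    intro a' b' g g1 g2 g3 g4
    have g5 : (p a').1 < (p b').1 := g1.trans_le g2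
    rcases lt_trichotomy (p a').1 (p a).1 with k | k | k
    · rcases lt_or_gt_of_ne (D.off g k (c1.trans_le g2)) with m | m
      · exact D.asym h g hab g5 g3
          ⟨_, k.le, (c1.trans_le g2).le, le_rfl, hab.le, by rw [Y_left]; exact m⟩
      · exact D.asym g u1 g5 u2 g4
          ⟨_, le_rfl, u2.le, k.le, (c1.trans_le g2).le, by rw [Y_left]; exact m⟩
    · have : a' = a := D.inj k
      subst this
      exact absurd g4.slp_lt (not_lt.2 (hmin b' ⟨g, g5, g3⟩))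
    · refine absurd g1 (not_lt.2 (cmin a' ⟨k, g1.le.trans c2, g1.le.trans c3, ?_, ?_⟩))
      · by_contra m
        exact D.asym h g hab g5 g3
          ⟨_, le_rfl, g5.le, k.le, g1.le.trans c2, by rw [Y_left]; exact not_le.1 m⟩
      · by_contra m
        exact D.asym g u1 g5 u2 g4
          ⟨_, k.le, g1.le.trans c3, le_rfl, g5.le, by rw [Y_left]; exact not_le.1 m⟩
  rcases c2.lt_or_eq with c2' | c2'
  · right
    refine ⟨c, c1, c2', lt_of_le_of_ne c4 (D.off h c1 c2'), fun a' b' g g1 g2 g3 => ?_⟩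
    by_contra m
    exact wedge a' b' g g1 g2.le ⟨_, c1.le, c2, g1.le, g2.le, not_le.1 m⟩
      ⟨_, g1.le, g2.le, c1.le, c3, g3.trans_le c5⟩
  · left
    have : c = b := D.inj c2'
    subst this
    intro a' g g1 g2
    refine wedge a' c g g1 le_rfl g2 ⟨_, g1.le, le_rfl, c1.le, c3, ?_⟩
    rw [Y_right p g1, ← Y_right p hab]
    exact Y_lt_of_slp hs hab

theorem Drw.card_edges [Finite W] {G : SimpleGraph W} {p : W → ℝ × ℝ} (D : Drw G p) :
    {e : W × W | G.Adj e.1 e.2 ∧ (p e.1).1 < (p e.2).1}.ncard ≤ 3 * Nat.card W := by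
  classical
  let E1 : Set (W × W) := {e | G.Adj e.1 e.2 ∧ (p e.1).1 < (p e.2).1 ∧
    ∀ b', G.Adj e.1 b' → (p e.1).1 < (p b').1 → ¬ Below p e.1 e.2 e.1 b'}
  let E2 : Set (W × W) := {e | G.Adj e.1 e.2 ∧ (p e.1).1 < (p e.2).1 ∧
    ∀ a', G.Adj a' e.2 → (p a').1 < (p e.2).1 → ¬ Below p e.1 e.2 a' e.2}
  let T3 : W × W → W → Prop := fun e c => (p e.1).1 < (p c).1 ∧ (p c).1 < (p e.2).1 ∧
    Y p e.1 e.2 (p c).1 < (p c).2 ∧
      ∀ a' b', G.Adj a' b' → (p a').1 < (p c).1 → (p c).1 < (p b').1 →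
        Y p a' b' (p c).1 < (p c).2 → Y p a' b' (p c).1 ≤ Y p e.1 e.2 (p c).1
  let E3 : Set (W × W) := {e | G.Adj e.1 e.2 ∧ ∃ c, T3 e c}
  have hsub : {e : W × W | G.Adj e.1 e.2 ∧ (p e.1).1 < (p e.2).1} ⊆ E1 ∪ E2 ∪ E3 := by
    rintro e ⟨h1, h2⟩
    rcases D.classify h1 h2 with k | k | k
    · exact Or.inl (Or.inl ⟨h1, h2, k⟩)
    · exact Or.inl (Or.inr ⟨h1, h2, k⟩)
    · exact Or.inr ⟨h1, k⟩
  have c1 : E1.ncard ≤ Nat.card W := by
    rw [← Set.ncard_univ]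
    refine Set.ncard_le_ncard_of_injOn Prod.fst (fun _ _ => trivial) ?_
    rintro ⟨a, b⟩ ⟨h1, h2, h3⟩ ⟨a', b'⟩ ⟨k1, k2, k3⟩ e
    simp only at e h1 h2 h3 k1 k2 k3
    subst e
    by_contra m
    rcases D.tot h1 k1 h2 k2 k2 h2 (fun q => m (by rw [q.2])) with q | q
    · exact h3 _ k1 k2 q
    · exact k3 _ h1 h2 q
  have c2 : E2.ncard ≤ Nat.card W := by
    rw [← Set.ncard_univ]
    refine Set.ncard_le_ncard_of_injOn Prod.snd (fun _ _ => trivial) ?_
    rintro ⟨a, b⟩ ⟨h1, h2, h3⟩ ⟨a', b'⟩ ⟨k1, k2, k3⟩ e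
    simp only at e h1 h2 h3 k1 k2 k3
    subst e
    by_contra m
    rcases D.tot h1 k1 h2 k2 h2 k2 (fun q => m (by rw [q.1])) with q | q
    · exact h3 _ k1 k2 q
    · exact k3 _ h1 h2 q
  have c3 : E3.ncard ≤ Nat.card W := by
    rw [← Set.ncard_univ]
    refine Set.ncard_le_ncard_of_injOn (fun e => if h : ∃ c, T3 e c then h.choose else e.1)
      (fun _ _ => trivial) ?_
    rintro e ⟨h1, h2⟩ e' ⟨k1, k2⟩ m
    simp only [dif_pos h2, dif_pos k2] at m
    have a := h2.choose_spec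
    have b := k2.choose_spec
    rw [← m] at b
    generalize h2.choose = c at a b
    obtain ⟨a1, a2, a3, a4⟩ := a
    obtain ⟨b1, b2, b3, b4⟩ := b
    by_contra ne
    obtain ⟨w, w1, _, w3⟩ := D.meet h1 k1 (a1.trans a2) (b1.trans b2)
      (fun q => ne (Prod.ext q.1 q.2)) a1.le a2.le b1.le b2.le
      (le_antisymm (b4 _ _ h1 a1 a2 a3) (a4 _ _ k1 b1 b2 b3))
    rcases w1 with rfl | rfl
    · exact a1.ne' w3
    · exact a2.ne w3
  have := Set.ncard_le_ncard hsub (Set.toFinite _)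
  have := Set.ncard_union_le (E1 ∪ E2) E3
  have := Set.ncard_union_le E1 E2
  omega

end Pool.Agent.H795Z.GM
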