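import Pool.Agent.H795Z.GM.Pages

/-! Terminals arranged along a snake through the bands of a grid. -/

set_option autoImplicit false

namespace Pool.Agent.H795Z.GM

/-- `R` contains the grid edges of the box of side `n` -/
def HasBox (R : ℕ × ℕ → ℕ × ℕ → Prop) (n : ℕ) : Prop :=
  ∀ p q : ℕ × ℕ, p.1 < n → p.2 < n → q.1 < n → q.2 < n → GAdj p q → R p q

theorem Conn.box {R : ℕ × ℕ → ℕ × ℕ → Prop} {n : ℕ} (hb : HasBox R n) {S : Set (ℕ × ℕ)}
    (hS : ∀ p ∈ S, p.1 < n ∧ p.2 < n) {x y : ℕ × ℕ} (h : Conn GAdj S x y) : Conn R S x y :=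
  h.mono' subset_rfl (fun a ha b hb' k => hb a b (hS a ha).1 (hS a ha).2 (hS b hb').1 (hS b hb').2 k)

theorem page_of {R : ℕ × ℕ → ℕ × ℕ → Prop} {n : ℕ} (hb : HasBox R n) {M : ℕ}
    (K : Fin M → Set (ℕ × ℕ)) (Rg : Set (ℕ × ℕ)) (row : Fin M → ℕ) (hrow : StrictMono row)
    (hn : ∀ i, row i < n) (c : ℕ → ℕ) (hc1 : ∀ d, d < M → c d < n)
    (hc2 : ∀ d e, d < M → e < M → c d = c e → d = e)
    (hc3 : ∀ d, d + 1 < M → c d + 1 = c (d + 1) ∨ c (d + 1) + 1 = c d)
    (hc4 : ∀ d y, d < M → (c d, y) ∈ Rg)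
    (hK : ∀ i, ∃ x, x < n ∧ (x, row i) ∈ K i ∧ (x + 1 = c 0 ∨ c 0 + 1 = x)) : Page R K Rg := by
  intro E hE hNC
  obtain ⟨T, h1, h2, h3, h4, h5⟩ := margin row hrow hn E hE hNC
  let φ : ℕ × ℕ → ℕ × ℕ := fun p => (c p.1, p.2)
  refine ⟨fun i => φ '' T i, ?_, ?_, ?_, ?_, ?_⟩
  · rintro i _ ⟨p, hp, rfl⟩
    exact hc4 _ _ (h5 i p hp).1
  · intro i
    obtain ⟨r, hr, k⟩ := h2 i
    refine ⟨φ r, ⟨r, hr, rfl⟩, ?_⟩
    rintro _ ⟨p, hp, rfl⟩
    refine (k p hp).map φ (fun q hq => ⟨q, hq, rfl⟩) ?_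
    intro p hp q hq hpq
    obtain ⟨a1, a2⟩ := h5 i p hp
    obtain ⟨b1, b2⟩ := h5 i q hq
    refine hb _ _ (hc1 _ a1) a2 (hc1 _ b1) b2 ?_
    rcases hpq with ⟨e, h | h⟩ | ⟨e, h⟩
    · exact Or.inl ⟨e, by have := hc3 p.1 (by omega); rw [h] at this; exact this⟩
    · exact Or.inl ⟨e, by have := hc3 q.1 (by omega); rw [h] at this; exact this.symm⟩
    · exact Or.inr ⟨by simp only [φ, e], h⟩
  · intro i j h
    simp only [h3 i j h]
  · intro i j h
    rw [Set.disjoint_left]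
    rintro _ ⟨p, hp, rfl⟩ ⟨q, hq, e⟩
    have e1 : q.1 = p.1 := hc2 _ _ (h5 j q hq).1 (h5 i p hp).1 (congrArg Prod.fst e)
    have e2 : q.2 = p.2 := show (φ q).2 = (φ p).2 from congrArg Prod.snd e
    have : q = p := Prod.ext e1 e2
    subst this
    exact Set.disjoint_left.1 (h4 i j h) hp hq
  · intro i
    obtain ⟨x, hx, h, h'⟩ := hK i
    refine ⟨_, h, _, ⟨_, h1 i, rfl⟩, hb _ _ hx (hn i) (hc1 0 (by have := i.2; omega)) (hn i) ?_⟩
    exact Or.inl ⟨rfl, h'⟩

/-- the points which are neither in a margin nor in a corridor -/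
def Allowed (κ : ℕ → ℕ) (s0 nb a b μ : ℕ) (p : ℕ × ℕ) : Prop :=
  p.1 + μ < a ∨ b + μ ≤ p.1 ∨
    (a ≤ p.1 ∧ p.1 < b ∧ ∀ j, j ≤ nb → p.2 < κ j ∨ κ j + 2 * s0 ≤ p.2)

theorem hooks_fin {W : Type} {R : ℕ × ℕ → ℕ × ℕ → Prop} (hR : ∀ a b, R a b → R b a) {n : ℕ}
    (hb : HasBox R n) {P : W → W → Prop} {N : ℕ} (tp : TwoPage P N) {M k : ℕ}
    (hM : N + 2 * k ≤ M) (hM0 : 0 < M) (κ : ℕ → ℕ) (s0 nb a b μ : ℕ)
    (hκ : ∀ j j', j < j' → κ j + 2 * s0 ≤ κ j') (hκn : κ nb + 2 * s0 ≤ n)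
    (hμa : μ ≤ a) (hbn : b + μ ≤ n) (hMμ : M ≤ μ)
    (bd cl rk : Fin M → ℕ) (hbd : ∀ i, bd i < nb) (hcl : ∀ i, a ≤ cl i ∧ cl i < b)
    (hrk : ∀ i, rk i < s0)
    (hord : ∀ i i', i < i' → bd i < bd i' ∨ (bd i = bd i' ∧ rk i < rk i' ∧
      (bd i % 2 = 0 → cl i' < cl i) ∧ (bd i % 2 = 1 → cl i < cl i')))
    (I : ℕ → Set (ℕ × ℕ)) (l : Fin M → ℕ) (hl : ∀ i, l i < k) (hI : ∀ i, CSet R (I (l i)))
    (hIA : ∀ i, ∀ p ∈ I (l i), Allowed κ s0 nb a b μ p)
    (hIT : ∀ i j y, κ (bd j) + 2 * s0 ≤ y → y < κ (bd j + 1) → (cl j, y) ∉ I (l i))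
    (hadj : ∀ i, ∃ y, κ (bd i) + 2 * s0 ≤ y ∧ y < κ (bd i + 1) ∧ ∃ q ∈ I (l i), R (cl i, y) q) :
    RMinor (apexRel P) R := by
  let dn : Fin M → ℕ := fun i => κ (bd i) + s0 + rk i
  let up : Fin M → ℕ := fun i => κ (bd i + 1) + rk i
  let rL : Fin M → ℕ := fun i => if bd i % 2 = 0 then dn i else up i
  let rR : Fin M → ℕ := fun i => if bd i % 2 = 0 then up i else dn i
  have hκ1 : ∀ i, κ (bd i) + 2 * s0 ≤ κ (bd i + 1) := fun i => hκ _ _ (by omega)
  have hκ2 : ∀ j j', j ≤ j' → κ j ≤ κ j' := fun j j' h => by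
    rcases h.lt_or_eq with h | rfl
    · have := hκ _ _ h; omega
    · exact le_rfl
  have hLR : ∀ i, (bd i % 2 = 0 ∧ rL i = dn i ∧ rR i = up i) ∨
      (bd i % 2 = 1 ∧ rL i = up i ∧ rR i = dn i) := by
    intro i
    by_cases h : bd i % 2 = 0
    · exact Or.inl ⟨h, if_pos h, if_pos h⟩
    · exact Or.inr ⟨by omega, if_neg h, if_neg h⟩
  have hdn : ∀ i, dn i = κ (bd i) + s0 + rk i := fun _ => rfl
  have hup : ∀ i, up i = κ (bd i + 1) + rk i := fun _ => rfl
  have hupn : ∀ i, up i < n := by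
    intro i
    have := hκ2 (bd i + 1) nb (hbd i)
    have := hrk i
    rw [hup]; omega
  have hdu : ∀ i, dn i < up i := by
    intro i
    have := hκ1 i
    have := hrk i
    rw [hup, hdn]; omega
  have hsep : ∀ i i', bd i < bd i' → up i < dn i' := by
    intro i i' h
    have := hκ2 (bd i + 1) (bd i') h
    have := hrk i
    rw [hup, hdn]; omega
  have hsame : ∀ i i', bd i = bd i' → rk i < rk i' → dn i < dn i' ∧ up i < up i' ∧ dn i' < up i := by
    intro i i' h h'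
    have := hκ1 i
    have := hrk i'
    rw [hup, hdn, hup, hdn, ← h]; omega
  clear_value dn up rL rR
  let K : Fin M → Set (ℕ × ℕ) := fun i => {p | (p.1 = cl i ∧ dn i ≤ p.2 ∧ p.2 ≤ up i) ∨
    (p.2 = rL i ∧ a ≤ p.1 ∧ p.1 ≤ cl i) ∨ (p.2 = rR i ∧ cl i ≤ p.1 ∧ p.1 < b)}
  have hKm : ∀ i p, p ∈ K i ↔ (p.1 = cl i ∧ dn i ≤ p.2 ∧ p.2 ≤ up i) ∨
    (p.2 = rL i ∧ a ≤ p.1 ∧ p.1 ≤ cl i) ∨ (p.2 = rR i ∧ cl i ≤ p.1 ∧ p.1 < b) := fun _ _ => Iff.rfl
  have hKb : ∀ i, ∀ p ∈ K i, a ≤ p.1 ∧ p.1 < b ∧ dn i ≤ p.2 ∧ p.2 ≤ up i := by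
    intro i p hp
    rw [hKm] at hp
    have := hLR i
    have := hcl i
    have := hdu i
    omega
  have hlt : ∀ i i', i < i' → Disjoint (K i) (K i') := by
    intro i i' h
    rw [Set.disjoint_left]
    intro p hp hp'
    rcases hord i i' h with h1 | ⟨h1, h2, h3, h4⟩
    · have := hsep i i' h1
      have := hKb i p hp
      have := hKb i' p hp'
      omega
    · rw [hKm] at hp hp'
      have := hsame i i' h1 h2
      have := hLR i
      have := hLR i'
      have := hdu i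
      omega
  refine assemble hR tp hM hM0 K I l hl ?_ hI ?_ ?_ ?_ {p | a ≤ p.1 + μ ∧ p.1 < a}
    {p | b ≤ p.1 ∧ p.1 < b + μ} ?_ ?_ ?_ ?_ ?_ ?_ ?_
  · intro i
    have h0 := hdu i
    have h1 := hLR i
    have h2 := hcl i
    refine ⟨(cl i, dn i), Or.inl ⟨rfl, le_rfl, h0.le⟩, fun p hp => Conn.box hb ?_ ?_⟩
    · intro q hq
      have := hKb i q hq
      have := hupn i
      omega
    have hv : ∀ y, dn i ≤ y → y ≤ up i → Conn GAdj (K i) (cl i, dn i) (cl i, y) := by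
      intro y k1 k2
      exact conn_col _ _ _ (fun m k3 k4 => Or.inl ⟨rfl, by simp only; omega, by simp only; omega⟩)
    obtain ⟨x, y⟩ := p
    rcases hp with ⟨k1, k2, k3⟩ | ⟨k1, k2, k3⟩ | ⟨k1, k2, k3⟩
    · simp only at k1 k2 k3
      subst k1
      exact hv y k2 k3
    · simp only at k1 k2 k3
      subst k1
      refine (hv _ (by omega) (by omega)).trans (conn_row _ _ _ (fun m k4 k5 => ?_))
      exact Or.inr (Or.inl ⟨rfl, by simp only; omega, by simp only; omega⟩)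
    · simp only at k1 k2 k3
      subst k1
      refine (hv _ (by omega) (by omega)).trans (conn_row _ _ _ (fun m k4 k5 => ?_))
      exact Or.inr (Or.inr ⟨rfl, by simp only; omega, by simp only; omega⟩)
  · intro i j h
    rcases lt_or_gt_of_ne h with h | h
    · exact hlt i j h
    · exact (hlt j i h).symm
  · intro i j
    rw [Set.disjoint_left]
    intro p hp hp'
    have h1 := hKb i p hp
    have h2 := hrk i
    rcases hIA j p hp' with h | h | ⟨_, _, h⟩
    · omega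
    · omega
    · have h3 := h (bd i) (hbd i).le
      have h4 := h (bd i + 1) (hbd i)
      have h5 := hdn i
      have h6 := hup i
      have h7 := hLR i
      rw [hKm] at hp
      have h8 : p.1 = cl i := by omega
      refine hIT j i p.2 (by omega) (by omega) ?_
      rw [← h8]; exact hp'
  · intro i
    obtain ⟨y, h1, h2, q, hq, h⟩ := hadj i
    have h5 := hdn i
    have h6 := hup i
    have h2 := hrk i
    exact ⟨_, Or.inl ⟨rfl, by simp only; omega, by simp only; omega⟩, q, hq, h⟩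
  · rw [Set.disjoint_left]
    rintro p ⟨_, h1⟩ ⟨h2, _⟩
    have := hcl ⟨0, hM0⟩
    omega
  · intro i
    rw [Set.disjoint_left]
    rintro p hp ⟨_, h1⟩
    have := hKb i p hp
    omega
  · intro i
    rw [Set.disjoint_left]
    rintro p hp ⟨h1, _⟩
    have := hKb i p hp
    omega
  · intro i
    rw [Set.disjoint_left]
    rintro p hp ⟨h1, h2⟩
    have := hcl ⟨0, hM0⟩
    rcases hIA i p hp with h | h | ⟨h, _⟩ <;> omega
  · intro i
    rw [Set.disjoint_left]
    rintro p hp ⟨h1, h2⟩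
    have := hcl ⟨0, hM0⟩
    rcases hIA i p hp with h | h | ⟨_, h, _⟩ <;> omega
  · refine page_of hb K _ rL ?_ ?_ (fun d => a - 1 - d) ?_ ?_ ?_ ?_ ?_
    · intro i i' h
      have := hLR i
      have := hLR i'
      have := hdu i
      have := hdu i'
      rcases hord i i' h with h1 | ⟨h1, h2, _⟩
      · have := hsep i i' h1
        omega
      · have := hsame i i' h1 h2
        omega
    · intro i
      have := hLR i
      have := hdu i
      have := hupn i
      omega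
    · intro d _
      have := hcl ⟨0, hM0⟩
      omega
    · intro d e _ _ h
      omega
    · intro d _
      omega
    · intro d y _
      exact ⟨by simp only; omega, by simp only; omega⟩
    · intro i
      have := hcl i
      exact ⟨a, by omega, Or.inr (Or.inl ⟨rfl, le_rfl, this.1⟩), by omega⟩
  · refine page_of hb K _ rR ?_ ?_ (fun d => b + d) ?_ ?_ ?_ ?_ ?_
    · intro i i' h
      have := hLR i
      have := hLR i'
      have := hdu i
      have := hdu i'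
      rcases hord i i' h with h1 | ⟨h1, h2, _⟩
      · have := hsep i i' h1
        omega
      · have := hsame i i' h1 h2
        omega
    · intro i
      have := hLR i
      have := hdu i
      have := hupn i
      omega
    · intro d _
      omega
    · intro d e _ _ h
      omega
    · intro d _
      omega
    · intro d y _
      exact ⟨by simp only; omega, by simp only; omega⟩
    · intro i
      have := hcl i
      exact ⟨b - 1, by omega, Or.inr (Or.inr ⟨rfl, by simp only; omega, by simp only; omega⟩),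
        by omega⟩

/-- The version for a finite set of terminals `(column, band)`. -/
theorem hooks {W : Type} {R : ℕ × ℕ → ℕ × ℕ → Prop} (hR : ∀ a b, R a b → R b a) {n : ℕ}
    (hb : HasBox R n) {P : W → W → Prop} {N : ℕ} (tp : TwoPage P N) {k : ℕ}
    (T : Finset (ℕ × ℕ)) (hM : N + 2 * k ≤ T.card) (hM0 : 0 < T.card) (κ : ℕ → ℕ)
    (s0 nb a b μ : ℕ)
    (hκ : ∀ j j', j < j' → κ j + 2 * s0 ≤ κ j') (hκn : κ nb + 2 * s0 ≤ n)
    (hμa : μ ≤ a) (hbn : b + μ ≤ n) (hMμ : T.card ≤ μ)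
    (hT : ∀ t ∈ T, a ≤ t.1 ∧ t.1 < b ∧ t.2 < nb)
    (hper : ∀ j, (T.filter (fun t => t.2 = j)).card ≤ s0)
    (I : ℕ → Set (ℕ × ℕ)) (l : ℕ × ℕ → ℕ) (hl : ∀ t ∈ T, l t < k)
    (hI : ∀ t ∈ T, CSet R (I (l t)))
    (hIA : ∀ t ∈ T, ∀ p ∈ I (l t), Allowed κ s0 nb a b μ p)
    (hIT : ∀ t ∈ T, ∀ u ∈ T, ∀ y, κ u.2 + 2 * s0 ≤ y → y < κ (u.2 + 1) → (u.1, y) ∉ I (l t))
    (hadj : ∀ t ∈ T, ∃ y, κ t.2 + 2 * s0 ≤ y ∧ y < κ (t.2 + 1) ∧ ∃ q ∈ I (l t), R (t.1, y) q) :
    RMinor (apexRel P) R := by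
  classical
  let key : ℕ × ℕ → ℕ ×ₗ ℕ := fun t => toLex (t.2, if t.2 % 2 = 0 then b - t.1 else t.1)
  have hinj : Set.InjOn key T := by
    intro t ht u hu h
    have h1 := hT t ht
    have h2 := hT u hu
    simp only [key, toLex_inj, Prod.mk.injEq] at h
    obtain ⟨e1, e2⟩ := h
    rw [e1] at e2
    apply Prod.ext _ e1
    split_ifs at e2 <;> omega
  have hc : (T.image key).card = T.card := Finset.card_image_of_injOn hinj
  let e : Fin T.card ↪o ℕ ×ₗ ℕ := (T.image key).orderEmbOfFin hc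
  have he : ∀ i, ∃ t ∈ T, key t = e i := fun i =>
    Finset.mem_image.1 ((T.image key).orderEmbOfFin_mem hc i)
  choose t ht hte using he
  have tinj : Function.Injective t := fun i j h => e.injective (by rw [← hte, ← hte, h])
  let rk : Fin T.card → ℕ := fun i => (Finset.univ.filter (fun j => j < i ∧ (t j).2 = (t i).2)).card
  refine hooks_fin hR hb tp hM hM0 κ s0 nb a b μ hκ hκn hμa hbn hMμ (fun i => (t i).2)
    (fun i => (t i).1) rk (fun i => (hT _ (ht i)).2.2) (fun i => ⟨(hT _ (ht i)).1, (hT _ (ht i)).2.1⟩)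
    ?_ ?_ I (fun i => l (t i)) (fun i => hl _ (ht i)) (fun i => hI _ (ht i))
    (fun i => hIA _ (ht i)) (fun i j => hIT _ (ht i) _ (ht j)) (fun i => hadj _ (ht i))
  · intro i
    refine lt_of_lt_of_le ?_ (hper (t i).2)
    have h1 : (insert i (Finset.univ.filter (fun j => j < i ∧ (t j).2 = (t i).2))).card ≤
        (T.filter (fun u => u.2 = (t i).2)).card := by
      refine Finset.card_le_card_of_injOn t ?_ (fun x _ y _ h => tinj h)
      intro j hj
      simp only [Finset.coe_insert, Finset.coe_filter, Finset.mem_univ, true_and,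
        Set.mem_insert_iff, Set.mem_ofPred_eq] at hj ⊢
      rcases hj with rfl | hj
      · exact ⟨ht _, rfl⟩
      · exact ⟨ht _, hj.2⟩
    rw [Finset.card_insert_of_notMem (by simp)] at h1
    exact h1
  · intro i i' h
    have h1 : key (t i) < key (t i') := by rw [hte, hte]; exact e.strictMono h
    have h2 := hT _ (ht i)
    have h3 := hT _ (ht i')
    simp only [key, Prod.Lex.toLex_lt_toLex] at h1
    rcases h1 with h1 | ⟨h1, h4⟩
    · exact Or.inl h1
    · refine Or.inr ⟨h1, ?_, ?_, ?_⟩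
      · apply Finset.card_lt_card
        rw [Finset.ssubset_iff_of_subset]
        · exact ⟨i, by simp [h, h1], by simp⟩
        · intro j hj
          simp only [Finset.mem_filter, Finset.mem_univ, true_and] at hj ⊢
          exact ⟨hj.1.trans h, hj.2.trans h1⟩
      · intro h5
        rw [← h1, if_pos h5, if_pos h5] at h4
        omega
      · intro h5
        rw [← h1, if_neg (by omega), if_neg (by omega)] at h4
        exact h4

end Pool.Agent.H795Z.GM
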