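import Pool.Agent.H795Z.GM.Conn

/-! The grid has no `K₅` minor (van Kampen's parity argument). -/

set_option autoImplicit false

namespace Pool.Agent.H795Z.GM

/-- walks inside a set, as lists of edges -/
inductive IsW (S : Set (ℕ × ℕ)) : ℕ × ℕ → ℕ × ℕ → List ((ℕ × ℕ) × (ℕ × ℕ)) → Prop
  | nil (x : ℕ × ℕ) : IsW S x x []
  | cons {x x' y : ℕ × ℕ} {L : List ((ℕ × ℕ) × (ℕ × ℕ))} : x ∈ S → x' ∈ S → GAdj x x' →
      IsW S x' y L → IsW S x y ((x, x') :: L)

theorem Conn.exists_isW {S : Set (ℕ × ℕ)} {x y : ℕ × ℕ} (h : Conn GAdj S x y) :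
    ∃ L, IsW S x y L := by
  induction h using Relation.ReflTransGen.head_induction_on with
  | refl => exact ⟨[], IsW.nil _⟩
  | head k _ ih =>
    obtain ⟨L, hL⟩ := ih
    exact ⟨_, IsW.cons k.1 k.2.1 k.2.2 hL⟩

/-- the edge `pq` crosses the ray which leaves `c` to the right, slightly above `c` -/
def iE (p q c : ℕ × ℕ) : ZMod 2 :=
  if p.1 = q.1 ∧ c.1 < p.1 ∧ min p.2 q.2 = c.2 then 1 else 0

/-- the edge `pq` crosses the ray which leaves `c` to the left, slightly below `c` -/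
def jE (p q c : ℕ × ℕ) : ZMod 2 :=
  if p.1 = q.1 ∧ p.1 < c.1 ∧ max p.2 q.2 = c.2 then 1 else 0

/-- a linear order of the points -/
def ab (w u : ℕ × ℕ) : ZMod 2 := if u.2 < w.2 ∨ (w.2 = u.2 ∧ w.1 < u.1) then 1 else 0

/-- crossing parity with the right ray -/
def cI (L : List ((ℕ × ℕ) × (ℕ × ℕ))) (c : ℕ × ℕ) : ZMod 2 := (L.map fun e => iE e.1 e.2 c).sum

/-- crossing parity with the left ray -/
def cJ (L : List ((ℕ × ℕ) × (ℕ × ℕ))) (c : ℕ × ℕ) : ZMod 2 := (L.map fun e => jE e.1 e.2 c).sum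

theorem two_eq : (2 : ZMod 2) = 0 := rfl

theorem stepB (x x' p q : ℕ × ℕ) (h : GAdj x x') (h' : GAdj p q) (h1 : x ≠ p) (h2 : x ≠ q)
    (h3 : x' ≠ p) (h4 : x' ≠ q) : iE x x' p + iE x x' q = jE p q x + jE p q x' := by
  obtain ⟨a, b⟩ := x
  obtain ⟨c, d⟩ := x'
  obtain ⟨e, f⟩ := p
  obtain ⟨g, i⟩ := q
  simp only [GAdj, ne_eq, Prod.mk.injEq, iE, jE] at *
  split_ifs <;> first | rfl | (exfalso; omega)

theorem stepD (x x' u : ℕ × ℕ) (h : GAdj x x') (h1 : x ≠ u) (h3 : x' ≠ u) :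
    iE x x' u + jE x x' u = ab x u + ab x' u := by
  obtain ⟨a, b⟩ := x
  obtain ⟨c, d⟩ := x'
  obtain ⟨e, f⟩ := u
  simp only [GAdj, ne_eq, Prod.mk.injEq, iE, jE, ab] at *
  split_ifs <;> first | rfl | (exfalso; omega)

theorem ab_anti (x u : ℕ × ℕ) (h : x ≠ u) : ab x u + ab u x = 1 := by
  obtain ⟨a, b⟩ := x
  obtain ⟨e, f⟩ := u
  simp only [ne_eq, Prod.mk.injEq, ab] at *
  split_ifs <;> first | rfl | (exfalso; omega)

theorem IsW.lemB {S : Set (ℕ × ℕ)} {u v : ℕ × ℕ} {L : List ((ℕ × ℕ) × (ℕ × ℕ))} (h : IsW S u v L)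
    {p q : ℕ × ℕ} (h' : GAdj p q) (hp : p ∉ S) (hq : q ∉ S) :
    cI L p + cI L q = jE p q u + jE p q v := by
  induction h with
  | nil x => simp only [cI, List.map_nil, List.sum_nil]; linear_combination (-jE p q x) * two_eq
  | @cons x x' y L h1 h2 h3 _ ih =>
    have := stepB x x' p q h3 h' (fun e => hp (e ▸ h1)) (fun e => hq (e ▸ h1))
      (fun e => hp (e ▸ h2)) (fun e => hq (e ▸ h2))
    simp only [cI, List.map_cons, List.sum_cons] at ih ⊢
    linear_combination this + ih + (jE p q x') * two_eq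

theorem IsW.lemC {S T : Set (ℕ × ℕ)} (hd : Disjoint S T) {u v x y : ℕ × ℕ}
    {L K : List ((ℕ × ℕ) × (ℕ × ℕ))} (h : IsW S u v L) (k : IsW T x y K) :
    cI L x + cI L y = cJ K u + cJ K v := by
  induction k with
  | nil x => simp only [cJ, List.map_nil, List.sum_nil]; linear_combination (cI L x) * two_eq
  | @cons x x' y K h1 h2 h3 _ ih =>
    have := h.lemB h3 (Set.disjoint_right.1 hd h1) (Set.disjoint_right.1 hd h2)
    simp only [cJ, List.map_cons, List.sum_cons] at ih ⊢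
    linear_combination this + ih - (cI L x') * two_eq

theorem IsW.lemD {T : Set (ℕ × ℕ)} {u x y : ℕ × ℕ} (hu : u ∉ T)
    {K : List ((ℕ × ℕ) × (ℕ × ℕ))} (k : IsW T x y K) : cI K u + cJ K u = ab x u + ab y u := by
  induction k with
  | nil x =>
    simp only [cI, cJ, List.map_nil, List.sum_nil]; linear_combination (-ab x u) * two_eq
  | @cons x x' y K h1 h2 h3 _ ih =>
    have := stepD x x' u h3 (fun e => hu (e ▸ h1)) (fun e => hu (e ▸ h2))
    simp only [cI, cJ, List.map_cons, List.sum_cons] at ih ⊢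
    linear_combination this + ih + (ab x' u) * two_eq

theorem no_K5 (ρ : Fin 5 → ℕ × ℕ) (E : Fin 5 → Fin 5 → Set (ℕ × ℕ))
    (hmem : ∀ i j, i < j → ρ i ∈ E i j) (hconn : ∀ i j, i < j → Conn GAdj (E i j) (ρ i) (ρ j))
    (hdisj : ∀ i j k l, i < j → k < l → i ≠ k → i ≠ l → j ≠ k → j ≠ l → Disjoint (E i j) (E k l))
    (hρ : Function.Injective ρ) : False := by
  have hL : ∀ i j, ∃ L, i < j → IsW (E i j) (ρ i) (ρ j) L := by
    intro i j
    by_cases h : i < j
    · obtain ⟨L, hL⟩ := (hconn i j h).exists_isW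
      exact ⟨L, fun _ => hL⟩
    · exact ⟨[], fun k => absurd k h⟩
  choose L hL using hL
  have h2 := two_eq
  have key : ∀ u v x y : Fin 5, u < v → x < y → u ≠ x → u ≠ y → v ≠ x → v ≠ y →
      cI (L u v) (ρ x) + cI (L u v) (ρ y) + cI (L x y) (ρ u) + cI (L x y) (ρ v) =
        ab (ρ x) (ρ u) + ab (ρ y) (ρ u) + ab (ρ x) (ρ v) + ab (ρ y) (ρ v) := by
    intro u v x y h1 h2' h3 h4 h5 h6
    have d := hdisj u v x y h1 h2' h3 h4 h5 h6
    have c := IsW.lemC d (hL u v h1) (hL x y h2')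
    have d1 := IsW.lemD (Set.disjoint_left.1 d (hmem u v h1)) (hL x y h2')
    have d2 := IsW.lemD (Set.disjoint_left.1 d ((hconn u v h1).mem_right (hmem u v h1)))
      (hL x y h2')
    linear_combination c + d1 + d2
  have anti : ∀ i j : Fin 5, i ≠ j → ab (ρ i) (ρ j) + ab (ρ j) (ρ i) = 1 :=
    fun i j h => ab_anti _ _ (fun e => h (hρ e))
  have e1 := key 0 1 2 3 (by decide) (by decide) (by decide) (by decide) (by decide) (by decide)
  have e2 := key 0 1 2 4 (by decide) (by decide) (by decide) (by decide) (by decide) (by decide)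
  have e3 := key 0 1 3 4 (by decide) (by decide) (by decide) (by decide) (by decide) (by decide)
  have e4 := key 0 2 1 3 (by decide) (by decide) (by decide) (by decide) (by decide) (by decide)
  have e5 := key 0 2 1 4 (by decide) (by decide) (by decide) (by decide) (by decide) (by decide)
  have e6 := key 0 2 3 4 (by decide) (by decide) (by decide) (by decide) (by decide) (by decide)
  have e7 := key 0 3 1 2 (by decide) (by decide) (by decide) (by decide) (by decide) (by decide)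
  have e8 := key 0 3 1 4 (by decide) (by decide) (by decide) (by decide) (by decide) (by decide)
  have e9 := key 0 3 2 4 (by decide) (by decide) (by decide) (by decide) (by decide) (by decide)
  have e10 := key 0 4 1 2 (by decide) (by decide) (by decide) (by decide) (by decide) (by decide)
  have e11 := key 0 4 1 3 (by decide) (by decide) (by decide) (by decide) (by decide) (by decide)
  have e12 := key 0 4 2 3 (by decide) (by decide) (by decide) (by decide) (by decide) (by decide)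
  have e13 := key 1 2 3 4 (by decide) (by decide) (by decide) (by decide) (by decide) (by decide)
  have e14 := key 1 3 2 4 (by decide) (by decide) (by decide) (by decide) (by decide) (by decide)
  have e15 := key 1 4 2 3 (by decide) (by decide) (by decide) (by decide) (by decide) (by decide)
  have f01 := anti 0 1 (by decide)
  have f02 := anti 0 2 (by decide)
  have f03 := anti 0 3 (by decide)
  have f04 := anti 0 4 (by decide)
  have f12 := anti 1 2 (by decide)
  have f13 := anti 1 3 (by decide)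
  have f14 := anti 1 4 (by decide)
  have f23 := anti 2 3 (by decide)
  have f24 := anti 2 4 (by decide)
  have f34 := anti 3 4 (by decide)
  have : (1 : ZMod 2) = 0 := by
    linear_combination e1 + e2 + e3 + e4 + e5 + e6 + e7 + e8 + e9 + e10 + e11 + e12 + e13 + e14 + e15 + f23 + f24 + f34 +
      ((-1) * cI (L 0 1) (ρ 2) +
      (-1) * cI (L 0 1) (ρ 3) +
      (-1) * cI (L 2 3) (ρ 0) +
      (-1) * cI (L 2 3) (ρ 1) +
      (3) * ab (ρ 2) (ρ 0) +
      (3) * ab (ρ 3) (ρ 0) +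
      (2) * ab (ρ 2) (ρ 1) +
      (2) * ab (ρ 3) (ρ 1) +
      (-1) * cI (L 0 1) (ρ 4) +
      (-1) * cI (L 2 4) (ρ 0) +
      (-1) * cI (L 2 4) (ρ 1) +
      (3) * ab (ρ 4) (ρ 0) +
      (2) * ab (ρ 4) (ρ 1) +
      (-1) * cI (L 3 4) (ρ 0) +
      (-1) * cI (L 3 4) (ρ 1) +
      (-1) * cI (L 0 2) (ρ 1) +
      (-1) * cI (L 0 2) (ρ 3) +
      (-1) * cI (L 1 3) (ρ 0) +
      (-1) * cI (L 1 3) (ρ 2) +
      (3) * ab (ρ 1) (ρ 0) +
      (1) * ab (ρ 1) (ρ 2) +
      (1) * ab (ρ 3) (ρ 2) +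
      (-1) * cI (L 0 2) (ρ 4) +
      (-1) * cI (L 1 4) (ρ 0) +
      (-1) * cI (L 1 4) (ρ 2) +
      (1) * ab (ρ 4) (ρ 2) +
      (-1) * cI (L 3 4) (ρ 2) +
      (-1) * cI (L 0 3) (ρ 1) +
      (-1) * cI (L 0 3) (ρ 2) +
      (-1) * cI (L 1 2) (ρ 0) +
      (-1) * cI (L 1 2) (ρ 3) +
      (1) * ab (ρ 1) (ρ 3) +
      (1) * ab (ρ 2) (ρ 3) +
      (-1) * cI (L 0 3) (ρ 4) +
      (-1) * cI (L 1 4) (ρ 3) +
      (1) * ab (ρ 4) (ρ 3) +
      (-1) * cI (L 2 4) (ρ 3) +
      (-1) * cI (L 0 4) (ρ 1) +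
      (-1) * cI (L 0 4) (ρ 2) +
      (-1) * cI (L 1 2) (ρ 4) +
      (1) * ab (ρ 1) (ρ 4) +
      (1) * ab (ρ 2) (ρ 4) +
      (-1) * cI (L 0 4) (ρ 3) +
      (-1) * cI (L 1 3) (ρ 4) +
      (1) * ab (ρ 3) (ρ 4) +
      (-1) * cI (L 2 3) (ρ 4) +
      (2)) * h2
  exact absurd this (by decide)

/-- The form for five connected sets, two of which are joined by a path avoiding the others. -/
theorem no_K5_path (Y : Fin 5 → Set (ℕ × ℕ)) (hY : ∀ i, CSet GAdj (Y i))
    (hd : ∀ i j, i ≠ j → Disjoint (Y i) (Y j))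
    (ha : ∀ i j, i < j → i ≠ 3 → ∃ x ∈ Y i, ∃ y ∈ Y j, GAdj x y) (Q : Set (ℕ × ℕ)) (a b : ℕ × ℕ)
    (h3 : a ∈ Y 3) (h4 : b ∈ Y 4) (hQ : a ∈ Q) (hab : Conn GAdj Q a b)
    (hQd : ∀ i, i ≠ 3 → i ≠ 4 → Disjoint Q (Y i)) : False := by
  have hex : ∀ i, ∃ x ∈ Y i, (i = 3 → x = a) ∧ (i = 4 → x = b) := by
    intro i
    by_cases e3 : i = 3
    · subst e3; exact ⟨a, h3, fun _ => rfl, fun h => absurd h (by decide)⟩
    · by_cases e4 : i = 4
      · subst e4; exact ⟨b, h4, fun h => absurd h (by decide), fun _ => rfl⟩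
      · obtain ⟨x, hx, _⟩ := hY i
        exact ⟨x, hx, fun h => absurd h e3, fun h => absurd h e4⟩
  choose ρ hρ hρ3 hρ4 using hex
  have h34 : ∀ i j : Fin 5, i < j → i = 3 → j = 4 := by decide
  refine no_K5 ρ (fun i j => if i = 3 then Q else Y i ∪ Y j) ?_ ?_ ?_ ?_
  · intro i j _
    by_cases e : i = 3
    · rw [if_pos e, hρ3 i e]; exact hQ
    · rw [if_neg e]; exact Or.inl (hρ i)
  · intro i j h
    by_cases e : i = 3
    · rw [if_pos e, hρ3 i e, hρ4 j (h34 i j h e)]; exact hab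
    · rw [if_neg e]
      obtain ⟨x, hx, y, hy, k⟩ := ha i j h e
      exact (((hY i).conn gadj_symm (hρ i) hx).mono Set.subset_union_left).trans
        ((Conn.step (Set.mem_union_left _ hx) (Set.mem_union_right _ hy) k).trans
          (((hY j).conn gadj_symm hy (hρ j)).mono Set.subset_union_right))
  · intro i j k l m1 m2 h1 h2 h3 h4
    by_cases e : i = 3
    · have e' := h34 i j m1 e
      subst e; subst e'
      rw [if_pos rfl, if_neg h1.symm, Set.disjoint_union_right]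
      exact ⟨hQd _ h1.symm h3.symm, hQd _ h2.symm h4.symm⟩
    · by_cases e2 : k = 3
      · have e' := h34 k l m2 e2
        subst e2; subst e'
        rw [if_pos rfl, if_neg e, Set.disjoint_union_left]
        exact ⟨(hQd _ h1 h2).symm, (hQd _ h3 h4).symm⟩
      · rw [if_neg e, if_neg e2]
        simp only [Set.disjoint_union_left, Set.disjoint_union_right]
        exact ⟨⟨hd _ _ h1, hd _ _ h3⟩, ⟨hd _ _ h2, hd _ _ h4⟩⟩
  · intro i j e
    by_contra k
    exact Set.disjoint_left.1 (hd i j k) (hρ i) (e ▸ hρ j)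

/-- The form for five connected sets. -/
theorem no_K5_sets (Y : Fin 5 → Set (ℕ × ℕ)) (hY : ∀ i, CSet GAdj (Y i))
    (hd : ∀ i j, i ≠ j → Disjoint (Y i) (Y j))
    (ha : ∀ i j, i < j → ∃ x ∈ Y i, ∃ y ∈ Y j, GAdj x y) : False := by
  obtain ⟨x, hx, y, hy, e⟩ := ha 3 4 (by decide)
  refine no_K5_path Y hY hd (fun i j h _ => ha i j h) (Y 3 ∪ Y 4) x y hx hy (Or.inl hx)
    (Conn.step (Set.mem_union_left _ hx) (Set.mem_union_right _ hy) e) (fun i h3 h4 => ?_)
  rw [Set.disjoint_union_left]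
  exact ⟨hd _ _ h3.symm, hd _ _ h4.symm⟩

end Pool.Agent.H795Z.GM
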