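import Pool.Agent.H795Z.GM.Stack

/-! The lower bound. -/

set_option autoImplicit false

namespace Pool.Agent.H795Z.GM

/-- coordinates of a grid vertex -/
def co {n : ℕ} (p : Fin n × Fin n) : ℕ × ℕ := (p.1, p.2)

theorem co_inj {n : ℕ} : Function.Injective (co (n := n)) := fun p q h =>
  Prod.ext (Fin.ext (congrArg Prod.fst h)) (Fin.ext (show (co p).2 = (co q).2 from congrArg Prod.snd h))

theorem grid_adj {n : ℕ} (p q : Fin n × Fin n) : (grid n).Adj p q ↔ GAdj (co p) (co q) := by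
  show |((p.1 : ℕ) : ℤ) - ((q.1 : ℕ) : ℤ)| + |((p.2 : ℕ) : ℤ) - ((q.2 : ℕ) : ℤ)| = 1 ↔ _
  simp only [GAdj, co, abs_eq_max_neg]
  omega

/-- the grid with an extra vertex joined to the points of `S` -/
def hostG (n : ℕ) (S : Set (ℕ × ℕ)) : SimpleGraph (Option (Fin n × Fin n)) where
  Adj x y := RS S (x.map co) (y.map co)
  symm := ⟨fun _ _ h => rs_symm _ _ _ h⟩
  loopless := ⟨by
    rintro (_ | p) h
    · exact h
    · have : GAdj (co p) (co p) := h
      unfold GAdj at this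
      omega⟩

theorem grid_minor {n : ℕ} {V : Type} (G : SimpleGraph V) (ψ : Fin n × Fin n → V)
    (hi : Function.Injective ψ) (h : ∀ p q, GAdj (co p) (co q) → G.Adj (ψ p) (ψ q)) :
    IsMinor (grid n) G := by
  rw [isMinor_iff]
  refine ⟨fun p => {ψ p}, fun p => ⟨ψ p, rfl, ?_⟩, fun p q k => ?_, fun p q k => ?_⟩
  · rintro x rfl
    exact Conn.refl _
  · exact Set.disjoint_singleton.2 (fun e => k (hi e))
  · exact ⟨_, rfl, _, rfl, h p q ((grid_adj p q).1 k)⟩

theorem edist_grid {n : ℕ} {V : Type} (G : SimpleGraph V) (ψ : Fin n × Fin n → V)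
    (h : ∀ p q, GAdj (co p) (co q) → G.Adj (ψ p) (ψ q)) (d : ℕ) : ∀ p q : Fin n × Fin n,
    ((p.1 : ℕ) - q.1) + ((q.1 : ℕ) - p.1) + ((p.2 : ℕ) - q.2) + ((q.2 : ℕ) - p.2) ≤ d →
      G.edist (ψ p) (ψ q) ≤ d := by
  induction d with
  | zero =>
    intro p q k
    have : p = q := Prod.ext (Fin.ext (by omega)) (Fin.ext (by omega))
    simp [this]
  | succ d ih =>
    intro p q k
    by_cases e : p = q
    · simp [e]
    have h1 := p.1.2
    have h2 := p.2.2
    have h3 := q.1.2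
    have h4 := q.2.2
    obtain ⟨p', a, b⟩ : ∃ p' : Fin n × Fin n, GAdj (co p) (co p') ∧
        ((p'.1 : ℕ) - q.1) + ((q.1 : ℕ) - p'.1) + ((p'.2 : ℕ) - q.2) + ((q.2 : ℕ) - p'.2) ≤ d := by
      rcases lt_trichotomy (p.1 : ℕ) q.1 with c | c | c
      · exact ⟨(⟨p.1 + 1, by omega⟩, p.2), by simp [GAdj, co], by simp only; omega⟩
      · rcases lt_trichotomy (p.2 : ℕ) q.2 with c' | c' | c'
        · exact ⟨(p.1, ⟨p.2 + 1, by omega⟩), by simp [GAdj, co], by simp only; omega⟩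
        · exact absurd (Prod.ext (Fin.ext c) (Fin.ext c')) e
        · exact ⟨(p.1, ⟨p.2 - 1, by omega⟩),
            Or.inr ⟨rfl, Or.inr (show (p.2 : ℕ) - 1 + 1 = p.2 by omega)⟩, by simp only; omega⟩
      · exact ⟨(⟨p.1 - 1, by omega⟩, p.2),
          Or.inl ⟨rfl, Or.inr (show (p.1 : ℕ) - 1 + 1 = p.1 by omega)⟩, by simp only; omega⟩
    calc G.edist (ψ p) (ψ q) ≤ G.edist (ψ p) (ψ p') + G.edist (ψ p') (ψ q) :=
          SimpleGraph.edist_triangle
      _ ≤ 1 + d := add_le_add (SimpleGraph.edist_eq_one_iff_adj.2 (h p p' a)).le (ih p' q b)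
      _ = ((d + 1 : ℕ) : ℕ∞) := by push_cast; rw [add_comm]

theorem exists_mdl {t : ℕ} {V : Type} {G : SimpleGraph V} (h : IsMinor (apexA t) G)
    (S : Set (ℕ × ℕ)) (φ : V → Option (ℕ × ℕ)) (hi : Function.Injective φ)
    (ha : ∀ x y, G.Adj x y → RS S (φ x) (φ y)) :
    ∃ B, Mdl S t B ∧ ∀ v x, x ∈ B v → ∃ y, φ y = x := by
  obtain ⟨B, h1, h2, h3⟩ := (isMinor_iff _ _).1 h
  refine ⟨fun v => if h : v < t then φ '' B ⟨v, h⟩ else ∅, ⟨?_, ?_, ?_⟩, ?_⟩
  · intro v hv
    rw [dif_pos hv]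
    obtain ⟨r, hr, k⟩ := h1 ⟨v, hv⟩
    refine ⟨φ r, ⟨r, hr, rfl⟩, ?_⟩
    rintro _ ⟨p, hp, rfl⟩
    exact (k p hp).map φ (fun q hq => ⟨q, hq, rfl⟩) (fun a _ b _ e => ha a b e)
  · intro v w hv hw e
    rw [dif_pos hv, dif_pos hw]
    exact (Set.disjoint_image_iff hi).2 (h2 _ _ (fun k => e (congrArg Fin.val k)))
  · intro v w hv hw e
    rw [dif_pos hv, dif_pos hw]
    obtain ⟨x, hx, y, hy, k⟩ := h3 ⟨v, hv⟩ ⟨w, hw⟩ e
    exact ⟨_, ⟨x, hx, rfl⟩, _, ⟨y, hy, rfl⟩, ha x y k⟩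
  · intro v x hx
    by_cases hv : v < t
    · simp only [dif_pos hv] at hx
      obtain ⟨y, _, e⟩ := hx
      exact ⟨y, e⟩
    · simp only [dif_neg hv] at hx
      exact absurd hx (Set.notMem_empty _)

theorem radius_le {V : Type} (G : SimpleGraph V) (α : V) (r : ℕ∞) (h : ∀ v, G.edist α v ≤ r) :
    G.radius ≤ r :=
  (SimpleGraph.radius_le_eccent (u := α)).trans (iSup_le h)

theorem host_mdl {t n : ℕ} {S : Set (ℕ × ℕ)} (h : IsMinor (apexA t) (hostG n S)) :
    ∃ B, Mdl S t B ∧ ∀ v p, v < t → some p ∈ B v → p.1 < n ∧ p.2 < n := by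
  obtain ⟨B, h1, h2⟩ := exists_mdl h S (Option.map co) (Option.map_injective co_inj)
    (fun _ _ k => k)
  refine ⟨B, h1, fun v p _ hp => ?_⟩
  obtain ⟨_ | y, e⟩ := h2 v _ hp
  · cases e
  · rw [← Option.some.inj e]
    exact ⟨y.1.2, y.2.2⟩

theorem mem_small {t r : ℕ} (ht : 5 ≤ t) (hr : 1 ≤ r) : r ∈ sizes t r := by
  refine ⟨apexA t, apexA_isApex (by omega), Fin r × Fin r, inferInstance, grid r, ?_, ?_,
    grid_minor _ id Function.injective_id (fun p q k => (grid_adj p q).2 k)⟩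
  · refine radius_le _ (⟨r / 2, by omega⟩, ⟨r / 2, by omega⟩) _ (fun v => ?_)
    refine edist_grid (grid r) id (fun p q k => (grid_adj p q).2 k) r _ v ?_
    have := v.1.2
    have := v.2.2
    simp only
    omega
  · intro h
    obtain ⟨B, h1, _⟩ := exists_mdl h ∅ (fun p => some (co p))
      (fun p q e => co_inj (Option.some.inj e)) (fun p q k => (grid_adj p q).1 k)
    exact h1.small ht

theorem mem_deep {t r n : ℕ} (ht : 12 * n + 19 < t) (hr : 1 ≤ r) : n ∈ sizes t r := by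
  refine ⟨apexA t, apexA_isApex (by omega), _, inferInstance, hostG n Set.univ, ?_, ?_,
    grid_minor _ some (Option.some_injective _) (fun p q k => k)⟩
  · refine radius_le _ none _ ?_
    rintro (_ | v)
    · simp
    · have : (hostG n Set.univ).Adj none (some v) := Set.mem_univ (co v)
      rw [SimpleGraph.edist_eq_one_iff_adj.2 this]
      exact_mod_cast hr
  · intro h
    obtain ⟨B, h1, h2⟩ := host_mdl h
    exact h1.deep h2 (by omega)

theorem mem_wide {t h m : ℕ} (ht : 12 * (m * m) + 13 < t) (hm : 1 ≤ m) (hh : 1 ≤ h) :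
    m * h ∈ sizes t (h + 1) := by
  classical
  let S : Finset (ℕ × ℕ) := (Finset.range m ×ˢ Finset.range m).image
    (fun c => (c.1 * h + h / 2, c.2 * h + h / 2))
  refine ⟨apexA t, apexA_isApex (by omega), _, inferInstance, hostG (m * h) S, ?_, ?_,
    grid_minor _ some (Option.some_injective _) (fun p q k => k)⟩
  · refine radius_le _ none _ ?_
    rintro (_ | v)
    · simp
    · have key : ∀ x : Fin (m * h), (x : ℕ) / h < m ∧ (x : ℕ) / h * h + h / 2 < m * h ∧
          (x : ℕ) / h * h ≤ x ∧ (x : ℕ) < x / h * h + h := by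
        intro x
        have a1 : (x : ℕ) / h < m := (Nat.div_lt_iff_lt_mul hh).2 x.2
        have a2 : ((x : ℕ) / h + 1) * h ≤ m * h := Nat.mul_le_mul_right _ a1
        rw [Nat.succ_mul] at a2
        exact ⟨a1, by omega, Nat.div_mul_le_self _ _, Nat.lt_div_mul_add hh⟩
      obtain ⟨a1, a2, a3, a4⟩ := key v.1
      obtain ⟨b1, b2, b3, b4⟩ := key v.2
      let c : Fin (m * h) × Fin (m * h) := (⟨_, a2⟩, ⟨_, b2⟩)
      have hc : (hostG (m * h) S).Adj none (some c) :=
        Finset.mem_coe.2 (Finset.mem_image.2 ⟨(v.1 / h, v.2 / h), by simp [a1, b1], rfl⟩)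
      have := edist_grid (hostG (m * h) S) some (fun p q k => k) h c v (by simp only [c]; omega)
      calc (hostG (m * h) S).edist none (some v) ≤ (hostG (m * h) S).edist none (some c) +
            (hostG (m * h) S).edist (some c) (some v) := SimpleGraph.edist_triangle
        _ ≤ 1 + h := add_le_add (SimpleGraph.edist_eq_one_iff_adj.2 hc).le this
        _ = ((h + 1 : ℕ) : ℕ∞) := by push_cast; rw [add_comm]
  · intro k
    obtain ⟨B, h1, _⟩ := host_mdl k
    exact h1.wide (q := m * m) (Finset.card_image_le.trans (by simp)) (Nat.mul_pos hm hm) (by omega)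

theorem lower {t r : ℕ} (ht : 5 ≤ t) (hr : 1 ≤ r) :
    ∃ n ∈ sizes t r, (1 / 100 : ℝ) * (t + r * √t) ≤ n := by
  have hs : √t * √t = (t : ℝ) := Real.mul_self_sqrt (Nat.cast_nonneg t)
  have hs0 : 0 ≤ √t := Real.sqrt_nonneg _
  have hr' : (1 : ℝ) ≤ r := by exact_mod_cast hr
  have ht' : (5 : ℝ) ≤ t := by exact_mod_cast ht
  by_cases c1 : t < 44
  · refine ⟨r, mem_small ht hr, ?_⟩
    have : (t : ℝ) ≤ 44 := by exact_mod_cast c1.le
    have : √t ≤ 7 := by nlinarith
    nlinarith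
  by_cases c2 : r * √t ≤ t
  · refine ⟨(t - 20) / 12, mem_deep (by omega) hr, ?_⟩
    have : t ≤ 50 * ((t - 20) / 12) := by omega
    have : (t : ℝ) ≤ 50 * ((t - 20) / 12 : ℕ) := by exact_mod_cast this
    linarith
  · push Not at c2
    have h1 : (1 : ℝ) < √t := by nlinarith
    have h2 : 2 ≤ r := by
      by_contra k
      have : r = 1 := by omega
      subst this
      push_cast at c2
      nlinarith
    obtain ⟨h, rfl⟩ : ∃ h, r = h + 1 := ⟨r - 1, by omega⟩
    set m := Nat.sqrt ((t - 14) / 12) with hm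
    have m1 : m * m ≤ (t - 14) / 12 := Nat.sqrt_le _
    have m2 : (t - 14) / 12 < (m + 1) * (m + 1) := Nat.lt_succ_sqrt _
    have m3 : 1 ≤ m := by
      by_contra k
      have : m = 0 := by omega
      rw [this] at m2
      omega
    refine ⟨m * h, mem_wide (by omega) m3 (by omega), ?_⟩
    have m4 : t ≤ 100 * (m * m) := by
      have : t ≤ 12 * ((m + 1) * (m + 1)) + 14 := by omega
      nlinarith
    have m5 : (t : ℝ) ≤ 100 * (m * m) := by exact_mod_cast m4
    have m6 : (1 : ℝ) ≤ m := by exact_mod_cast m3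
    have m7 : √t ≤ 10 * m := by nlinarith
    have m8 : (1 : ℝ) ≤ h := by exact_mod_cast (show 1 ≤ h by omega)
    push_cast at c2 ⊢
    have m9 : ((h : ℝ) + 1) * √t ≤ (2 * h) * (10 * m) :=
      mul_le_mul (by linarith) m7 hs0 (by linarith)
    nlinarith

end Pool.Agent.H795Z.GM
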