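import Pool.Agent.H795Z.GM.Upper
import Pool.Agent.H795Z.GM.Lower

set_option autoImplicit false

namespace Pool.Agent.H795Z.GM

theorem main : ∃ c C : ℝ, 0 < c ∧ 0 < C ∧ ∀ t r : ℕ, 5 ≤ t → 1 ≤ r →
    BddAbove (sizes t r) ∧ c * (t + r * √t) ≤ N t r ∧ (N t r : ℝ) ≤ C * (t + r * √t) := by
  refine ⟨1 / 100, 13000000, by norm_num, by norm_num, fun t r ht hr => ?_⟩
  have hb : BddAbove (sizes t r) :=
    ⟨⌊13000000 * (t + r * √t)⌋₊, fun n hn => Nat.le_floor (upper hn)⟩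
  obtain ⟨n, h1, h2⟩ := lower ht hr
  refine ⟨hb, h2.trans ?_, upper (Nat.sSup_mem ⟨n, h1⟩ hb)⟩
  exact_mod_cast le_csSup hb h1

end Pool.Agent.H795Z.GM
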