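import Pool.Agent.H795Z.GM.Conn

/-! Realising non-crossing partitions in a margin, and assembling the minor. -/

set_option autoImplicit false

namespace Pool.Agent.H795Z.GM

/-- non-crossing relations -/
def NC {M : ℕ} (E : Fin M → Fin M → Prop) : Prop :=
  ∀ a b c d, a < b → b < c → c < d → E a c → E b d → E a b

theorem margin {M n : ℕ} (row : Fin M → ℕ) (hrow : StrictMono row) (hn : ∀ i, row i < n)
    (E : Fin M → Fin M → Prop) (hE : Equivalence E) (hNC : NC E) :
    ∃ T : Fin M → Set (ℕ × ℕ), (∀ i, (0, row i) ∈ T i) ∧ (∀ i, CSet GAdj (T i)) ∧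
      (∀ i j, E i j → T i = T j) ∧ (∀ i j, ¬ E i j → Disjoint (T i) (T j)) ∧
      ∀ i, ∀ p ∈ T i, p.1 < M ∧ p.2 < n := by
  classical
  have hne : ∀ i, (Finset.univ.filter (fun j => E i j)).Nonempty :=
    fun i => ⟨i, by simp [hE.refl i]⟩
  let lo : Fin M → Fin M := fun i => (Finset.univ.filter (fun j => E i j)).min' (hne i)
  let hi : Fin M → Fin M := fun i => (Finset.univ.filter (fun j => E i j)).max' (hne i)
  have hlo1 : ∀ i, E i (lo i) := fun i => by
    have := Finset.min'_mem _ (hne i); simpa using this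
  have hhi1 : ∀ i, E i (hi i) := fun i => by
    have := Finset.max'_mem _ (hne i); simpa using this
  have hlo2 : ∀ i j, E i j → lo i ≤ j := fun i j h => Finset.min'_le _ _ (by simpa using h)
  have hhi2 : ∀ i j, E i j → j ≤ hi i := fun i j h => Finset.le_max' _ _ (by simpa using h)
  have hloE : ∀ i j, E i j → lo i = lo j := fun i j h =>
    le_antisymm (hlo2 _ _ (hE.trans h (hlo1 j))) (hlo2 _ _ (hE.trans (hE.symm h) (hlo1 i)))
  have hhiE : ∀ i j, E i j → hi i = hi j := fun i j h =>
    le_antisymm (hhi2 _ _ (hE.trans (hE.symm h) (hhi1 i))) (hhi2 _ _ (hE.trans h (hhi1 j)))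
  let dp : Fin M → ℕ := fun i => (hi i : ℕ) - (lo i : ℕ)
  have nest : ∀ i k j, ¬ E i k → E k j → lo i ≤ j → j ≤ hi i → dp k < dp i := by
    intro i k j hik hkj h1 h2
    have e1 : lo i ≠ j := fun h => hik (hE.trans (h ▸ hlo1 i) (hE.symm hkj))
    have e2 : j ≠ hi i := fun h => hik (hE.trans (h ▸ hhi1 i) (hE.symm hkj))
    have h1' : lo i < j := lt_of_le_of_ne h1 e1
    have h2' : j < hi i := lt_of_le_of_ne h2 e2
    have hlh : E (lo i) (hi i) := hE.trans (hE.symm (hlo1 i)) (hhi1 i)
    have a1 : lo i < lo k := by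
      by_contra hc
      rcases (not_lt.1 hc).lt_or_eq with hc | hc
      · have := hNC _ _ _ _ hc h1' h2' (hE.trans (hE.symm (hlo1 k)) hkj) hlh
        exact hik (hE.trans (hlo1 i) (hE.trans (hE.symm this) (hE.symm (hlo1 k))))
      · exact hik (hE.trans (hlo1 i) (hc ▸ hE.symm (hlo1 k)))
    have a2 : hi k < hi i := by
      by_contra hc
      rcases (not_lt.1 hc).lt_or_eq with hc | hc
      · have := hNC _ _ _ _ h1' h2' hc hlh (hE.trans (hE.symm hkj) (hhi1 k))
        exact hik (hE.trans (hlo1 i) (hE.trans this (hE.symm hkj)))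
      · exact hik (hE.trans (hhi1 i) (hc ▸ hE.symm (hhi1 k)))
    have a3 : lo k ≤ hi k := hlo2 _ _ (hhi1 k)
    simp only [dp]
    rw [Fin.lt_def] at a1 a2
    rw [Fin.le_def] at a3
    omega
  refine ⟨fun i => {p | (∃ j, E i j ∧ p.2 = row j ∧ p.1 ≤ dp i) ∨
      (p.1 = dp i ∧ row (lo i) ≤ p.2 ∧ p.2 ≤ row (hi i))}, ?_, ?_, ?_, ?_, ?_⟩
  · intro i
    exact Or.inl ⟨i, hE.refl i, rfl, Nat.zero_le _⟩
  · intro i
    have hlh : row (lo i) ≤ row (hi i) := hrow.monotone (hlo2 _ _ (hhi1 i))
    refine ⟨(dp i, row (lo i)), Or.inr ⟨rfl, le_rfl, hlh⟩, ?_⟩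
    have hv : ∀ y, row (lo i) ≤ y → y ≤ row (hi i) → Conn GAdj
        {p | (∃ j, E i j ∧ p.2 = row j ∧ p.1 ≤ dp i) ∨
          (p.1 = dp i ∧ row (lo i) ≤ p.2 ∧ p.2 ≤ row (hi i))} (dp i, row (lo i)) (dp i, y) := by
      intro y h1 h2
      exact conn_col _ _ _ (fun m k1 k2 => Or.inr ⟨rfl, by simp only; omega, by simp only; omega⟩)
    rintro ⟨x, y⟩ (⟨j, hj, h1, h2⟩ | ⟨h1, h2, h3⟩)
    · simp only at h1 h2
      subst h1
      refine (hv _ (hrow.monotone (hlo2 _ _ hj)) (hrow.monotone (hhi2 _ _ hj))).trans ?_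
      exact conn_row _ _ _ (fun m k1 k2 => Or.inl ⟨j, hj, rfl, by simp only; omega⟩)
    · simp only at h1 h2 h3
      subst h1
      exact hv _ h2 h3
  · intro i j h
    have e : dp i = dp j := by simp only [dp]; rw [hloE i j h, hhiE i j h]
    ext p
    simp only [Set.mem_ofPred_eq, e, hloE i j h, hhiE i j h]
    constructor
    · rintro (⟨m, h1, h2⟩ | h1)
      · exact Or.inl ⟨m, hE.trans (hE.symm h) h1, h2⟩
      · exact Or.inr h1
    · rintro (⟨m, h1, h2⟩ | h1)
      · exact Or.inl ⟨m, hE.trans h h1, h2⟩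
      · exact Or.inr h1
  · intro i k hik
    have hki : ¬ E k i := fun h => hik (hE.symm h)
    rw [Set.disjoint_left]
    rintro p (⟨j, hj, h1, h2⟩ | ⟨h1, h2, h3⟩) (⟨j', hj', k1, k2⟩ | ⟨k1, k2, k3⟩)
    · have : j = j' := hrow.injective (h1.symm.trans k1)
      subst this
      exact hik (hE.trans hj (hE.symm hj'))
    · rw [h1] at k2 k3
      have := nest k i j hki hj (hrow.le_iff_le.1 k2) (hrow.le_iff_le.1 k3)
      omega
    · rw [k1] at h2 h3
      have := nest i k j' hik hj' (hrow.le_iff_le.1 h2) (hrow.le_iff_le.1 h3)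
      omega
    · rcases le_total (lo i) (lo k) with h | h
      · have := nest i k (lo k) hik (hlo1 k) h (hrow.le_iff_le.1 (k2.trans h3))
        omega
      · have := nest k i (lo i) hki (hlo1 i) h (hrow.le_iff_le.1 (h2.trans k3))
        omega
  · intro i p hp
    have h0 : dp i < M := by have := (hi i).2; simp only [dp]; omega
    rcases hp with ⟨j, _, h1, h2⟩ | ⟨h1, h2, h3⟩
    · exact ⟨by omega, h1 ▸ hn j⟩
    · exact ⟨by omega, lt_of_le_of_lt h3 (hn _)⟩

/-- A two-page representation of the relation `P` on `N` points. -/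
structure TwoPage {W : Type} (P : W → W → Prop) (N : ℕ) where
  lab : Fin N → W
  mate : Fin N → Fin N → Prop
  surj : Function.Surjective lab
  nc_lab : NC (fun a b => lab a = lab b)
  mate_symm : ∀ a b, mate a b → mate b a
  mate_fun : ∀ a b c, mate a b → mate a c → b = c
  nc_mate : ∀ a b c d, a < b → b < c → c < d → mate a c → mate b d → False
  edge : ∀ u w, P u w → ∃ a b, mate a b ∧ lab a = u ∧ lab b = w

/-- `P` with an additional dominating vertex -/
def apexRel {W : Type} (P : W → W → Prop) : Option W → Option W → Prop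
  | some u, some w => P u w
  | none, some _ => True
  | some _, none => True
  | none, none => False

/-- every non-crossing partition of the terminals can be realised in the region `Rg` -/
def Page {V : Type} (R : V → V → Prop) {M : ℕ} (K : Fin M → Set V) (Rg : Set V) : Prop :=
  ∀ E : Fin M → Fin M → Prop, Equivalence E → NC E → ∃ T : Fin M → Set V,
    (∀ i, T i ⊆ Rg) ∧ (∀ i, CSet R (T i)) ∧ (∀ i j, E i j → T i = T j) ∧
    (∀ i j, ¬ E i j → Disjoint (T i) (T j)) ∧ ∀ i, ∃ x ∈ K i, ∃ y ∈ T i, R x y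

theorem exists_free {M N k : ℕ} (l : Fin M → ℕ) (hl : ∀ i, l i < k) (hM : N + 2 * k ≤ M) :
    ∃ ι : Fin N ↪o Fin M, ∀ a, (∃ j, j < ι a ∧ l j = l (ι a)) ∧
      ∀ i : Fin M, (i : ℕ) = (ι a : ℕ) + 1 → ∃ j, j < i ∧ l j = l i := by
  classical
  let F1 : Finset (Fin M) := Finset.univ.filter (fun i => ¬ ∃ j, j < i ∧ l j = l i)
  have hF1 : F1.card ≤ k := by
    have : F1.card ≤ (Finset.range k).card := by
      refine Finset.card_le_card_of_injOn l (fun i _ => by simpa using hl i) ?_
      intro i hi j hj hij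
      simp only [F1, Finset.coe_filter, Finset.mem_univ, true_and, Set.mem_ofPred_eq] at hi hj
      rcases lt_trichotomy i j with h | h | h
      · exact absurd ⟨i, h, hij⟩ hj
      · exact h
      · exact absurd ⟨j, h, hij.symm⟩ hi
    simpa using this
  let pr : Fin M → Fin M := fun i => ⟨i - 1, by have := i.2; omega⟩
  let F : Finset (Fin M) := F1 ∪ F1.image pr
  have hF : F.card ≤ 2 * k := by
    have h1 := Finset.card_union_le F1 (F1.image pr)
    have h2 : (F1.image pr).card ≤ F1.card := Finset.card_image_le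
    simp only [F]; omega
  have hc : N ≤ Fᶜ.card := by
    rw [Finset.card_compl, Fintype.card_fin]; omega
  refine ⟨Fᶜ.orderEmbOfCardLe hc, fun a => ?_⟩
  have hm := Fᶜ.orderEmbOfCardLe_mem hc a
  generalize Fᶜ.orderEmbOfCardLe hc a = q at hm
  rw [Finset.mem_compl] at hm
  have hm1 : q ∉ F1 := fun h => hm (Finset.mem_union_left _ h)
  have hm2 : q ∉ F1.image pr := fun h => hm (Finset.mem_union_right _ h)
  constructor
  · by_contra h
    exact hm1 (Finset.mem_filter.2 ⟨Finset.mem_univ _, h⟩)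
  · intro i hi
    by_contra h
    refine hm2 (Finset.mem_image.2 ⟨i, Finset.mem_filter.2 ⟨Finset.mem_univ _, h⟩, ?_⟩)
    apply Fin.ext
    show (i : ℕ) - 1 = q
    omega

theorem assemble {V W : Type} {R : V → V → Prop} (hR : ∀ a b, R a b → R b a)
    {P : W → W → Prop} {N : ℕ} (tp : TwoPage P N) {M k : ℕ} (hM : N + 2 * k ≤ M) (hM0 : 0 < M)
    (K : Fin M → Set V) (I : ℕ → Set V) (l : Fin M → ℕ) (hl : ∀ i, l i < k)
    (hK : ∀ i, CSet R (K i)) (hI : ∀ i, CSet R (I (l i)))
    (hKK : ∀ i j, i ≠ j → Disjoint (K i) (K j))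
    (hKI : ∀ i j, Disjoint (K i) (I (l j)))
    (hadj : ∀ i, ∃ x ∈ K i, ∃ y ∈ I (l i), R x y)
    (RL RR : Set V) (hLR : Disjoint RL RR) (hKL : ∀ i, Disjoint (K i) RL)
    (hKR : ∀ i, Disjoint (K i) RR) (hIL : ∀ i, Disjoint (I (l i)) RL)
    (hIR : ∀ i, Disjoint (I (l i)) RR) (pL : Page R K RL) (pR : Page R K RR) :
    RMinor (apexRel P) R := by
  classical
  obtain ⟨ι, hι⟩ := exists_free l hl hM
  let o : Fin M → Option W := fun i => if h : ∃ a, ι a = i then some (tp.lab h.choose) else none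
  have ho1 : ∀ a, o (ι a) = some (tp.lab a) := by
    intro a
    have h : ∃ b, ι b = ι a := ⟨a, rfl⟩
    simp only [o, dif_pos h]
    rw [ι.injective h.choose_spec]
  have ho2 : ∀ i u, o i = some u → ∃ a, ι a = i ∧ tp.lab a = u := by
    intro i u h
    by_cases k : ∃ a, ι a = i
    · obtain ⟨a, rfl⟩ := k
      rw [ho1] at h
      exact ⟨a, rfl, Option.some.inj h⟩
    · simp [o, dif_neg k] at h
  have ho3 : ∀ i, (¬ ∃ a, ι a = i) → o i = none := fun i k => by simp only [o, dif_neg k]
  let EL : Fin M → Fin M → Prop := fun i j => (∃ u, o i = some u ∧ o j = some u) ∨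
    ∀ m, min i j ≤ m → m ≤ max i j → o m = none
  have hELo : ∀ i j, EL i j → o i = o j := by
    rintro i j (⟨u, h1, h2⟩ | h)
    · rw [h1, h2]
    · rw [h i (min_le_left _ _) (le_max_left _ _), h j (min_le_right _ _) (le_max_right _ _)]
  have hEL : Equivalence EL := by
    refine ⟨fun i => ?_, ?_, ?_⟩
    · cases h : o i with
      | none =>
        refine Or.inr fun m h1 h2 => ?_
        rw [min_self] at h1; rw [max_self] at h2
        rw [le_antisymm h2 h1, h]
      | some u => exact Or.inl ⟨u, h, h⟩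
    · rintro i j (⟨u, h1, h2⟩ | h)
      · exact Or.inl ⟨u, h2, h1⟩
      · exact Or.inr fun m h1 h2 => h m (min_comm i j ▸ h1) (max_comm i j ▸ h2)
    · intro i j m hij hjm
      rcases hij with ⟨u, h1, h2⟩ | h
      · exact Or.inl ⟨u, h1, by rw [← hELo _ _ hjm, h2]⟩
      · rcases hjm with ⟨u, h1, h2⟩ | h'
        · rw [h j (min_le_right _ _) (le_max_right _ _)] at h1; cases h1
        · refine Or.inr fun q h1 h2 => ?_
          by_cases c : min i j ≤ q ∧ q ≤ max i j
          · exact h q c.1 c.2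
          · apply h' q
            · simp only [min_le_iff, le_max_iff, not_and_or, not_or, not_le] at *
              rcases c with c | c <;> rcases h1 with h1 | h1 <;> rcases h2 with h2 | h2 <;> omega
            · simp only [min_le_iff, le_max_iff, not_and_or, not_or, not_le] at *
              rcases c with c | c <;> rcases h1 with h1 | h1 <;> rcases h2 with h2 | h2 <;> omega
  have hNL : NC EL := by
    intro a b c d hab hbc hcd hac hbd
    rcases hac with ⟨u, h1, h2⟩ | h
    · rcases hbd with ⟨w, k1, k2⟩ | k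
      · obtain ⟨a', rfl, ha⟩ := ho2 _ _ h1
        obtain ⟨c', rfl, hc⟩ := ho2 _ _ h2
        obtain ⟨b', rfl, hb⟩ := ho2 _ _ k1
        obtain ⟨d', rfl, hd⟩ := ho2 _ _ k2
        have := tp.nc_lab a' b' c' d' (ι.lt_iff_lt.1 hab) (ι.lt_iff_lt.1 hbc) (ι.lt_iff_lt.1 hcd)
          (ha.trans hc.symm) (hb.trans hd.symm)
        exact Or.inl ⟨u, h1, by rw [ho1, ← this, ha]⟩
      · rw [k c (by rw [min_eq_left (hbc.trans hcd).le]; exact hbc.le)
          (by rw [max_eq_right (hbc.trans hcd).le]; exact hcd.le)] at h2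
        cases h2
    · refine Or.inr fun m h1 h2 => h m ?_ ?_
      · rw [min_eq_left hab.le] at h1; rw [min_eq_left (hab.trans hbc).le]; exact h1
      · rw [max_eq_right hab.le] at h2; rw [max_eq_right (hab.trans hbc).le]
        exact h2.trans hbc.le
  let ER : Fin M → Fin M → Prop := fun i j => i = j ∨ ∃ a b, ι a = i ∧ ι b = j ∧ tp.mate a b
  have hER : Equivalence ER := by
    refine ⟨fun i => Or.inl rfl, ?_, ?_⟩
    · rintro i j (h | ⟨a, b, h1, h2, h3⟩)
      · exact Or.inl h.symm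
      · exact Or.inr ⟨b, a, h2, h1, tp.mate_symm _ _ h3⟩
    · rintro i j m (rfl | ⟨a, b, h1, h2, h3⟩) hjm
      · exact hjm
      · rcases hjm with rfl | ⟨b', c, k1, k2, k3⟩
        · exact Or.inr ⟨a, b, h1, h2, h3⟩
        · have : b' = b := ι.injective (k1.trans h2.symm)
          subst this
          left
          rw [← h1, ← k2, tp.mate_fun _ _ _ (tp.mate_symm _ _ h3) k3]
  have hNR : NC ER := by
    intro a b c d hab hbc hcd hac hbd
    rcases hac with rfl | ⟨a', c', rfl, rfl, h⟩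
    · exact absurd (hab.trans hbc) (lt_irrefl _)
    · rcases hbd with rfl | ⟨b', d', rfl, rfl, h'⟩
      · exact absurd (hbc.trans hcd) (lt_irrefl _)
      · exact (tp.nc_mate a' b' c' d' (ι.lt_iff_lt.1 hab) (ι.lt_iff_lt.1 hbc)
          (ι.lt_iff_lt.1 hcd) h h').elim
  obtain ⟨TL, L1, L2, L3, L4, L5⟩ := pL EL hEL hNL
  obtain ⟨TR, R1, R2, R3, R4, R5⟩ := pR ER hER hNR
  let B : Option W → Set V := fun x => {v | (∃ i, o i = x ∧ (v ∈ K i ∨ v ∈ TL i)) ∨
    (∃ i, o i = x ∧ x ≠ none ∧ (∀ j, ER i j → i ≤ j) ∧ v ∈ TR i) ∨ (x = none ∧ ∃ i, v ∈ I (l i))}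
  have sK : ∀ i, K i ⊆ B (o i) := fun i v hv => Or.inl ⟨i, rfl, Or.inl hv⟩
  have sL : ∀ i, TL i ⊆ B (o i) := fun i v hv => Or.inl ⟨i, rfl, Or.inr hv⟩
  have sI : ∀ i, I (l i) ⊆ B none := fun i v hv => Or.inr (Or.inr ⟨rfl, i, hv⟩)
  -- joining a hook to its left set
  have cKL : ∀ i, ∀ x ∈ K i, ∀ y ∈ TL i, Conn R (B (o i)) x y := by
    intro i x hx y hy
    obtain ⟨p, hp, q, hq, hpq⟩ := L5 i
    exact (((hK i).conn hR hx hp).mono (sK i)).trans
      ((Conn.step (sK i hp) (sL i hq) hpq).trans (((L2 i).conn hR hq hy).mono (sL i)))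
  have cKK : ∀ i j, EL i j → ∀ x ∈ K i, ∀ y ∈ K j, Conn R (B (o i)) x y := by
    intro i j hij x hx y hy
    obtain ⟨q, hq, _⟩ := L2 i
    refine (cKL i x hx q hq).trans ?_
    rw [hELo i j hij]
    exact (cKL j y hy q (L3 i j hij ▸ hq)).symm hR
  have cKI : ∀ i, o i = none → ∀ x ∈ K i, ∀ y ∈ I (l i), Conn R (B none) x y := by
    intro i hi x hx y hy
    obtain ⟨p, hp, q, hq, hpq⟩ := hadj i
    have s := sK i
    rw [hi] at s
    exact (((hK i).conn hR hx hp).mono s).trans
      ((Conn.step (s hp) (sI i hq) hpq).trans (((hI i).conn hR hq hy).mono (sI i)))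
  refine ⟨B, ?_, ?_, ?_⟩
  · rintro (_ | u)
    · obtain ⟨ρ, hρ, _⟩ := hI ⟨0, hM0⟩
      have key : ∀ (m : ℕ) (i : Fin M), (i : ℕ) = m → ∀ y ∈ I (l i), Conn R (B none) ρ y := by
        intro m
        induction m using Nat.strong_induction_on with
        | _ m ih =>
          intro i hi y hy
          by_cases c : ∃ j, j < i ∧ l j = l i
          · obtain ⟨j, hj, e⟩ := c
            exact ih j (hi ▸ hj) j rfl y (e ▸ hy)
          · rcases Nat.eq_zero_or_pos m with rfl | hm
            · have : i = ⟨0, hM0⟩ := Fin.ext hi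
              subst this
              exact ((hI _).conn hR hρ hy).mono (sI _)
            · let j : Fin M := ⟨m - 1, by have := i.2; omega⟩
              have oi : o i = none := ho3 i (by rintro ⟨a, rfl⟩; exact c (hι a).1)
              have oj : o j = none := ho3 j (by
                rintro ⟨a, ha⟩
                exact c ((hι a).2 i (by rw [ha]; simp only [j]; omega)))
              have hji : EL j i := by
                refine Or.inr fun q h1 h2 => ?_
                have hle : j ≤ i := by rw [Fin.le_def]; simp only [j]; omega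
                rw [min_eq_left hle] at h1; rw [max_eq_right hle] at h2
                have : q = j ∨ q = i := by
                  rw [Fin.le_def] at h1 h2
                  simp only [Fin.ext_iff, j] at *
                  omega
                rcases this with rfl | rfl
                · exact oj
                · exact oi
              obtain ⟨p, hp, q, hq, _⟩ := hadj j
              obtain ⟨p', hp', _⟩ := hK i
              have c1 := cKK j i hji p hp p' hp'
              rw [oj] at c1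
              exact (ih (m - 1) (by omega) j rfl q hq).trans
                (((cKI j oj p hp q hq).symm hR).trans (c1.trans (cKI i oi p' hp' y hy)))
      refine ⟨ρ, sI _ hρ, ?_⟩
      rintro v (⟨i, hi, hv⟩ | ⟨i, _, h, _⟩ | ⟨_, i, hv⟩)
      · obtain ⟨p, hp, q, hq, _⟩ := hadj i
        have c1 := (key _ i rfl q hq).trans ((cKI i hi p hp q hq).symm hR)
        rcases hv with hv | hv
        · have s := sK i
          rw [hi] at s
          exact c1.trans (((hK i).conn hR hp hv).mono s)
        · have := cKL i p hp v hv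
          rw [hi] at this
          exact c1.trans this
      · exact absurd rfl h
      · exact key _ i rfl v hv
    · obtain ⟨a, ha⟩ := tp.surj u
      have oa : o (ι a) = some u := by rw [ho1, ha]
      obtain ⟨ρ, hρ, _⟩ := hK (ι a)
      have key : ∀ i, o i = some u → ∀ x ∈ K i, Conn R (B (some u)) ρ x := by
        intro i hi x hx
        have := cKK (ι a) i (Or.inl ⟨u, oa, hi⟩) ρ hρ x hx
        rwa [oa] at this
      refine ⟨ρ, oa ▸ sK _ hρ, ?_⟩
      rintro v (⟨i, hi, hv | hv⟩ | ⟨i, hi, h, h', hv⟩ | ⟨h, _⟩)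
      · exact key i hi v hv
      · obtain ⟨p, hp, _⟩ := hK i
        have := cKL i p hp v hv
        rw [hi] at this
        exact (key i hi p hp).trans this
      · obtain ⟨p, hp, q, hq, hpq⟩ := R5 i
        have s : TR i ⊆ B (some u) := fun z hz => Or.inr (Or.inl ⟨i, hi, h, h', hz⟩)
        exact (key i hi p hp).trans ((Conn.step (hi ▸ sK i hp) (s hq) hpq).trans
          (((R2 i).conn hR hq hv).mono s))
      · cases h
  · intro x x' hxx
    rw [Set.disjoint_left]
    rintro v (⟨i, hi, hv | hv⟩ | ⟨i, hi, h, h', hv⟩ | ⟨h, i, hv⟩)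
      (⟨j, hj, hw | hw⟩ | ⟨j, hj, k, k', hw⟩ | ⟨k, j, hw⟩)
    · exact Set.disjoint_left.1 (hKK i j (by rintro rfl; exact hxx (hi.symm.trans hj))) hv hw
    · exact Set.disjoint_left.1 (hKL i) hv (L1 j hw)
    · exact Set.disjoint_left.1 (hKR i) hv (R1 j hw)
    · exact Set.disjoint_left.1 (hKI i j) hv hw
    · exact Set.disjoint_left.1 (hKL j) hw (L1 i hv)
    · exact Set.disjoint_left.1 (L4 i j (fun e => hxx (hi.symm.trans ((hELo _ _ e).trans hj)))) hv hw
    · exact Set.disjoint_left.1 hLR (L1 i hv) (R1 j hw)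
    · exact Set.disjoint_left.1 (hIL j) hw (L1 i hv)
    · exact Set.disjoint_left.1 (hKR j) hw (R1 i hv)
    · exact Set.disjoint_left.1 hLR (L1 j hw) (R1 i hv)
    · refine Set.disjoint_left.1 (R4 i j (fun e => ?_)) hv hw
      have : i = j := le_antisymm (h' j e) (k' i (hER.symm e))
      subst this
      exact hxx (hi.symm.trans hj)
    · exact Set.disjoint_left.1 (hIR j) hw (R1 i hv)
    · exact Set.disjoint_left.1 (hKI j i) hw hv
    · exact Set.disjoint_left.1 (hIL i) hv (L1 j hw)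
    · exact Set.disjoint_left.1 (hIR i) hv (R1 j hw)
    · exact hxx (h.trans k.symm)
  · have hz : ∀ u, ∃ x ∈ B (some u), ∃ y ∈ B none, R x y := by
      intro u
      obtain ⟨a, ha⟩ := tp.surj u
      obtain ⟨p, hp, q, hq, hpq⟩ := hadj (ι a)
      exact ⟨p, by rw [← ha, ← ho1]; exact sK _ hp, q, sI _ hq, hpq⟩
    have he : ∀ a b, tp.mate a b → a ≤ b →
        ∃ x ∈ B (some (tp.lab a)), ∃ y ∈ B (some (tp.lab b)), R x y := by
      intro a b hab hle
      obtain ⟨p, hp, q, hq, hpq⟩ := R5 (ι b)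
      refine ⟨q, Or.inr (Or.inl ⟨ι a, ho1 a, by simp, ?_, ?_⟩), p, ?_, hR _ _ hpq⟩
      · rintro j (rfl | ⟨a', b', h1, rfl, h3⟩)
        · exact le_rfl
        · rw [ι.injective h1] at h3
          rw [tp.mate_fun _ _ _ h3 hab]
          exact ι.monotone hle
      · rw [R3 (ι a) (ι b) (Or.inr ⟨a, b, rfl, rfl, hab⟩)]; exact hq
      · rw [← ho1]; exact sK _ hp
    rintro (_ | u) (_ | w) h
    · exact h.elim
    · obtain ⟨x, hx, y, hy, h⟩ := hz w
      exact ⟨y, hy, x, hx, hR _ _ h⟩
    · exact hz u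
    · obtain ⟨a, b, hab, rfl, rfl⟩ := tp.edge u w h
      rcases le_total a b with hle | hle
      · exact he a b hab hle
      · obtain ⟨x, hx, y, hy, h⟩ := he b a (tp.mate_symm _ _ hab) hle
        exact ⟨y, hy, x, hx, hR _ _ h⟩

end Pool.Agent.H795Z.GM
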