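import Pool.Agent.H795Z.GM.Core

/-! Selecting jumps from the radius hypothesis. -/

set_option autoImplicit false

namespace Pool.Agent.H795Z.GM

theorem horiz {W : Type} {R : ℕ × ℕ → ℕ × ℕ → Prop} (hR : ∀ a b, R a b → R b a) {n : ℕ}
    (hb : HasBox R n) {P : W → W → Prop} {N : ℕ} (tp : TwoPage P N)
    (J : Finset (ℕ × ℕ)) (s ρ μ : ℕ) (hM : 4 * (12 * N + 32 * s + 40) ≤ J.card) (g : ℕ → ℕ)
    (hg : ∀ j j', j < j' → g j + ρ + 4 * s ≤ g j') (hg0 : 2 * μ + 4 * s ≤ g 0)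
    (hgn : g s + 2 * μ ≤ n) (hMμ : J.card ≤ μ)
    (hJ : ∀ c ∈ J, c.1 < s ∧ c.2 < s) (x y : ℕ × ℕ → ℕ × ℕ)
    (hx : ∀ c ∈ J, g c.1 ≤ (x c).1 ∧ (x c).1 < g c.1 + ρ ∧ g c.2 ≤ (x c).2 ∧ (x c).2 < g c.2 + ρ)
    (hy : ∀ c ∈ J, (y c).1 < n ∧ (y c).2 < n)
    (hxy : ∀ c ∈ J, ((x c).1 + 2 ≤ (y c).1 ∨ (y c).1 + 2 ≤ (x c).1) ∧ R (x c) (y c)) :
    RMinor (apexRel P) R := by
  classical
  have hg1 : ∀ j, g 0 ≤ g j := fun j => by
    rcases Nat.eq_zero_or_pos j with rfl | h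
    · exact le_rfl
    · have := hg 0 j h; omega
  have aux : ∀ (e a b : ℕ) (J' : Finset (ℕ × ℕ)), e ≤ 2 * s → μ ≤ a → a ≤ 2 * μ → b + μ ≤ n →
      n ≤ b + 2 * μ → J' ⊆ J → J.card ≤ 4 * J'.card →
      (∀ c ∈ J', Allowed (fun j => g j - 4 * s + e) s s a b μ (y c)) → RMinor (apexRel P) R := by
    intro e a b J' he ha1 ha2 hb1 hb2 hJ' hc hA
    refine core hR hb tp J' s (by omega) (fun j => g j - 4 * s + e) a b μ ?_ ?_ ha1 hb1
      ((Finset.card_le_card hJ').trans hMμ) (fun c hc => hJ c (hJ' hc)) x y ?_ ?_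
      (fun c hc => ⟨(hy c (hJ' hc)).1, (hy c (hJ' hc)).2, hA c hc⟩) (fun c hc => hxy c (hJ' hc))
    · intro j j' h
      have := hg j j' h
      have := hg1 j
      omega
    · have := hg1 s
      omega
    · intro c hc
      have h1 := hx c (hJ' hc)
      have h2 := hJ c (hJ' hc)
      have := hg c.1 s h2.1
      have := hg c.2 (c.2 + 1) (by omega)
      have := hg1 c.1
      have := hg1 c.2
      omega
    · intro c hc d hd h1 h2
      have k1 := hx c (hJ' hc)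
      have k2 := hx d (hJ' hd)
      refine Prod.ext ?_ h2
      rcases lt_trichotomy c.1 d.1 with h | h | h
      · have := hg _ _ h; omega
      · exact h
      · have := hg _ _ h; omega
  let good : ℕ → ℕ × ℕ → Prop := fun e c => ∀ j, j ≤ s →
    (y c).2 < g j - 4 * s + e ∨ g j - 4 * s + e + 2 * s ≤ (y c).2
  have hgood : ∀ c ∈ J, good 0 c ∨ good (2 * s) c := by
    intro c _
    by_contra k
    simp only [good, not_or, not_forall] at k
    obtain ⟨⟨j, _, h1⟩, ⟨j', _, h2⟩⟩ := k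
    have := hg1 j
    have := hg1 j'
    rcases lt_trichotomy j j' with h | h | h
    · have := hg _ _ h; omega
    · subst h; omega
    · have := hg _ _ h; omega
  have hμn : 2 * μ ≤ n := by omega
  have step : ∀ e, e ≤ 2 * s → J.card ≤ 2 * (J.filter (good e)).card → RMinor (apexRel P) R := by
    intro e he h
    rcases half (J.filter (good e)) (fun c => μ ≤ (y c).1 ∧ (y c).1 < n - μ)
      (fun c => ¬ (μ ≤ (y c).1 ∧ (y c).1 < n - μ)) (fun c _ => em _) with k | k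
    · refine aux e μ (n - μ) ((J.filter (good e)).filter (fun c => μ ≤ (y c).1 ∧ (y c).1 < n - μ)) he le_rfl (by omega) (by omega) (by omega)
        ((Finset.filter_subset _ _).trans (Finset.filter_subset _ _)) (h.trans (by omega)) ?_
      intro c hc
      obtain ⟨h1, h2⟩ := Finset.mem_filter.1 hc
      exact Or.inr (Or.inr ⟨h2.1, h2.2, (Finset.mem_filter.1 h1).2⟩)
    · refine aux e (2 * μ) (n - 2 * μ)
        ((J.filter (good e)).filter (fun c => ¬ (μ ≤ (y c).1 ∧ (y c).1 < n - μ))) he (by omega) le_rfl (by omega) (by omega)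
        ((Finset.filter_subset _ _).trans (Finset.filter_subset _ _)) (h.trans (by omega)) ?_
      intro c hc
      obtain ⟨h1, h2⟩ := Finset.mem_filter.1 hc
      by_cases k : (y c).1 < μ
      · exact Or.inl (by omega)
      · exact Or.inr (Or.inl (by omega))
  rcases half J (good 0) (good (2 * s)) hgood with h | h
  · exact step 0 (by omega) h
  · exact step _ le_rfl h

theorem RMinor.swap {W : Type} {H : W → W → Prop} {R : ℕ × ℕ → ℕ × ℕ → Prop}
    (h : RMinor H (fun p q : ℕ × ℕ => R p.swap q.swap)) : RMinor H R := by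
  obtain ⟨B, h1, h2, h3⟩ := h
  refine ⟨fun w => Prod.swap '' B w, fun w => ?_, fun w w' hw => ?_, fun w w' hw => ?_⟩
  · obtain ⟨r, hr, k⟩ := h1 w
    refine ⟨r.swap, ⟨r, hr, rfl⟩, ?_⟩
    rintro _ ⟨p, hp, rfl⟩
    exact (k p hp).map Prod.swap (fun q hq => ⟨q, hq, rfl⟩) (fun _ _ _ _ e => e)
  · exact (Set.disjoint_image_iff Prod.swap_injective).2 (h2 w w' hw)
  · obtain ⟨x, hx, y, hy, e⟩ := h3 w w' hw
    exact ⟨_, ⟨x, hx, rfl⟩, _, ⟨y, hy, rfl⟩, e⟩

/-- every point of the box is joined to `α` by a path of length at most `r` in the box -/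
def Near (R : ℕ × ℕ → ℕ × ℕ → Prop) (n r : ℕ) (α : ℕ × ℕ) : Prop :=
  ∀ p : ℕ × ℕ, p.1 < n → p.2 < n → ∃ (f : ℕ → ℕ × ℕ) (m : ℕ), m ≤ r ∧ f 0 = p ∧ f m = α ∧
    (∀ i, i < m → f i = f (i + 1) ∨ R (f i) (f (i + 1))) ∧ ∀ i, (f i).1 < n ∧ (f i).2 < n

theorem exists_jump {R : ℕ × ℕ → ℕ × ℕ → Prop} {n r : ℕ} {α : ℕ × ℕ} (h : Near R n r α)
    (u v : ℕ) (hu : u + r < n) (hv : v + r < n)
    (hα : ¬ (u ≤ α.1 ∧ α.1 < u + (2 * r + 1) ∧ v ≤ α.2 ∧ α.2 < v + (2 * r + 1))) :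
    ∃ x y : ℕ × ℕ, (u ≤ x.1 ∧ x.1 < u + (2 * r + 1) ∧ v ≤ x.2 ∧ x.2 < v + (2 * r + 1)) ∧
      (y.1 < n ∧ y.2 < n) ∧ R x y ∧
      ((x.1 + 2 ≤ y.1 ∨ y.1 + 2 ≤ x.1) ∨ (x.2 + 2 ≤ y.2 ∨ y.2 + 2 ≤ x.2)) := by
  obtain ⟨f, m, hm, f0, fm, hf, hbox⟩ := h (u + r, v + r) hu hv
  by_contra k
  push Not at k
  have key : ∀ i, i ≤ m → u + r ≤ (f i).1 + i ∧ (f i).1 ≤ u + r + i ∧
      v + r ≤ (f i).2 + i ∧ (f i).2 ≤ v + r + i := by
    intro i
    induction i with
    | zero => intro _; rw [f0]; simp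
    | succ i ih =>
      intro hi
      have h1 := ih (by omega)
      rcases hf i (by omega) with e | e
      · rw [← e]; omega
      · have := k (f i) (f (i + 1)) (by omega) (hbox _) e
        omega
  have := key m le_rfl
  rw [fm] at this
  omega

theorem host_minor {W : Type} {R : ℕ × ℕ → ℕ × ℕ → Prop} (hR : ∀ a b, R a b → R b a) {n : ℕ}
    (hb : HasBox R n) {P : W → W → Prop} {N : ℕ} (tp : TwoPage P N) {r : ℕ} {α : ℕ × ℕ}
    (hN : Near R n r α) (s : ℕ) (hs : 8 * (12 * N + 32 * s + 40) + 1 ≤ s * s)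
    (hn : 4 * (s * s) + 4 * s + s * (2 * r + 1 + 4 * s) ≤ n) : RMinor (apexRel P) R := by
  classical
  let g : ℕ → ℕ := fun j => 2 * (s * s) + 4 * s + j * (2 * r + 1 + 4 * s)
  have hg : ∀ j j', j < j' → g j + (2 * r + 1) + 4 * s ≤ g j' := by
    intro j j' h
    have : (j + 1) * (2 * r + 1 + 4 * s) ≤ j' * (2 * r + 1 + 4 * s) := Nat.mul_le_mul_right _ h
    simp only [g]
    rw [Nat.succ_mul] at this
    omega
  have hg0 : 2 * (s * s) + 4 * s ≤ g 0 := by simp [g]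
  have hgn : g s + 2 * (s * s) ≤ n := by simp only [g]; omega
  clear_value g
  let inC : ℕ × ℕ → ℕ × ℕ → Prop := fun c p =>
    g c.1 ≤ p.1 ∧ p.1 < g c.1 + (2 * r + 1) ∧ g c.2 ≤ p.2 ∧ p.2 < g c.2 + (2 * r + 1)
  let S := Finset.range s ×ˢ Finset.range s
  have hS : S.card = s * s := by simp [S]
  let J := S.filter (fun c => ¬ inC c α)
  have hJc : s * s ≤ J.card + 1 := by
    have h1 := Finset.card_filter_add_card_filter_not (s := S) (fun c => inC c α)
    have h2 : (S.filter (fun c => inC c α)).card ≤ 1 := by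
      rw [Finset.card_le_one]
      intro c hc d hd
      obtain ⟨_, k1⟩ := Finset.mem_filter.1 hc
      obtain ⟨_, k2⟩ := Finset.mem_filter.1 hd
      simp only [inC] at k1 k2
      apply Prod.ext
      · rcases lt_trichotomy c.1 d.1 with h | h | h
        · have := hg _ _ h; omega
        · exact h
        · have := hg _ _ h; omega
      · rcases lt_trichotomy c.2 d.2 with h | h | h
        · have := hg _ _ h; omega
        · exact h
        · have := hg _ _ h; omega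
    simp only [J]; omega
  have hJle : J.card ≤ s * s := hS ▸ Finset.card_filter_le _ _
  have hJ : ∀ c ∈ J, c.1 < s ∧ c.2 < s := fun c hc => by
    simpa [S] using (Finset.mem_filter.1 hc).1
  have hex : ∀ c, c ∈ J → ∃ x y : ℕ × ℕ, inC c x ∧ (y.1 < n ∧ y.2 < n) ∧ R x y ∧
      ((x.1 + 2 ≤ y.1 ∨ y.1 + 2 ≤ x.1) ∨ (x.2 + 2 ≤ y.2 ∨ y.2 + 2 ≤ x.2)) := by
    intro c hc
    have h1 := hJ c hc
    have := hg _ _ h1.1
    have := hg _ _ h1.2
    exact exists_jump hN _ _ (by omega) (by omega) (Finset.mem_filter.1 hc).2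
  choose! x y hx hy hxy hlong using hex
  rcases half J (fun c => (x c).1 + 2 ≤ (y c).1 ∨ (y c).1 + 2 ≤ (x c).1)
    (fun c => (x c).2 + 2 ≤ (y c).2 ∨ (y c).2 + 2 ≤ (x c).2) hlong with h | h
  · set J' := J.filter (fun c => (x c).1 + 2 ≤ (y c).1 ∨ (y c).1 + 2 ≤ (x c).1)
    have hs' : J' ⊆ J := Finset.filter_subset _ _
    exact horiz hR hb tp J' s (2 * r + 1) (s * s) (by omega) g hg hg0 hgn
      ((Finset.card_le_card hs').trans hJle) (fun c hc => hJ c (hs' hc)) x y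
      (fun c hc => hx c (hs' hc)) (fun c hc => hy c (hs' hc))
      (fun c hc => ⟨(Finset.mem_filter.1 hc).2, hxy c (hs' hc)⟩)
  · set J' := J.filter (fun c => (x c).2 + 2 ≤ (y c).2 ∨ (y c).2 + 2 ≤ (x c).2)
    have hs' : J' ⊆ J := Finset.filter_subset _ _
    have hc : (J'.image Prod.swap).card = J'.card :=
      Finset.card_image_of_injective _ Prod.swap_injective
    have hm : ∀ c ∈ J'.image Prod.swap, c.swap ∈ J' := by
      intro c hc
      obtain ⟨d, hd, rfl⟩ := Finset.mem_image.1 hc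
      exact hd
    apply RMinor.swap
    refine horiz (R := fun p q : ℕ × ℕ => R p.swap q.swap) (fun a b h => hR _ _ h) (n := n) ?_ tp
      (J'.image Prod.swap) s (2 * r + 1) (s * s) (by omega) g hg hg0 hgn
      (hc ▸ (Finset.card_le_card hs').trans hJle) (fun c hc => (hJ _ (hs' (hm c hc))).symm)
      (fun c => (x c.swap).swap) (fun c => (y c.swap).swap) ?_
      (fun c hc => (hy _ (hs' (hm c hc))).symm)
      (fun c hc => ⟨(Finset.mem_filter.1 (hm c hc)).2, hxy _ (hs' (hm c hc))⟩)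
    · intro p q h1 h2 h3 h4 h5
      refine hb _ _ h2 h1 h4 h3 ?_
      unfold GAdj at *
      simp only [Prod.fst_swap, Prod.snd_swap]
      omega
    · intro c hc
      have := hx _ (hs' (hm c hc))
      exact ⟨this.2.2.1, this.2.2.2, this.1, this.2.1⟩

end Pool.Agent.H795Z.GM
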