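import Pool.Agent.H795Z.GM.K5
import Pool.Agent.H795Z.GM.ApexA

/-! Models of the nested triangles with a dominating vertex in a grid with one extra vertex. -/

set_option autoImplicit false

namespace Pool.Agent.H795Z.GM

/-- the grid with an extra vertex joined to `S` -/
def RS (S : Set (ℕ × ℕ)) : Option (ℕ × ℕ) → Option (ℕ × ℕ) → Prop
  | some p, some q => GAdj p q
  | none, some q => q ∈ S
  | some p, none => p ∈ S
  | none, none => False

theorem rs_symm (S : Set (ℕ × ℕ)) : ∀ a b, RS S a b → RS S b a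
  | some _, some _, h => h.symm
  | none, some _, h => h
  | some _, none, h => h
  | none, none, h => h

theorem flat_cset {S : Set (ℕ × ℕ)} {X : Set (Option (ℕ × ℕ))} (h0 : none ∉ X)
    (h : CSet (RS S) X) : CSet GAdj (some ⁻¹' X) := by
  obtain ⟨r, hr, k⟩ := h
  obtain _ | r := r
  · exact absurd hr h0
  refine ⟨r, hr, fun x hx => ?_⟩
  have key : ∀ y, Conn (RS S) X (some r) y → ∀ q, y = some q → Conn GAdj (some ⁻¹' X) r q := by
    intro y hy
    induction hy with
    | refl => intro q e; rw [Option.some.inj e]; exact Conn.refl _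
    | @tail a b _ k ih =>
      intro q e
      subst e
      obtain _ | a := a
      · exact absurd k.1 h0
      · exact (ih a rfl).trans (Conn.step k.1 k.2.1 k.2.2)
  exact key _ (k _ hx) x rfl

theorem cset_union {V : Type} {R : V → V → Prop} (hR : ∀ a b, R a b → R b a) {X Y : Set V}
    (hX : CSet R X) (hY : CSet R Y) (h : ∃ x ∈ X, ∃ y ∈ Y, R x y) : CSet R (X ∪ Y) := by
  obtain ⟨x, hx, y, hy, e⟩ := h
  refine ⟨x, Or.inl hx, ?_⟩
  rintro z (hz | hz)
  · exact (hX.conn hR hx hz).mono Set.subset_union_left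
  · exact (Conn.step (Set.mem_union_left _ hx) (Set.mem_union_right _ hy) e).trans
      ((hY.conn hR hy hz).mono Set.subset_union_right)

theorem hit_card {α : Type} (K : Finset ℕ) (X : ℕ → Set α)
    (hX : ∀ i ∈ K, ∀ j ∈ K, i ≠ j → Disjoint (X i) (X j)) (T : Finset α)
    [DecidablePred fun i => ∃ x ∈ T, x ∈ X i] :
    (K.filter (fun i => ∃ x ∈ T, x ∈ X i)).card ≤ T.card := by
  classical
  rcases (K.filter (fun i => ∃ x ∈ T, x ∈ X i)).eq_empty_or_nonempty with h | ⟨i0, h0⟩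
  · rw [h]; simp
  obtain ⟨x0, _⟩ := (Finset.mem_filter.1 h0).2
  have : Nonempty α := ⟨x0⟩
  have hex : ∀ i, i ∈ K.filter (fun i => ∃ x ∈ T, x ∈ X i) → ∃ x ∈ T, x ∈ X i :=
    fun i hi => (Finset.mem_filter.1 hi).2
  choose! f hf1 hf2 using hex
  refine Finset.card_le_card_of_injOn f (fun i hi => hf1 i hi) ?_
  intro i hi j hj e
  by_contra k
  exact Set.disjoint_left.1 (hX i (Finset.mem_filter.1 hi).1 j (Finset.mem_filter.1 hj).1 k)
    (hf2 i hi) (e ▸ hf2 j hj)

/-- a model of the apex graph -/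
structure Mdl (S : Set (ℕ × ℕ)) (t : ℕ) (B : ℕ → Set (Option (ℕ × ℕ))) : Prop where
  cs : ∀ v, v < t → CSet (RS S) (B v)
  dj : ∀ v w, v < t → w < t → v ≠ w → Disjoint (B v) (B w)
  ad : ∀ v w, v < t → w < t → AAdj v w → ∃ x ∈ B v, ∃ y ∈ B w, RS S x y

/-- the levels from `lo` to `hi` -/
def Rg (B : ℕ → Set (Option (ℕ × ℕ))) (lo hi : ℕ) : Set (ℕ × ℕ) :=
  {p | ∃ v, 3 * lo ≤ v + 1 ∧ v + 1 < 3 * hi + 3 ∧ some p ∈ B v}

/-- the levels from `lo` to `hi` exist and avoid the extra vertex -/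
def Clean (t : ℕ) (B : ℕ → Set (Option (ℕ × ℕ))) (lo hi : ℕ) : Prop :=
  1 ≤ lo ∧ 3 * hi + 1 < t ∧ ∀ v, 3 * lo ≤ v + 1 → v + 1 < 3 * hi + 3 → none ∉ B v

namespace Mdl

variable {S : Set (ℕ × ℕ)} {t : ℕ} {B : ℕ → Set (Option (ℕ × ℕ))}

theorem adj (M : Mdl S t B) {v w : ℕ} (hv : v < t) (hw : w < t) (h : AAdj v w) (h1 : none ∉ B v)
    (h2 : none ∉ B w) : ∃ p ∈ some ⁻¹' B v, ∃ q ∈ some ⁻¹' B w, GAdj p q := by
  obtain ⟨x, hx, y, hy, e⟩ := M.ad v w hv hw h
  obtain _ | x := x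
  · exact absurd hx h1
  obtain _ | y := y
  · exact absurd hy h2
  exact ⟨x, hx, y, hy, e⟩

theorem cset_rg (M : Mdl S t B) {lo hi : ℕ} (hc : Clean t B lo hi) (h : lo ≤ hi) :
    CSet GAdj (Rg B lo hi) := by
  obtain ⟨c1, c2, c3⟩ := hc
  have hF : ∀ v, 3 * lo ≤ v + 1 → v + 1 < 3 * hi + 3 → CSet GAdj (some ⁻¹' B v) :=
    fun v h1 h2 => flat_cset (c3 v h1 h2) (M.cs v (by omega))
  have hs : ∀ v, 3 * lo ≤ v + 1 → v + 1 < 3 * hi + 3 → some ⁻¹' B v ⊆ Rg B lo hi :=
    fun v h1 h2 p hp => ⟨v, h1, h2, hp⟩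
  obtain ⟨r, hr, _⟩ := hF (3 * lo - 1) (by omega) (by omega)
  refine ⟨r, hs _ (by omega) (by omega) hr, ?_⟩
  have key : ∀ v, 3 * lo ≤ v + 1 → v + 1 < 3 * hi + 3 → ∀ p ∈ some ⁻¹' B v,
      Conn GAdj (Rg B lo hi) r p := by
    intro v
    induction v using Nat.strong_induction_on with
    | _ v ih =>
      intro h1 h2 p hp
      by_cases e : v = 3 * lo - 1
      · subst e
        exact ((hF _ h1 h2).conn gadj_symm hr hp).mono (hs _ h1 h2)
      · obtain ⟨w, w1, w2, w3⟩ : ∃ w, w < v ∧ 3 * lo ≤ w + 1 ∧ AAdj w v := by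
          by_cases e2 : (v + 1) % 3 = 0
          · exact ⟨v - 3, by omega, by omega, by unfold AAdj; omega⟩
          · exact ⟨v - 1, by omega, by omega, by unfold AAdj; omega⟩
        obtain ⟨x, hx, y, hy, k⟩ := M.adj (by omega) (by omega) w3 (c3 w w2 (by omega)) (c3 v h1 h2)
        exact (ih w w1 w2 (by omega) x hx).trans ((Conn.step (hs w w2 (by omega) hx)
          (hs v h1 h2 hy) k).trans (((hF v h1 h2).conn gadj_symm hy hp).mono (hs v h1 h2)))
  rintro p ⟨v, h1, h2, hp⟩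
  exact key v h1 h2 p hp

theorem rg_disj (M : Mdl S t B) {lo hi lo' hi' : ℕ} (h1 : 3 * hi' + 1 < t) (h : hi < lo')
    (_h' : lo' ≤ hi') : Disjoint (Rg B lo hi) (Rg B lo' hi') := by
  rw [Set.disjoint_left]
  rintro p ⟨v, a1, a2, a3⟩ ⟨w, b1, b2, b3⟩
  exact Set.disjoint_left.1 (M.dj v w (by omega) (by omega) (by omega)) a3 b3

theorem level_K5 (M : Mdl S t B) {i : ℕ} (hc : Clean t B i i) (Y3 Y4 : Set (ℕ × ℕ))
    (h3 : CSet GAdj Y3) (h4 : CSet GAdj Y4) (d34 : Disjoint Y3 Y4) (d3 : Disjoint (Rg B i i) Y3)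
    (d4 : Disjoint (Rg B i i) Y4)
    (a3 : ∀ v, (v + 1) / 3 = i → ∃ x ∈ some ⁻¹' B v, ∃ y ∈ Y3, GAdj x y)
    (a4 : ∀ v, (v + 1) / 3 = i → ∃ x ∈ some ⁻¹' B v, ∃ y ∈ Y4, GAdj x y)
    (Q : Set (ℕ × ℕ)) (a b : ℕ × ℕ) (ha : a ∈ Y3) (hb : b ∈ Y4) (hQ : a ∈ Q)
    (hab : Conn GAdj Q a b) (dQ : Disjoint Q (Rg B i i)) : False := by
  obtain ⟨c1, c2, c3⟩ := hc
  have hs : ∀ v, (v + 1) / 3 = i → some ⁻¹' B v ⊆ Rg B i i :=
    fun v h p hp => ⟨v, by omega, by omega, hp⟩
  have hF : ∀ v, (v + 1) / 3 = i → CSet GAdj (some ⁻¹' B v) :=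
    fun v h => flat_cset (c3 v (by omega) (by omega)) (M.cs v (by omega))
  have hD : ∀ v w, (v + 1) / 3 = i → (w + 1) / 3 = i → v ≠ w →
      Disjoint (some ⁻¹' B v) (some ⁻¹' B w) :=
    fun v w h1 h2 h => (M.dj v w (by omega) (by omega) h).preimage _
  have hA : ∀ v w, (v + 1) / 3 = i → (w + 1) / 3 = i → v ≠ w →
      ∃ p ∈ some ⁻¹' B v, ∃ q ∈ some ⁻¹' B w, GAdj p q :=
    fun v w h1 h2 h => M.adj (by omega) (by omega) (by unfold AAdj; omega)
      (c3 v (by omega) (by omega)) (c3 w (by omega) (by omega))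
  have l0 : (3 * i - 1 + 1) / 3 = i := by omega
  have l1 : (3 * i + 1) / 3 = i := by omega
  have l2 : (3 * i + 1 + 1) / 3 = i := by omega
  have e3 : ∀ v, (v + 1) / 3 = i → Disjoint (some ⁻¹' B v) Y3 := fun v h => d3.mono_left (hs v h)
  have e4 : ∀ v, (v + 1) / 3 = i → Disjoint (some ⁻¹' B v) Y4 := fun v h => d4.mono_left (hs v h)
  refine no_K5_path ![some ⁻¹' B (3 * i - 1), some ⁻¹' B (3 * i), some ⁻¹' B (3 * i + 1), Y3, Y4]
    ?_ ?_ ?_ Q a b ha hb hQ hab ?_
  · intro j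
    fin_cases j
    exacts [hF _ l0, hF _ l1, hF _ l2, h3, h4]
  · intro j k h
    fin_cases j <;> fin_cases k <;>
      first
      | exact absurd rfl h
      | exact hD _ _ (by omega) (by omega) (by omega)
      | exact e3 _ (by omega)
      | exact e4 _ (by omega)
      | exact (e3 _ (by omega)).symm
      | exact (e4 _ (by omega)).symm
      | exact d34
      | exact d34.symm
  · intro j k h h'
    fin_cases j <;> fin_cases k <;>
      first
      | exact absurd h (by decide)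
      | exact absurd rfl h'
      | exact hA _ _ (by omega) (by omega) (by omega)
      | exact a3 _ (by omega)
      | exact a4 _ (by omega)
  · intro j h h'
    fin_cases j
    · exact dQ.mono_right (hs _ l0)
    · exact dQ.mono_right (hs _ l1)
    · exact dQ.mono_right (hs _ l2)
    · exact absurd rfl h
    · exact absurd rfl h'

theorem deep (M : Mdl S t B) {n : ℕ} (hbox : ∀ v p, v < t → some p ∈ B v → p.1 < n ∧ p.2 < n)
    (ht : 3 * (4 * n + 6) + 1 < t) : False := by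
  classical
  obtain ⟨lo, hc⟩ : ∃ lo, Clean t B lo (lo + 2 * n + 2) := by
    by_cases h : ∀ v, 3 * 1 ≤ v + 1 → v + 1 < 3 * (1 + 2 * n + 2) + 3 → none ∉ B v
    · exact ⟨1, le_rfl, by omega, h⟩
    · push Not at h
      obtain ⟨v, h1, h2, h3⟩ := h
      exact ⟨2 * n + 4, by omega, by omega, fun w k1 k2 k3 =>
        Set.disjoint_left.1 (M.dj v w (by omega) (by omega) (by omega)) h3 k3⟩
  obtain ⟨c1, c2, c3⟩ := hc
  have sub : ∀ a b, lo ≤ a → b ≤ lo + 2 * n + 2 → Clean t B a b := fun a b h1 h2 =>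
    ⟨by omega, by omega, fun v k1 k2 => c3 v (by omega) (by omega)⟩
  obtain ⟨a, ⟨va, a1, a2, a3⟩, _⟩ := M.cset_rg (sub lo lo le_rfl (by omega)) le_rfl
  obtain ⟨b, ⟨vb, b1, b2, b3⟩, _⟩ := M.cset_rg (sub (lo + 2 * n + 2) _ (by omega) le_rfl) le_rfl
  have ba := hbox va a (by omega) a3
  have bb := hbox vb b (by omega) b3
  let Q : Finset (ℕ × ℕ) := (Finset.range n).image (fun x => (x, a.2)) ∪
    (Finset.range n).image (fun y => (b.1, y))
  have hQ : Q.card ≤ 2 * n := by
    have h1 := Finset.card_union_le ((Finset.range n).image (fun x => (x, a.2)))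
      ((Finset.range n).image (fun y => (b.1, y)))
    have h2 : ((Finset.range n).image (fun x => (x, a.2))).card ≤ n :=
      Finset.card_image_le.trans (by simp)
    have h3 : ((Finset.range n).image (fun y => (b.1, y))).card ≤ n :=
      Finset.card_image_le.trans (by simp)
    simp only [Q]; omega
  have q1 : ∀ x, x < n → (x, a.2) ∈ (Q : Set (ℕ × ℕ)) := fun x hx =>
    Finset.mem_union_left _ (Finset.mem_image.2 ⟨x, Finset.mem_range.2 hx, rfl⟩)
  have q2 : ∀ y, y < n → (b.1, y) ∈ (Q : Set (ℕ × ℕ)) := fun x hx =>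
    Finset.mem_union_right _ (Finset.mem_image.2 ⟨x, Finset.mem_range.2 hx, rfl⟩)
  have hh := hit_card (Finset.Ico (lo + 1) (lo + 2 * n + 2)) (fun i => Rg B i i) (by
    intro i hi j hj h
    rw [Finset.mem_Ico] at hi hj
    rcases lt_or_gt_of_ne h with h | h
    · exact M.rg_disj (by omega) h le_rfl
    · exact (M.rg_disj (by omega) h le_rfl).symm) Q
  obtain ⟨i, hi, hi'⟩ : ∃ i ∈ Finset.Ico (lo + 1) (lo + 2 * n + 2), ¬ ∃ x ∈ Q, x ∈ Rg B i i := by
    by_contra k
    push Not at k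
    rw [Finset.filter_true_of_mem k, Nat.card_Ico] at hh
    omega
  rw [Finset.mem_Ico] at hi
  refine M.level_K5 (sub i i (by omega) (by omega)) (Rg B lo (i - 1)) (Rg B (i + 1) (lo + 2 * n + 2))
    (M.cset_rg (sub _ _ le_rfl (by omega)) (by omega))
    (M.cset_rg (sub _ _ (by omega) le_rfl) (by omega))
    (M.rg_disj c2 (by omega) (by omega)) (M.rg_disj (by omega) (by omega) le_rfl).symm
    (M.rg_disj c2 (by omega) (by omega)) ?_ ?_ Q a b ⟨va, a1, by omega, a3⟩ ⟨vb, by omega, b2, b3⟩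
    (q1 _ ba.1) ?_ ?_
  · intro v hv
    obtain ⟨x, hx, y, hy, e⟩ := M.adj (v := v) (w := v - 3) (by omega) (by omega)
      (by unfold AAdj; omega) (c3 _ (by omega) (by omega)) (c3 _ (by omega) (by omega))
    exact ⟨x, hx, y, ⟨v - 3, by omega, by omega, hy⟩, e⟩
  · intro v hv
    obtain ⟨x, hx, y, hy, e⟩ := M.adj (v := v) (w := v + 3) (by omega) (by omega)
      (by unfold AAdj; omega) (c3 _ (by omega) (by omega)) (c3 _ (by omega) (by omega))
    exact ⟨x, hx, y, ⟨v + 3, by omega, by omega, hy⟩, e⟩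
  · exact (conn_row a.2 a.1 b.1 (fun x _ _ => q1 x (by omega))).trans
      (conn_col b.1 a.2 b.2 (fun y _ _ => q2 y (by omega)))
  · rw [Set.disjoint_left]
    exact fun x hx hx' => hi' ⟨x, hx, hx'⟩

theorem wide {S : Finset (ℕ × ℕ)} (M : Mdl S t B) {q : ℕ} (hq : S.card ≤ q) (hq1 : 1 ≤ q)
    (ht : 3 * (2 * (2 * q + 2)) + 1 < t) : False := by
  classical
  let Z : Set (ℕ × ℕ) := some ⁻¹' B 0
  obtain ⟨S0, hS0, hS1, hS2⟩ : ∃ S0 : Finset (ℕ × ℕ), S0.card ≤ q ∧ (∀ s ∈ S0, s ∈ Z) ∧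
      ∀ z ∈ Z, ∃ s ∈ S0, Conn GAdj Z s z := by
    by_cases h0 : none ∈ B 0
    · refine ⟨S.filter (fun s => s ∈ Z), (Finset.card_filter_le _ _).trans hq,
        fun s hs => (Finset.mem_filter.1 hs).2, fun z hz => ?_⟩
      have key : ∀ y, Conn (RS S) (B 0) none y → ∀ p, y = some p →
          ∃ s ∈ S.filter (fun s => s ∈ Z), Conn GAdj Z s p := by
        intro y hy
        induction hy with
        | refl => intro p e; cases e
        | @tail a b _ k ih =>
          intro p e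
          subst e
          obtain _ | a := a
          · exact ⟨p, Finset.mem_filter.2 ⟨k.2.2, k.2.1⟩, Conn.refl _⟩
          · obtain ⟨s, hs, c⟩ := ih a rfl
            exact ⟨s, hs, c.trans (Conn.step k.1 k.2.1 k.2.2)⟩
      exact key _ ((M.cs 0 (by omega)).conn (rs_symm _) h0 hz) z rfl
    · obtain ⟨r, hr, k⟩ := flat_cset h0 (M.cs 0 (by omega))
      exact ⟨{r}, by simpa using hq1, fun s hs => (Finset.mem_singleton.1 hs) ▸ hr, fun z hz => ⟨r, by simp, k z hz⟩⟩
  let X : ℕ → Set (Option (ℕ × ℕ)) := fun i =>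
    {x | ∃ v, 3 * (2 * i + 1) ≤ v + 1 ∧ v + 1 < 3 * (2 * i + 2) + 3 ∧ x ∈ B v}
  have hh := hit_card (Finset.range (2 * q + 2)) X (by
    intro i hi j hj h
    rw [Finset.mem_range] at hi hj
    rw [Set.disjoint_left]
    rintro p ⟨v, a1, a2, a3⟩ ⟨w, b1, b2, b3⟩
    exact Set.disjoint_left.1 (M.dj v w (by omega) (by omega) (by omega)) a3 b3)
    (insert none (S.image some))
  have hT : (insert none (S.image some)).card ≤ q + 1 :=
    (Finset.card_insert_le _ _).trans (by have := Finset.card_image_le (s := S) (f := some); omega)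
  have hsplit := Finset.card_filter_add_card_filter_not (s := Finset.range (2 * q + 2))
    (fun i => ∃ x ∈ insert none (S.image some), x ∈ X i)
  rw [Finset.card_range] at hsplit
  set D := (Finset.range (2 * q + 2)).filter
    (fun i => ¬ ∃ x ∈ insert none (S.image some), x ∈ X i) with hD
  have hDc : ∀ i ∈ D, i < 2 * q + 2 ∧ Clean t B (2 * i + 1) (2 * i + 2) ∧
      ∀ v, 3 * (2 * i + 1) ≤ v + 1 → v + 1 < 3 * (2 * i + 2) + 3 →
        ∃ x ∈ some ⁻¹' B v, ∃ z ∈ Z, GAdj x z := by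
    intro i hi
    obtain ⟨h1, h2⟩ := Finset.mem_filter.1 hi
    rw [Finset.mem_range] at h1
    have c : ∀ v, 3 * (2 * i + 1) ≤ v + 1 → v + 1 < 3 * (2 * i + 2) + 3 → none ∉ B v :=
      fun v k1 k2 k3 => h2 ⟨none, Finset.mem_insert_self _ _, v, k1, k2, k3⟩
    refine ⟨h1, ⟨by omega, by omega, c⟩, fun v k1 k2 => ?_⟩
    obtain ⟨x, hx, y, hy, e⟩ := M.ad v 0 (by omega) (by omega) (by unfold AAdj; omega)
    obtain _ | x := x
    · exact absurd hx (c v k1 k2)
    obtain _ | y := y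
    · exact absurd ⟨some x, Finset.mem_insert_of_mem (Finset.mem_image_of_mem _ e), v, k1, k2, hx⟩ h2
    · exact ⟨x, hx, y, hy, e⟩
  let U : Finset ℕ → Set (ℕ × ℕ) := fun E => Z ∪ {p | ∃ i ∈ E, p ∈ Rg B (2 * i + 1) (2 * i + 2)}
  let σ : Set (ℕ × ℕ) → Setoid S0 := fun Y =>
    ⟨fun a b => Conn GAdj Y a b, fun _ => Conn.refl _, fun h => h.symm gadj_symm, Conn.trans⟩
  have main : ∀ E : Finset ℕ, E ⊆ D → Nat.card (Quotient (σ (U E))) + E.card ≤ S0.card := by
    intro E
    induction E using Finset.induction_on with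
    | empty =>
      intro _
      have := Nat.card_le_card_of_surjective (Quotient.mk (σ (U ∅))) Quotient.mk_surjective
      simpa using this
    | insert i E hi ih =>
      intro hE
      have ih := ih ((Finset.subset_insert _ _).trans hE)
      obtain ⟨i1, i2, i3⟩ := hDc i (hE (Finset.mem_insert_self _ _))
      have hUU : U E ⊆ U (insert i E) := Set.union_subset_union_right _
        (fun p ⟨j, hj, hp⟩ => ⟨j, Finset.mem_insert_of_mem hj, hp⟩)
      have hRU : Rg B (2 * i + 1) (2 * i + 2) ⊆ U (insert i E) :=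
        fun p hp => Or.inr ⟨i, Finset.mem_insert_self _ _, hp⟩
      have hdis : Disjoint (Rg B (2 * i + 1) (2 * i + 2)) (U E) := by
        rw [Set.disjoint_left]
        rintro p ⟨v, a1, a2, a3⟩ (hp | ⟨j, hj, w, b1, b2, b3⟩)
        · exact Set.disjoint_left.1 (M.dj v 0 (by omega) (by omega) (by omega)) a3 hp
        · have := (hDc j (hE (Finset.mem_insert_of_mem hj))).1
          have : j ≠ i := fun e => hi (e ▸ hj)
          exact Set.disjoint_left.1 (M.dj v w (by omega) (by omega) (by omega)) a3 b3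
      let f : Quotient (σ (U E)) → Quotient (σ (U (insert i E))) :=
        Quotient.map id (fun a b h => Conn.mono h hUU)
      have fs : Function.Surjective f := by
        rintro ⟨a⟩
        exact ⟨Quotient.mk _ a, rfl⟩
      have fn : ¬ Function.Injective f := by
        intro hinj
        obtain ⟨x0, hx0, z0, hz0, e0⟩ := i3 (3 * (2 * i + 1)) (by omega) (by omega)
        obtain ⟨s0, hs0, c0⟩ := hS2 z0 hz0
        have hR := M.cset_rg i2 (by omega)
        have x0R : x0 ∈ Rg B (2 * i + 1) (2 * i + 2) := ⟨_, by omega, by omega, hx0⟩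
        have key : ∀ x ∈ Rg B (2 * i + 1) (2 * i + 2), ∀ z ∈ Z, GAdj x z → Conn GAdj (U E) s0 z := by
          intro x hx z hz e
          obtain ⟨s, hs, c⟩ := hS2 z hz
          have c1 : Conn GAdj (U (insert i E)) s0 s :=
            (c0.mono Set.subset_union_left).trans
              ((Conn.step (Set.mem_union_left _ hz0) (hRU x0R) e0.symm).trans
              (((hR.conn gadj_symm x0R hx).mono hRU).trans
              ((Conn.step (hRU hx) (Set.mem_union_left _ hz) e).trans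
              ((c.symm gadj_symm).mono Set.subset_union_left))))
          have c2 : f (Quotient.mk _ ⟨s0, hs0⟩) = f (Quotient.mk _ ⟨s, hs⟩) := Quotient.sound c1
          have c3 : Conn GAdj (U E) s0 s := Quotient.exact (hinj c2)
          exact c3.trans (c.mono Set.subset_union_left)
        let Wc : Set (ℕ × ℕ) := {p | Conn GAdj (U E) s0 p}
        have s0U : s0 ∈ U E := Or.inl (hS1 s0 hs0)
        have hW : CSet GAdj Wc := by
          refine ⟨s0, Conn.refl _, fun p hp => ?_⟩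
          induction hp with
          | refl => exact Conn.refl _
          | tail k0 k ih => exact ih.trans (Conn.step k0 (k0.tail k) k.2.2)
        have hWU : Wc ⊆ U E := fun p hp => Conn.mem_right hp s0U
        have s1 : Rg B (2 * i + 1) (2 * i + 1) ⊆ Rg B (2 * i + 1) (2 * i + 2) :=
          fun p ⟨v, a1, a2, a3⟩ => ⟨v, a1, by omega, a3⟩
        have s2 : Rg B (2 * i + 2) (2 * i + 2) ⊆ Rg B (2 * i + 1) (2 * i + 2) :=
          fun p ⟨v, a1, a2, a3⟩ => ⟨v, by omega, a2, a3⟩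
        obtain ⟨c1, c2, c3⟩ := i2
        have x0R' : x0 ∈ Rg B (2 * i + 1) (2 * i + 1) := ⟨_, by omega, by omega, hx0⟩
        have d1 := (M.rg_disj (lo := 2 * i + 1) (hi := 2 * i + 1) c2 (by omega) le_rfl).symm
        have d2 : Disjoint (Rg B (2 * i + 2) (2 * i + 2)) Wc := hdis.mono s2 hWU
        refine M.level_K5 (i := 2 * i + 2)
          ⟨by omega, c2, fun v k1 k2 => c3 v (by omega) k2⟩ (Rg B (2 * i + 1) (2 * i + 1)) Wc
          (M.cset_rg ⟨c1, by omega, fun v k1 k2 => c3 v k1 (by omega)⟩ le_rfl) hW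
          (hdis.mono s1 hWU) d1 d2 ?_ ?_ (Rg B (2 * i + 1) (2 * i + 1) ∪ Wc) x0 z0 x0R'
          (key x0 x0R z0 hz0 e0) (Or.inl x0R')
          (Conn.step (Set.mem_union_left _ x0R') (Set.mem_union_right _ (key x0 x0R z0 hz0 e0)) e0)
          (Set.disjoint_union_left.2 ⟨d1.symm, d2.symm⟩)
        · intro v hv
          obtain ⟨x, hx, y, hy, e⟩ := M.adj (v := v) (w := v - 3) (by omega) (by omega)
            (by unfold AAdj; omega) (c3 _ (by omega) (by omega)) (c3 _ (by omega) (by omega))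
          exact ⟨x, hx, y, ⟨v - 3, by omega, by omega, hy⟩, e⟩
        · intro v hv
          obtain ⟨x, hx, z, hz, e⟩ := i3 v (by omega) (by omega)
          exact ⟨x, hx, z, key x ⟨v, by omega, by omega, hx⟩ z hz e, e⟩
      have := Fintype.ofFinite (Quotient (σ (U E)))
      have := Fintype.ofFinite (Quotient (σ (U (insert i E))))
      have hlt := Fintype.card_lt_of_surjective_not_injective f fs fn
      rw [← Nat.card_eq_fintype_card, ← Nat.card_eq_fintype_card] at hlt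
      rw [Finset.card_insert_of_notMem hi]
      omega
  have := main D subset_rfl
  omega

theorem small (M : Mdl ∅ t B) (ht : 5 ≤ t) : False := by
  have h0 : ∀ v : Fin 5, none ∉ B v := by
    intro v hv
    obtain ⟨w, hw, hw'⟩ : ∃ w, w < 5 ∧ AAdj v w := by
      by_cases e : (v : ℕ) = 0
      · exact ⟨1, by omega, by unfold AAdj; omega⟩
      · exact ⟨0, by omega, by unfold AAdj; omega⟩
    obtain ⟨x, hx, y, _, e⟩ := M.ad v w (by omega) (by omega) hw'
    rcases ((M.cs v (by omega)).conn (rs_symm _) hv hx).cases_head with k | ⟨c, k, _⟩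
    · subst k
      obtain _ | y := y <;> exact e
    · obtain _ | c := c <;> exact k.2.2
  refine no_K5_sets (fun i => some ⁻¹' B i) (fun i => flat_cset (h0 i) (M.cs i (by omega)))
    (fun i j h => (M.dj i j (by omega) (by omega) (fun e => h (Fin.ext e))).preimage _)
    (fun i j h => M.adj (by omega) (by omega) ?_ (h0 i) (h0 j))
  rw [Fin.lt_def] at h
  have := j.2
  unfold AAdj
  omega

end Mdl

end Pool.Agent.H795Z.GM
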