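import Pool.Agent.H795Z.GM.Geom
import Pool.Agent.H795Z.GM.Pages

/-! A planar graph has a two-page representation of linear size. -/

set_option autoImplicit false

namespace Pool.Agent.H795Z.GM

variable {W : Type}

/-- valid points: a vertex (dummy point) or a dart -/
def Val (G : SimpleGraph W) (q : W × W) : Prop := q.1 = q.2 ∨ G.Adj q.1 q.2

/-- the invariant of the sweep -/
structure Inv (G : SimpleGraph W) (p : W → ℝ × ℝ) (S : Finset W) (pos : W × W → ℝ) : Prop where
  i1 : ∀ q q', Val G q → Val G q' → q.1 ∈ S → q'.1 ∈ S → pos q = pos q' → q = q'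
  i2 : ∀ q1 q2 q3 q4 : W × W, Val G q1 → Val G q2 → Val G q3 → Val G q4 → q1.1 ∈ S → q2.1 ∈ S →
    q1.1 = q3.1 → q2.1 = q4.1 → pos q1 < pos q2 → pos q2 < pos q3 → pos q3 < pos q4 → q1.1 = q2.1
  i3 : ∀ a b c d, a ∈ S → b ∈ S → c ∈ S → d ∈ S → G.Adj a b → G.Adj c d →
    pos (a, b) < pos (c, d) → pos (c, d) < pos (b, a) → pos (b, a) < pos (d, c) → False
  i4 : ∀ a b c d, a ∈ S → b ∈ S → c ∈ S → d ∉ S → G.Adj a b → G.Adj c d →
    pos (a, b) < pos (c, d) → pos (c, d) < pos (b, a) → False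
  i5 : ∀ a b c d, a ∈ S → b ∉ S → c ∈ S → d ∉ S → G.Adj a b → G.Adj c d →
    Below p a b c d → pos (a, b) < pos (c, d)

theorem inv_step [Finite W] [DecidableEq W] {G : SimpleGraph W} {p : W → ℝ × ℝ} (D : Drw G p)
    (S : Finset W) (v : W) (hv : v ∉ S) (hS : ∀ u ∈ S, (p u).1 < (p v).1)
    (hS' : ∀ u, u ∉ S → u ≠ v → (p v).1 < (p u).1) (pos : W × W → ℝ) (I : Inv G p S pos) :
    ∃ pos', Inv G p (insert v S) pos' := by
  classical
  -- the anchor
  obtain ⟨A, A1, A2, A3⟩ : ∃ A : ℝ,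
      (∀ a b, a ∈ S → b ∉ S → b ≠ v → G.Adj a b → Y p a b (p v).1 < (p v).2 → pos (a, b) ≤ A) ∧
      (∀ a b, a ∈ S → b ∉ S → G.Adj a b → ¬ (b ≠ v ∧ Y p a b (p v).1 < (p v).2) → A < pos (a, b)) ∧
      (∀ a b, a ∈ S → b ∈ S → G.Adj a b → pos (a, b) ≤ A → A < pos (b, a) → False) := by
    by_cases hne : {q : W × W | q.1 ∈ S ∧ q.2 ∉ S ∧ q.2 ≠ v ∧ G.Adj q.1 q.2 ∧
      Y p q.1 q.2 (p v).1 < (p v).2}.Nonempty
    · obtain ⟨⟨a0, b0⟩, ⟨m1, m2, m3, m4, m5⟩, hmax⟩ :=
        Set.exists_max_image _ pos (Set.toFinite _) hne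
      simp only at m1 m2 m3 m4 m5
      refine ⟨pos (a0, b0), fun a b h1 h2 h3 h4 h5 => hmax (a, b) ⟨h1, h2, h3, h4, h5⟩, ?_, ?_⟩
      · intro a b h1 h2 h3 h4
        refine I.i5 _ _ _ _ m1 m2 h1 h2 m4 h3 ⟨(p v).1, (hS _ m1).le, (hS' _ m2 m3).le,
          (hS _ h1).le, ?_, ?_⟩
        · by_cases e : b = v
          · rw [e]
          · exact (hS' _ h2 e).le
        · by_cases e : b = v
          · rw [e, Y_right p (hS _ h1)]; exact m5
          · exact m5.trans_le (not_lt.1 fun k => h4 ⟨e, k⟩)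
      · intro a b h1 h2 h3 h4 h5
        refine I.i4 a b a0 b0 h1 h2 m1 m2 h3 m4 (lt_of_le_of_ne h4 fun e => ?_) h5
        have := I.i1 (a, b) (a0, b0) (Or.inr h3) (Or.inr m4) h1 m1 e
        rw [Prod.mk.injEq] at this
        exact m2 (this.2 ▸ h2)
    · obtain ⟨m, hm⟩ := (Set.finite_range pos).bddBelow
      refine ⟨m - 1, fun a b h1 h2 h3 h4 h5 => absurd ⟨(a, b), h1, h2, h3, h4, h5⟩ hne,
        fun a b _ _ _ _ => ?_, fun a b _ _ _ h _ => ?_⟩
      · have := hm ⟨(a, b), rfl⟩
        linarith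
      · have := hm ⟨(a, b), rfl⟩
        linarith
  obtain ⟨ε, ε0, hε⟩ : ∃ ε : ℝ, 0 < ε ∧ ∀ q, A < pos q → A + ε ≤ pos q := by
    by_cases hne : {q : W × W | A < pos q}.Nonempty
    · obtain ⟨q0, m, hmin⟩ := Set.exists_min_image _ pos (Set.toFinite _) hne
      exact ⟨pos q0 - A, sub_pos.2 m, fun q hq => by have := hmin q hq; linarith⟩
    · exact ⟨1, one_pos, fun q hq => absurd ⟨q, hq⟩ hne⟩
  let κ : W → ℝ := fun w => if w = v then 1 / 2 else if w ∈ S then
    2 / 3 + Real.sigmoid (-pos (w, v)) / 3 else Real.sigmoid (slp p v w) / 3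
  have κv : κ v = 1 / 2 := if_pos rfl
  have κin : ∀ w ∈ S, κ w = 2 / 3 + Real.sigmoid (-pos (w, v)) / 3 := fun w hw => by
    simp only [κ]; rw [if_neg (fun e : w = v => hv (e ▸ hw)), if_pos hw]
  have κout : ∀ w, w ∉ S → w ≠ v → κ w = Real.sigmoid (slp p v w) / 3 := fun w hw e => by
    simp only [κ]; rw [if_neg e, if_neg hw]
  have κin' : ∀ w ∈ S, 2 / 3 < κ w ∧ κ w < 1 := fun w hw => by
    have := Real.sigmoid_pos (-pos (w, v))
    have := Real.sigmoid_lt_one (-pos (w, v))
    rw [κin w hw]; constructor <;> linarith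
  have κout' : ∀ w, w ∉ S → w ≠ v → 0 < κ w ∧ κ w < 1 / 3 := fun w hw e => by
    have := Real.sigmoid_pos (slp p v w)
    have := Real.sigmoid_lt_one (slp p v w)
    rw [κout w hw e]; constructor <;> linarith
  have κ01 : ∀ w, 0 < κ w ∧ κ w < 1 := fun w => by
    by_cases e : w = v
    · rw [e, κv]; norm_num
    · by_cases h : w ∈ S
      · have := κin' w h; constructor <;> linarith
      · have := κout' w h e; constructor <;> linarith
  have κinlt : ∀ w ∈ S, ∀ w' ∈ S, κ w < κ w' → pos (w', v) < pos (w, v) := by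
    intro w hw w' hw' h
    rw [κin w hw, κin w' hw'] at h
    have : Real.sigmoid (-pos (w, v)) < Real.sigmoid (-pos (w', v)) := by linarith
    have := Real.sigmoid_lt_iff.1 this
    linarith
  have κinj : ∀ w w', Val G (v, w) → Val G (v, w') → κ w = κ w' → w = w' := by
    intro w w' h h' e
    by_cases e1 : w = v <;> by_cases e2 : w' = v
    · rw [e1, e2]
    · exfalso
      rw [e1, κv] at e
      by_cases k : w' ∈ S
      · have := κin' w' k; linarith
      · have := κout' w' k e2; linarith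
    · exfalso
      rw [e2, κv] at e
      by_cases k : w ∈ S
      · have := κin' w k; linarith
      · have := κout' w k e1; linarith
    · have a : G.Adj v w := h.resolve_left (Ne.symm e1)
      have a' : G.Adj v w' := h'.resolve_left (Ne.symm e2)
      by_cases k : w ∈ S <;> by_cases k' : w' ∈ S
      · rw [κin w k, κin w' k'] at e
        have : Real.sigmoid (-pos (w, v)) = Real.sigmoid (-pos (w', v)) := by linarith
        have := I.i1 (w, v) (w', v) (Or.inr a.symm) (Or.inr a'.symm) k k'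
          (neg_injective (Real.sigmoid_injective this))
        exact congrArg Prod.fst this
      · have := κin' w k
        have := κout' w' k' e2
        linarith
      · have := κin' w' k'
        have := κout' w k e1
        linarith
      · rw [κout w k e1, κout w' k' e2] at e
        have : Real.sigmoid (slp p v w) = Real.sigmoid (slp p v w') := by linarith
        have := Real.sigmoid_injective this
        by_contra ne
        rcases D.tot a a' (hS' _ k e1) (hS' _ k' e2) (hS' _ k' e2) (hS' _ k e1)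
          (fun q => ne q.2) with q | q
        · exact q.slp_lt.ne this
        · exact q.slp_lt.ne' this
  have κoutlt : ∀ w w', w ∉ S → w ≠ v → w' ∉ S → w' ≠ v → slp p v w < slp p v w' → κ w < κ w' := by
    intro w w' h1 h2 h3 h4 h
    rw [κout w h1 h2, κout w' h3 h4]
    have := Real.sigmoid_lt h
    linarith
  clear_value κ
  let P : W × W → ℝ := fun q => if q.1 = v then A + ε * κ q.2 else pos q
  have Pold : ∀ a b, a ∈ S → P (a, b) = pos (a, b) := fun a b h =>
    if_neg (fun e : a = v => hv (e ▸ h))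
  have Pnew : ∀ w, P (v, w) = A + ε * κ w := fun w => if_pos rfl
  have on : ∀ q w, pos q < P (v, w) ↔ pos q ≤ A := by
    intro q w
    have := κ01 w
    rw [Pnew]
    constructor
    · intro h
      by_contra k
      have := hε q (not_le.1 k)
      nlinarith
    · intro h
      nlinarith
  have no : ∀ q w, P (v, w) < pos q ↔ A < pos q := by
    intro q w
    have := κ01 w
    rw [Pnew]
    constructor
    · intro h
      nlinarith
    · intro h
      have := hε q h
      nlinarith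
  have nn : ∀ w w', P (v, w) < P (v, w') ↔ κ w < κ w' := by
    intro w w'
    rw [Pnew, Pnew, add_lt_add_iff_left, mul_lt_mul_iff_right₀ ε0]
  have inc : ∀ a ∈ S, G.Adj a v → A < pos (a, v) := fun a ha h =>
    A2 a v ha hv h (fun k => k.1 rfl)
  clear_value P
  have hm : ∀ a, a ∈ insert v S → a = v ∨ a ∈ S := fun a h => Finset.mem_insert.1 h
  have hn : ∀ a, a ∉ insert v S → a ≠ v ∧ a ∉ S := fun a h => by
    rw [Finset.mem_insert, not_or] at h; exact h
  refine ⟨P, ?_, ?_, ?_, ?_, ?_⟩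
  · rintro ⟨a, b⟩ ⟨c, d⟩ h1 h2 h3 h4 e
    rcases hm _ h3 with k | k <;> rcases hm _ h4 with k' | k' <;> simp only at k k'
    · subst k; subst k'
      rw [κinj b d h1 h2 (le_antisymm (not_lt.1 fun m => ((nn _ _).2 m).ne' e)
        (not_lt.1 fun m => ((nn _ _).2 m).ne e))]
    · subst k
      rw [Pold c d k'] at e
      rcases le_or_gt (pos (c, d)) A with m | m
      · exact absurd e ((on _ _).2 m).ne'
      · exact absurd e ((no _ _).2 m).ne
    · subst k'
      rw [Pold a b k] at e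
      rcases le_or_gt (pos (a, b)) A with m | m
      · exact absurd e ((on _ _).2 m).ne
      · exact absurd e ((no _ _).2 m).ne'
    · rw [Pold a b k, Pold c d k'] at e
      exact I.i1 _ _ h1 h2 k k' e
  · rintro ⟨a, b1⟩ ⟨c, b2⟩ ⟨a', b3⟩ ⟨c', b4⟩ h1 h2 h3 h4 m1 m2 e1 e2 l1 l2 l3
    simp only at m1 m2 e1 e2 ⊢
    subst e1; subst e2
    rcases hm _ m1 with k | k <;> rcases hm _ m2 with k' | k'
    · rw [k, k']
    · subst k
      rw [Pold _ _ k'] at l1 l2
      exact absurd ((no _ _).1 l1) (not_lt.2 ((on _ _).1 l2))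
    · subst k'
      rw [Pold _ _ k] at l2 l3
      exact absurd ((no _ _).1 l2) (not_lt.2 ((on _ _).1 l3))
    · simp only [Pold _ _ k, Pold _ _ k'] at l1 l2 l3
      exact I.i2 _ _ _ _ h1 h2 h3 h4 k k' rfl rfl l1 l2 l3
  · intro a b c d ha hb hc hd h1 h2 l1 l2 l3
    rcases hm _ ha with ka | ka
    · subst ka
      have kb : b ∈ S := (hm _ hb).resolve_left h1.ne'
      rw [Pold _ _ kb] at l2 l3
      rcases hm _ hc with kc | kc
      · subst kc
        have kd : d ∈ S := (hm _ hd).resolve_left h2.ne'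
        rw [Pold _ _ kd] at l3
        exact lt_asymm l3 (κinlt b kb d kd ((nn _ _).1 l1))
      · rcases hm _ hd with kd | kd
        · subst kd
          exact absurd (inc b kb h1.symm) (not_lt.2 ((on _ _).1 l3))
        · rw [Pold _ _ kc] at l2
          rw [Pold _ _ kd] at l3
          exact I.i4 c d b a kc kd kb hv h2 h1.symm l2 l3
    · rcases hm _ hb with kb | kb
      · subst kb
        rw [Pold _ _ ka] at l1
        exact absurd (inc a ka h1) (not_lt.2 ((on _ _).1 (l1.trans l2)))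
      · rw [Pold _ _ ka] at l1
        rw [Pold _ _ kb] at l2 l3
        rcases hm _ hc with kc | kc
        · subst kc
          exact A3 a b ka kb h1 ((on _ _).1 l1) ((no _ _).1 l2)
        · rw [Pold _ _ kc] at l1 l2
          rcases hm _ hd with kd | kd
          · subst kd
            exact absurd (inc c kc h2) (not_lt.2 ((on _ _).1 (l2.trans l3)))
          · rw [Pold _ _ kd] at l3
            exact I.i3 a b c d ka kb kc kd h1 h2 l1 l2 l3
  · intro a b c d ha hb hc hd h1 h2 l1 l2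
    obtain ⟨d1, d2⟩ := hn _ hd
    rcases hm _ ha with ka | ka
    · subst ka
      have kb : b ∈ S := (hm _ hb).resolve_left h1.ne'
      rw [Pold _ _ kb] at l2
      rcases hm _ hc with kc | kc
      · subst kc
        have := (nn _ _).1 l1
        have := κin' b kb
        have := κout' d d2 d1
        linarith
      · rw [Pold _ _ kc] at l1 l2
        have m := (no _ _).1 l1
        have m2 : (p a).2 < Y p c d (p a).1 := by
          refine lt_of_le_of_ne (not_lt.1 fun k => ?_) (D.off h2 (hS _ kc) (hS' _ d2 d1)).symm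
          exact absurd m (not_lt.2 (A1 c d kc d2 d1 h2 k))
        refine lt_asymm l2 (I.i5 b a c d kb hv kc d2 h1.symm h2 ⟨(p a).1, (hS _ kb).le, le_rfl,
          (hS _ kc).le, (hS' _ d2 d1).le, ?_⟩)
        rw [Y_right p (hS _ kb)]; exact m2
    · rcases hm _ hb with kb | kb
      · subst kb
        rw [Pold _ _ ka] at l1
        exact absurd (inc a ka h1) (not_lt.2 ((on _ _).1 (l1.trans l2)))
      · rw [Pold _ _ ka] at l1
        rw [Pold _ _ kb] at l2
        rcases hm _ hc with kc | kc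
        · subst kc
          exact A3 a b ka kb h1 ((on _ _).1 l1) ((no _ _).1 l2)
        · rw [Pold _ _ kc] at l1 l2
          exact I.i4 a b c d ka kb kc d2 h1 h2 l1 l2
  · intro a b c d ha hb hc hd h1 h2 hB
    obtain ⟨b1, b2⟩ := hn _ hb
    obtain ⟨d1, d2⟩ := hn _ hd
    rcases hm _ ha with ka | ka <;> rcases hm _ hc with kc | kc
    · subst ka; subst kc
      exact (nn _ _).2 (κoutlt _ _ b2 b1 d2 d1 hB.slp_lt)
    · subst ka
      rw [Pold _ _ kc, no]
      refine A2 c d kc d2 h2 (fun k => ?_)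
      exact D.asym h1 h2 (hS' _ b2 b1) ((hS _ kc).trans (hS' _ d2 d1)) hB
        ⟨(p a).1, (hS _ kc).le, (hS' _ d2 d1).le, le_rfl, (hS' _ b2 b1).le,
          by rw [Y_left]; exact k.2⟩
    · subst kc
      rw [Pold _ _ ka, on]
      refine A1 a b ka b2 b1 h1 (lt_of_le_of_ne (not_lt.1 fun k => ?_)
        (D.off h1 (hS _ ka) (hS' _ b2 b1)))
      exact D.asym h1 h2 ((hS _ ka).trans (hS' _ b2 b1)) (hS' _ d2 d1) hB
        ⟨(p c).1, le_rfl, (hS' _ d2 d1).le, (hS _ ka).le, (hS' _ b2 b1).le,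
          by rw [Y_left]; exact k⟩
    · rw [Pold _ _ ka, Pold _ _ kc]
      exact I.i5 a b c d ka b2 kc d2 h1 h2 hB

theorem exists_inv [Finite W] [DecidableEq W] {G : SimpleGraph W} {p : W → ℝ × ℝ} (D : Drw G p)
    (S : Finset W) : (∀ u ∈ S, ∀ w, (p w).1 < (p u).1 → w ∈ S) → ∃ pos, Inv G p S pos := by
  induction S using Finset.induction_on_max_value (fun v => (p v).1) with
  | empty => exact fun _ => ⟨fun _ => 0, by simp, by simp, by simp, by simp, by simp⟩
  | insert v S hv hmax ih =>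
    intro hl
    have hS : ∀ u ∈ S, (p u).1 < (p v).1 := fun u hu =>
      lt_of_le_of_ne (hmax u hu) (fun e => hv (D.inj e ▸ hu))
    obtain ⟨pos, I⟩ := ih (fun u hu w hw => by
      rcases Finset.mem_insert.1 (hl u (Finset.mem_insert_of_mem hu) w hw) with k | k
      · rw [k] at hw; exact absurd hw (not_lt.2 (hmax u hu))
      · exact k)
    refine inv_step D S v hv hS (fun u h1 h2 => ?_) pos I
    refine lt_of_le_of_ne (not_lt.1 fun k => ?_) (fun e => h2 (D.inj e).symm)
    rcases Finset.mem_insert.1 (hl v (Finset.mem_insert_self _ _) u k) with k | k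
    · exact h2 k
    · exact h1 k

theorem twoPage_of_planar [Finite W] {G : SimpleGraph W} (h : Planar G) :
    ∃ N, N ≤ 7 * Nat.card W ∧ Nonempty (TwoPage G.Adj N) := by
  classical
  have := Fintype.ofFinite W
  obtain ⟨p, D⟩ := exists_drw h
  obtain ⟨pos, I⟩ := exists_inv D Finset.univ (fun _ _ _ _ => Finset.mem_univ _)
  let Q : Finset (W × W) := Finset.univ.filter (Val G)
  have hQ : ∀ q, q ∈ Q ↔ Val G q := fun q => by simp [Q]
  have hinj : Set.InjOn pos Q := fun q h q' h' e =>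
    I.i1 q q' ((hQ q).1 h) ((hQ q').1 h') (Finset.mem_univ _) (Finset.mem_univ _) e
  have hc : (Q.image pos).card = Q.card := Finset.card_image_of_injOn hinj
  let e : Fin Q.card ↪o ℝ := (Q.image pos).orderEmbOfFin hc
  have he : ∀ i, ∃ t ∈ Q, pos t = e i := fun i =>
    Finset.mem_image.1 ((Q.image pos).orderEmbOfFin_mem hc i)
  choose t ht hte using he
  have tsurj : ∀ q, Val G q → ∃ i, t i = q := by
    intro q hq
    have : pos q ∈ Set.range e := by
      rw [Finset.range_orderEmbOfFin]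
      exact Finset.mem_coe.2 (Finset.mem_image_of_mem _ ((hQ q).2 hq))
    obtain ⟨i, hi⟩ := this
    exact ⟨i, hinj (ht i) ((hQ q).2 hq) ((hte i).trans hi)⟩
  have tinj : Function.Injective t := fun i j h => e.injective (by rw [← hte, ← hte, h])
  have tlt : ∀ i j, i < j → pos (t i) < pos (t j) := fun i j h => by
    rw [hte, hte]; exact e.strictMono h
  refine ⟨Q.card, ?_, ⟨⟨fun i => (t i).1, fun i j => G.Adj (t i).1 (t i).2 ∧ t j = (t i).swap,
    ?_, ?_, ?_, ?_, ?_, ?_⟩⟩⟩
  · have h1 := D.card_edges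
    set E := {e : W × W | G.Adj e.1 e.2 ∧ (p e.1).1 < (p e.2).1}
    have hsub : (Q : Set (W × W)) ⊆ Set.range (fun w => (w, w)) ∪ E ∪ Prod.swap '' E := by
      rintro ⟨a, b⟩ hq
      rcases (hQ _).1 hq with k | k
      · exact Or.inl (Or.inl ⟨a, Prod.ext rfl k⟩)
      · rcases lt_trichotomy (p a).1 (p b).1 with m | m | m
        · exact Or.inl (Or.inr ⟨k, m⟩)
        · exact absurd (D.inj m) k.ne
        · exact Or.inr ⟨(b, a), ⟨k.symm, m⟩, rfl⟩
    have h2 := Set.ncard_le_ncard hsub (Set.toFinite _)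
    have h3 := Set.ncard_union_le (Set.range (fun w : W => (w, w)) ∪ E) (Prod.swap '' E)
    have h4 := Set.ncard_union_le (Set.range (fun w : W => (w, w))) E
    have h5 : (Prod.swap '' E).ncard ≤ E.ncard := Set.ncard_image_le (Set.toFinite _)
    have h6 : (Set.range (fun w : W => (w, w))).ncard ≤ Nat.card W := by
      rw [← Set.image_univ, ← Set.ncard_univ]
      exact Set.ncard_image_le (Set.toFinite _)
    rw [Set.ncard_coe_finset] at h2
    omega
  · intro u
    obtain ⟨i, hi⟩ := tsurj (u, u) (Or.inl rfl)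
    exact ⟨i, by simp only [hi]⟩
  · intro a b c d h1 h2 h3 e1 e2
    exact I.i2 _ _ _ _ ((hQ _).1 (ht a)) ((hQ _).1 (ht b)) ((hQ _).1 (ht c)) ((hQ _).1 (ht d))
      (Finset.mem_univ _) (Finset.mem_univ _) e1 e2 (tlt _ _ h1) (tlt _ _ h2) (tlt _ _ h3)
  · rintro a b ⟨h1, h2⟩
    rw [h2]
    exact ⟨h1.symm, rfl⟩
  · rintro a b c ⟨_, h1⟩ ⟨_, h2⟩
    exact tinj (h1.trans h2.symm)
  · rintro a b c d h1 h2 h3 ⟨k1, k2⟩ ⟨k3, k4⟩
    have l1 := tlt _ _ h1
    have l2 := tlt _ _ h2
    have l3 := tlt _ _ h3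
    rw [k2] at l2 l3
    rw [k4] at l3
    exact I.i3 _ _ _ _ (Finset.mem_univ _) (Finset.mem_univ _) (Finset.mem_univ _)
      (Finset.mem_univ _) k1 k3 l1 l2 l3
  · intro u w h
    obtain ⟨i, hi⟩ := tsurj (u, w) (Or.inr h)
    obtain ⟨j, hj⟩ := tsurj (w, u) (Or.inr h.symm)
    exact ⟨i, j, ⟨by rw [hi]; exact h, by rw [hi, hj]; rfl⟩, by simp only [hi], by simp only [hj]⟩

end Pool.Agent.H795Z.GM
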