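import Pool.Agent.H795Z.GM.Contract
import Pool.Agent.H795Z.GM.Sweep

/-! The upper bound. -/

set_option autoImplicit false

namespace Pool.Agent.H795Z.GM

theorem RMinor.comap {U W V : Type} {K : U → U → Prop} {H : W → W → Prop} {R : V → V → Prop}
    (h : RMinor H R) (f : U → W) (hf : Function.Injective f) (hK : ∀ a b, K a b → H (f a) (f b)) :
    RMinor K R := by
  obtain ⟨B, h1, h2, h3⟩ := h
  exact ⟨fun u => B (f u), fun u => h1 _, fun u u' e => h2 _ _ (fun k => e (hf k)),
    fun u u' e => h3 _ _ (hK _ _ e)⟩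

theorem upper {t r n : ℕ} (h : n ∈ sizes t r) :
    (n : ℝ) ≤ 13000000 * (t + r * √t) := by
  classical
  obtain ⟨A, ⟨z, hz⟩, V, _, G, hr, hA, hg⟩ := h
  have ht : 1 ≤ t := by have := z.2; omega
  by_cases hW : Nonempty {v : Fin t | v ≠ z}
  swap
  · exfalso
    apply hA
    have hV : Nonempty V := by
      by_contra k
      rw [not_nonempty_iff] at k
      rw [SimpleGraph.radius_eq_top_of_isEmpty] at hr
      exact absurd hr (by simp)
    obtain ⟨v⟩ := hV
    have hall : ∀ u : Fin t, u = z := fun u => by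
      by_contra k
      exact hW ⟨⟨u, k⟩⟩
    rw [isMinor_iff]
    refine ⟨fun _ => {v}, fun _ => ⟨v, rfl, ?_⟩, fun w w' k => ?_, fun w w' k => ?_⟩
    · rintro x rfl
      exact Conn.refl _
    · exact absurd ((hall w).trans (hall w').symm) k
    · exact absurd ((hall w).trans (hall w').symm) k.ne
  obtain ⟨N, hN, ⟨tp⟩⟩ := twoPage_of_planar hz
  have hc : Nat.card {v : Fin t | v ≠ z} ≤ t := by
    have := Nat.card_le_card_of_injective (Subtype.val : {v : Fin t | v ≠ z} → Fin t)
      Subtype.val_injective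
    rwa [Nat.card_fin] at this
  have hq := Nat.lt_succ_sqrt t
  set q := Nat.sqrt t + 1 with hqd
  have hq1 : 1 ≤ q := by omega
  have hn : n < 4 * (500 * q * (500 * q)) + 4 * (500 * q) + 500 * q * (2 * r + 1 + 4 * (500 * q)) := by
    by_contra k
    apply hA
    rw [isMinor_iff]
    have := graph_minor tp G hr hg (500 * q) (by rw [Nat.succ_eq_add_one, ← hqd] at hq; nlinarith)
      (not_lt.1 k)
    refine this.comap (fun v => if h : v = z then none else some ⟨v, h⟩) ?_ ?_
    · intro a b e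
      by_cases ha : a = z <;> by_cases hb : b = z
      · rw [ha, hb]
      · simp [ha, hb] at e
      · simp [ha, hb] at e
      · simpa [ha, hb] using e
    · intro a b e
      by_cases ha : a = z <;> by_cases hb : b = z
      · exact absurd (ha.trans hb.symm) e.ne
      · simp only [dif_pos ha, dif_neg hb]; trivial
      · simp only [dif_neg ha, dif_pos hb]; trivial
      · simp only [dif_neg ha, dif_neg hb]; exact e
  have h1 : (1 : ℝ) ≤ √t := Real.one_le_sqrt.2 (by exact_mod_cast ht)
  have h2 : (Nat.sqrt t : ℝ) ≤ √t := Real.nat_sqrt_le_real_sqrt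
  have h3 : (q : ℝ) ≤ 2 * √t := by rw [hqd]; push_cast; linarith
  have h4 : √t * √t = (t : ℝ) := Real.mul_self_sqrt (Nat.cast_nonneg t)
  have h5 : (1 : ℝ) ≤ q := by exact_mod_cast hq1
  have h6 : (n : ℝ) < 4 * (500 * q * (500 * q)) + 4 * (500 * q) +
      500 * q * (2 * r + 1 + 4 * (500 * q)) := by exact_mod_cast hn
  have h7 : (q : ℝ) * q ≤ 4 * t := by nlinarith
  have h8 : (0 : ℝ) ≤ r := Nat.cast_nonneg r
  have h9 : (r : ℝ) * q ≤ r * (2 * √t) := mul_le_mul_of_nonneg_left h3 h8
  have h10 : (0 : ℝ) ≤ r * √t := by positivity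
  nlinarith

end Pool.Agent.H795Z.GM
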